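import Mathlib

/-!
A lemma on compatible embeddings: if linear disjointness of `M` and `D` over `K` fails by a
controlled amount in two different composita, and the two shares add up to at least one, then the
first share is rational.
-/

set_option autoImplicit false

namespace Pool.Agent.H51.Coll

open Polynomial

/-- `i : M → E` is compatible with the algebra structures over `K ⊆ M`, `K ⊆ D ⊆ E`, and every family of `n`
elements of `M` that is linearly independent over `K` contains at least `a n` elements whose images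
are linearly independent over `D`. -/
def Share (K M D E : Type) [Field K] [Field M] [Field D] [Field E] [Algebra K M] [Algebra K D]
    [Algebra D E] (i : M →+* E) (a : ℝ) : Prop :=
  (∀ x : K, i (algebraMap K M x) = algebraMap D E (algebraMap K D x)) ∧
  ∀ (n : ℕ) (b : Fin n → M), LinearIndependent K b →
    a * n ≤ Module.finrank D (Submodule.span D (Set.range (fun s => i (b s))))

/-- The defining inequality for families indexed by any finite type. -/
theorem Share.fintype {K M D E : Type} [Field K] [Field M] [Field D] [Field E] [Algebra K M]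
    [Algebra K D] [Algebra D E] {i : M →+* E} {a : ℝ} (H : Share K M D E i a) {ι : Type}
    [Fintype ι] (b : ι → M) (hb : LinearIndependent K b) :
    a * (Fintype.card ι : ℝ) ≤
      Module.finrank D (Submodule.span D (Set.range (fun s => i (b s)))) := by
  classical
  set e := (Fintype.equivFin ι).symm
  have h1 := H.2 (Fintype.card ι) (fun s => b (e s)) (hb.comp e e.injective)
  have h2 : Set.range (fun s => i (b (e s))) = Set.range (fun s => i (b s)) := by
    ext x
    constructor
    · rintro ⟨s, rfl⟩; exact ⟨e s, rfl⟩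
    · rintro ⟨s, rfl⟩; exact ⟨e.symm s, by simp⟩
  rwa [h2] at h1

theorem pow_indep {K M : Type} [Field K] [Field M] [Algebra K M] {t : M}
    (ht : Transcendental K t) (n : ℕ) : LinearIndependent K (fun s : Fin n => t ^ (s : ℕ)) := by
  have := transcendental_iff_injective.1 ht
  have h2 : LinearIndependent K (fun s : ℕ => (X : K[X]) ^ s) := by
    have := (Polynomial.basisMonomials K).linearIndependent
    have h : (fun s : ℕ => (X : K[X]) ^ s) = ⇑(Polynomial.basisMonomials K) := by
      funext s
      rw [Polynomial.coe_basisMonomials, Polynomial.X_pow_eq_monomial]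
    rw [h]; exact this
  have h3 := h2.map' (Polynomial.aeval t).toLinearMap (LinearMap.ker_eq_bot.2 this)
  have h4 := h3.comp (fun s : Fin n => (s : ℕ)) Fin.val_injective
  have h5 : (fun s : Fin n => t ^ (s : ℕ)) =
      ((⇑(Polynomial.aeval t).toLinearMap ∘ fun s : ℕ => (X : K[X]) ^ s) ∘ fun s : Fin n => (s : ℕ)) := by
    funext s
    simp
  rw [h5]
  exact h4

/-- The image of an element transcendental over `K` is transcendental over `D`. -/
theorem Share.transcendental {K M D E : Type} [Field K] [Field M] [Field D] [Field E] [Algebra K M]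
    [Algebra K D] [Algebra D E] {i : M →+* E} {a : ℝ} (ha : 0 < a) (H : Share K M D E i a) {t : M}
    (ht : Transcendental K t) : Transcendental D (i t) := by
  intro hal
  have hint : IsIntegral D (i t) := hal.isIntegral
  set m := (minpoly D (i t)).natDegree
  have hbd : ∀ n : ℕ, Module.finrank D
      (Submodule.span D (Set.range (fun s : Fin n => i (t ^ (s : ℕ))))) ≤ m := by
    intro n
    have hle : Submodule.span D (Set.range (fun s : Fin n => i (t ^ (s : ℕ)))) ≤
        Submodule.span D (Set.range fun s : Fin m => (i t) ^ (s : ℕ)) := by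
      rw [Submodule.span_le]
      rintro _ ⟨s, rfl⟩
      exact hint.mem_span_pow ⟨X ^ (s : ℕ), by simp⟩
    have h1 : Module.finrank D (Submodule.span D (Set.range fun s : Fin m => (i t) ^ (s : ℕ))) ≤ m := by
      have := finrank_range_le_card (R := D) (fun s : Fin m => (i t) ^ (s : ℕ))
      simpa [Set.finrank] using this
    have : FiniteDimensional D
        (Submodule.span D (Set.range fun s : Fin m => (i t) ^ (s : ℕ))) :=
      FiniteDimensional.span_of_finite D (Set.finite_range _)
    exact (Submodule.finrank_mono hle).trans h1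
  obtain ⟨n, hn⟩ := exists_nat_gt ((m : ℝ) / a)
  have h1 := H.2 n _ (pow_indep ht n)
  have h2 : (Module.finrank D
      (Submodule.span D (Set.range (fun s : Fin n => i (t ^ (s : ℕ))))) : ℝ) ≤ m := by
    exact_mod_cast hbd n
  rw [div_lt_iff₀ ha] at hn
  linarith [mul_comm (n : ℝ) a]

/-- The field extension step. -/
theorem Share.step {K K' M D D' E : Type} [Field K] [Field K'] [Field M] [Field D] [Field D']
    [Field E] [Algebra K M] [Algebra K D] [Algebra D E] [Algebra K K'] [Algebra K' M]
    [Algebra D D'] [Algebra D' E] [Algebra K' D'] [IsScalarTower K K' M] [IsScalarTower D D' E]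
    [Algebra D[X] D'] [IsFractionRing D[X] D'] [IsScalarTower D D[X] D'] (x : K')
    (hx : Transcendental K x) {i : M →+* E} {a : ℝ}
    (h1 : i (algebraMap K' M x) = algebraMap D' E (algebraMap D[X] D' X))
    (compat : ∀ z : K', i (algebraMap K' M z) = algebraMap D' E (algebraMap K' D' z))
    (H : Share K M D E i a) : Share K' M D' E i a := by
  refine ⟨compat, ?_⟩
  intro h b hb
  classical
  set W : Submodule D' E := Submodule.span D' (Set.range (fun s => i (b s))) with hW
  have hWf : FiniteDimensional D' W := FiniteDimensional.span_of_finite D' (Set.finite_range _)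
  set d := Module.finrank D' W with hd
  let w : Module.Basis (Fin d) D' W := Module.finBasis D' W
  have hmem : ∀ s, i (b s) ∈ W := fun s => Submodule.subset_span ⟨s, rfl⟩
  -- coordinates
  let R : Fin h × Fin d → D' := fun p => w.repr ⟨i (b p.1), hmem p.1⟩ p.2
  obtain ⟨q, hq⟩ := IsLocalization.exist_integer_multiples_of_finite (nonZeroDivisors D[X]) R
  have hq' : ∀ p, ∃ P : D[X], algebraMap D[X] D' P = algebraMap D[X] D' (q : D[X]) * R p := by
    intro p
    obtain ⟨P, hP⟩ := hq p
    exact ⟨P, by rw [hP, Algebra.smul_def]⟩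
  choose P hP using hq'
  set y : E := algebraMap D' E (algebraMap D[X] D' X) with hy
  let ev : D[X] →+* E := (algebraMap D' E).comp (algebraMap D[X] D')
  have hev : ∀ p : D[X], ev p = Polynomial.aeval y p := by
    intro p
    have : ev = (Polynomial.aeval y : D[X] →ₐ[D] E).toRingHom := by
      apply Polynomial.ringHom_ext
      · intro z
        simp only [ev, RingHom.comp_apply, AlgHom.toRingHom_eq_coe, RingHom.coe_coe,
          Polynomial.aeval_C]
        rw [← Polynomial.algebraMap_eq, ← IsScalarTower.algebraMap_apply D D[X] D',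
          ← IsScalarTower.algebraMap_apply D D' E]
      · simp [ev, hy]
    rw [this]; rfl
  have hq0 : ev (q : D[X]) ≠ 0 := by
    have h1 : (q : D[X]) ≠ 0 := nonZeroDivisors.ne_zero q.2
    intro h0
    simp only [ev, RingHom.comp_apply] at h0
    rw [map_eq_zero] at h0
    exact h1 ((IsFractionRing.injective D[X] D') (by rw [h0, map_zero]))
  -- bound on the degrees
  set C := (Finset.univ.sup fun p : Fin h × Fin d => (P p).natDegree) + 1 with hC
  have hPdeg : ∀ p, (P p).natDegree < C := by
    intro p
    have := Finset.le_sup (f := fun p : Fin h × Fin d => (P p).natDegree) (Finset.mem_univ p)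
    omega
  have hexp : ∀ s, ev (q : D[X]) * i (b s) = ∑ j, ev (P (s, j)) * (w j : E) := by
    intro s
    have h2 : (⟨i (b s), hmem s⟩ : W) = ∑ j, R (s, j) • w j := (w.sum_repr _).symm
    have h3 : i (b s) = ∑ j, R (s, j) • (w j : E) := by
      have := congrArg (Submodule.subtype W) h2
      simpa using this
    rw [h3, Finset.mul_sum]
    refine Finset.sum_congr rfl fun j _ => ?_
    simp only [ev, RingHom.comp_apply]
    rw [hP, map_mul, Algebra.smul_def]
    ring
  -- the main inequality
  have key : ∀ n : ℕ, a * ((n : ℝ) * h) ≤ (n + C : ℝ) * d := by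
    intro n
    have hli : LinearIndependent K
        (fun p : Fin n × Fin h => (x ^ (p.1 : ℕ)) • b p.2) :=
      linearIndependent_smul (pow_indep hx n) hb
    have h4 := H.fintype _ hli
    have h5 : Module.finrank D (Submodule.span D
        (Set.range (fun p : Fin n × Fin h => i ((x ^ (p.1 : ℕ)) • b p.2)))) ≤ (n + C) * d := by
      -- multiply by ev q
      let mulq : E →ₗ[D] E := LinearMap.mulLeft D (ev (q : D[X]))
      have hinj : Function.Injective mulq := by
        intro u v huv
        exact mul_left_cancel₀ hq0 huv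
      let V : Submodule D E := Submodule.span D
        (Set.range (fun p : Fin n × Fin h => i ((x ^ (p.1 : ℕ)) • b p.2)))
      let V' : Submodule D E := Submodule.span D
        (Set.range (fun p : Fin (n + C) × Fin d => y ^ (p.1 : ℕ) * (w p.2 : E)))
      have hV' : Module.finrank D V' ≤ (n + C) * d := by
        have := finrank_range_le_card (R := D)
          (fun p : Fin (n + C) × Fin d => y ^ (p.1 : ℕ) * (w p.2 : E))
        simpa [Set.finrank] using this
      have : FiniteDimensional D V' := FiniteDimensional.span_of_finite D (Set.finite_range _)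
      have hmap : V.map mulq ≤ V' := by
        rw [Submodule.map_span, Submodule.span_le]
        rintro _ ⟨_, ⟨p, rfl⟩, rfl⟩
        simp only [mulq, LinearMap.mulLeft_apply]
        have h6 : i ((x ^ (p.1 : ℕ)) • b p.2) = y ^ (p.1 : ℕ) * i (b p.2) := by
          rw [Algebra.smul_def, map_mul, map_pow, map_pow, h1]
        have h7 : ev (q : D[X]) * i ((x ^ (p.1 : ℕ)) • b p.2) =
            ∑ j, (y ^ (p.1 : ℕ) * ev (P (p.2, j))) * (w j : E) := by
          rw [h6, mul_left_comm, hexp, Finset.mul_sum]
          exact Finset.sum_congr rfl fun j _ => by ring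
        rw [h7]
        refine Submodule.sum_mem _ fun j _ => ?_
        rw [hev, Polynomial.aeval_eq_sum_range' (hPdeg (p.2, j)), Finset.mul_sum, Finset.sum_mul]
        refine Submodule.sum_mem _ fun k hk => ?_
        have h8 : y ^ (p.1 : ℕ) * ((P (p.2, j)).coeff k • y ^ k) * (w j : E) =
            (P (p.2, j)).coeff k • (y ^ ((p.1 : ℕ) + k) * (w j : E)) := by
          rw [pow_add, Algebra.smul_def, Algebra.smul_def]; ring
        rw [h8]
        refine Submodule.smul_mem _ _ (Submodule.subset_span ?_)
        have hk' := Finset.mem_range.1 hk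
        exact ⟨(⟨(p.1 : ℕ) + k, by have := p.1.2; omega⟩, j), rfl⟩
      have h9 : Module.finrank D (V.map mulq) = Module.finrank D V :=
        (Submodule.equivMapOfInjective mulq hinj V).finrank_eq.symm
      have h10 := Submodule.finrank_mono hmap
      change Module.finrank D V ≤ _
      rw [← h9]
      exact h10.trans hV'
    have h6 : (Fintype.card (Fin n × Fin h) : ℝ) = (n : ℝ) * h := by
      simp
    rw [h6] at h4
    refine h4.trans ?_
    have : ((Module.finrank D (Submodule.span D
        (Set.range (fun p : Fin n × Fin h => i ((x ^ (p.1 : ℕ)) • b p.2)))) : ℕ) : ℝ) ≤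
        (((n + C) * d : ℕ) : ℝ) := by exact_mod_cast h5
    refine this.trans (le_of_eq ?_)
    push_cast
    ring
  by_contra hlt
  push Not at hlt
  obtain ⟨n, hn⟩ := exists_nat_gt ((C * d : ℝ) / (a * h - d))
  have hpos : 0 < a * h - d := by linarith
  rw [div_lt_iff₀ hpos] at hn
  have := key n
  nlinarith

/-- The span of the images of powers of an integral element. -/
theorem finrank_pow_le {M D E : Type} [Field M] [Field D] [Field E] [Algebra D E] (i : M →+* E)
    (t : M) (hint : IsIntegral D (i t)) (n : ℕ) : Module.finrank D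
      (Submodule.span D (Set.range (fun s : Fin n => i (t ^ (s : ℕ))))) ≤
      (minpoly D (i t)).natDegree := by
  set m := (minpoly D (i t)).natDegree
  have hle : Submodule.span D (Set.range (fun s : Fin n => i (t ^ (s : ℕ)))) ≤
      Submodule.span D (Set.range fun s : Fin m => (i t) ^ (s : ℕ)) := by
    rw [Submodule.span_le]
    rintro _ ⟨s, rfl⟩
    exact hint.mem_span_pow ⟨X ^ (s : ℕ), by simp⟩
  have h1 : Module.finrank D (Submodule.span D (Set.range fun s : Fin m => (i t) ^ (s : ℕ))) ≤ m := by
    have := finrank_range_le_card (R := D) (fun s : Fin m => (i t) ^ (s : ℕ))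
    simpa [Set.finrank] using this
  have : FiniteDimensional D
      (Submodule.span D (Set.range fun s : Fin m => (i t) ^ (s : ℕ))) :=
    FiniteDimensional.span_of_finite D (Set.finite_range _)
  exact (Submodule.finrank_mono hle).trans h1

/-- The case where all the elements `c s` are algebraic. -/
theorem share_rational_alg {K M D E₁ E₂ : Type} [Field K] [CharZero K] [Field M] [Field D]
    [Field E₁] [Field E₂] [Algebra K M] [Algebra K D] [Algebra D E₁] [Algebra D E₂]
    (i₁ : M →+* E₁) (i₂ : M →+* E₂) (a₁ a₂ : ℝ) (hsum : 1 ≤ a₁ + a₂)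
    (h₁ : Share K M D E₁ i₁ a₁) (h₂ : Share K M D E₂ i₂ a₂)
    (r : ℕ) (c : Fin r → M) (g : Fin r → D) (hal : ∀ s, IsAlgebraic K (c s))
    (hz : ∑ s, algebraMap D E₁ (g s) * i₁ (c s) = 0)
    (hn : ∑ s, algebraMap D E₂ (g s) * i₂ (c s) ≠ 0) :
    ∃ q : ℚ, (q : ℝ) = a₁ := by
  classical
  let S : IntermediateField K M := IntermediateField.adjoin K (Set.range c)
  have hfd : FiniteDimensional K S := by
    refine IntermediateField.finiteDimensional_adjoin ?_
    rintro _ ⟨s, rfl⟩
    exact (hal s).isIntegral
  let pb : PowerBasis K S := Field.powerBasisOfFiniteOfSeparable K S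
  set θ : M := (pb.gen : M) with hθ
  have hθint : IsIntegral K θ := by
    have := IsIntegral.of_finite K pb.gen
    exact this.map S.val
  have hq : ∀ s, ∃ q : K[X], c s = Polynomial.aeval θ q := by
    intro s
    have hs : c s ∈ S := IntermediateField.subset_adjoin K _ ⟨s, rfl⟩
    obtain ⟨f, -, hf⟩ := pb.exists_eq_aeval (⟨c s, hs⟩ : S)
    refine ⟨f, ?_⟩
    have h6 : c s = S.val (Polynomial.aeval pb.gen f) := congrArg S.val hf
    rw [h6]
    exact (Polynomial.aeval_algHom_apply S.val pb.gen f).symm
  choose q hq using hq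
  set e := (minpoly K θ).natDegree with he
  have hepos : 0 < e := minpoly.natDegree_pos hθint
  set P : D[X] := (minpoly K θ).map (algebraMap K D) with hP
  have hPne : P ≠ 0 := Polynomial.map_ne_zero (minpoly.ne_zero hθint)
  have hPdeg : P.natDegree = e := Polynomial.natDegree_map _
  -- evaluation of mapped polynomials
  have hev₁ : ∀ f : K[X], Polynomial.aeval (i₁ θ) (f.map (algebraMap K D)) = i₁ (Polynomial.aeval θ f) := by
    intro f
    rw [Polynomial.aeval_def, Polynomial.eval₂_map, Polynomial.aeval_def, Polynomial.hom_eval₂]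
    congr 1
    ext z
    simp [h₁.1]
  have hev₂ : ∀ f : K[X], Polynomial.aeval (i₂ θ) (f.map (algebraMap K D)) = i₂ (Polynomial.aeval θ f) := by
    intro f
    rw [Polynomial.aeval_def, Polynomial.eval₂_map, Polynomial.aeval_def, Polynomial.hom_eval₂]
    congr 1
    ext z
    simp [h₂.1]
  have hP₁ : Polynomial.aeval (i₁ θ) P = 0 := by rw [hP, hev₁, minpoly.aeval, map_zero]
  have hP₂ : Polynomial.aeval (i₂ θ) P = 0 := by rw [hP, hev₂, minpoly.aeval, map_zero]
  have hint₁ : IsIntegral D (i₁ θ) := IsAlgebraic.isIntegral ⟨P, hPne, hP₁⟩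
  have hint₂ : IsIntegral D (i₂ θ) := IsAlgebraic.isIntegral ⟨P, hPne, hP₂⟩
  set m₁ := minpoly D (i₁ θ) with hm₁
  set m₂ := minpoly D (i₂ θ) with hm₂
  have hd₁ : m₁ ∣ P := minpoly.dvd D _ hP₁
  have hd₂ : m₂ ∣ P := minpoly.dvd D _ hP₂
  have he₁ : a₁ * e ≤ m₁.natDegree := by
    refine (h₁.2 e _ (linearIndependent_pow (K := K) θ)).trans ?_
    exact_mod_cast finrank_pow_le i₁ θ hint₁ e
  have he₂ : a₂ * e ≤ m₂.natDegree := by
    refine (h₂.2 e _ (linearIndependent_pow (K := K) θ)).trans ?_
    exact_mod_cast finrank_pow_le i₂ θ hint₂ e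
  -- the relation
  set F : D[X] := ∑ s, Polynomial.C (g s) * (q s).map (algebraMap K D) with hF
  have hF₁ : Polynomial.aeval (i₁ θ) F = 0 := by
    rw [← hz, hF, map_sum]
    refine Finset.sum_congr rfl fun s _ => ?_
    rw [map_mul, Polynomial.aeval_C, hev₁, ← hq]
  have hF₂ : Polynomial.aeval (i₂ θ) F ≠ 0 := by
    intro h0
    apply hn
    rw [← h0, hF, map_sum]
    refine Finset.sum_congr rfl fun s _ => ?_
    rw [map_mul, Polynomial.aeval_C, hev₂, ← hq]
  have hdF : m₁ ∣ F := minpoly.dvd D _ hF₁
  have hndF : ¬ m₂ ∣ F := by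
    rintro ⟨G, hG⟩
    apply hF₂
    rw [hG, map_mul, hm₂, minpoly.aeval, zero_mul]
  have hirr₁ : Irreducible m₁ := minpoly.irreducible hint₁
  have hirr₂ : Irreducible m₂ := minpoly.irreducible hint₂
  have hcop : IsCoprime m₁ m₂ := by
    rw [hirr₁.coprime_iff_not_dvd]
    intro hdvd
    have hass : Associated m₁ m₂ := hirr₁.associated_of_dvd hirr₂ hdvd
    exact hndF (hass.symm.dvd.trans hdF)
  have hmul : m₁ * m₂ ∣ P := hcop.mul_dvd hd₁ hd₂
  have hdeg : m₁.natDegree + m₂.natDegree ≤ e := by
    rw [← hPdeg, ← Polynomial.natDegree_mul hirr₁.ne_zero hirr₂.ne_zero]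
    exact Polynomial.natDegree_le_of_dvd hmul hPne
  have hdeg' : (m₁.natDegree : ℝ) + m₂.natDegree ≤ e := by exact_mod_cast hdeg
  have hepos' : (0 : ℝ) < e := by exact_mod_cast hepos
  refine ⟨(m₁.natDegree : ℚ) / e, ?_⟩
  push_cast
  rw [div_eq_iff hepos'.ne']
  nlinarith

/-- Induction on the number of transcendental elements. -/
theorem share_rational_aux : ∀ (m : ℕ) (K M D E₁ E₂ : Type) [Field K] [CharZero K] [Field M]
    [Field D] [Field E₁] [Field E₂] [Algebra K M] [Algebra K D] [Algebra D E₁] [Algebra D E₂]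
    (i₁ : M →+* E₁) (i₂ : M →+* E₂) (a₁ a₂ : ℝ), 0 < a₁ → 0 < a₂ → 1 ≤ a₁ + a₂ →
    Share K M D E₁ i₁ a₁ → Share K M D E₂ i₂ a₂ →
    ∀ (r : ℕ) (c : Fin r → M) (g : Fin r → D), {s | Transcendental K (c s)}.ncard = m → 
    ∑ s, algebraMap D E₁ (g s) * i₁ (c s) = 0 →
    ∑ s, algebraMap D E₂ (g s) * i₂ (c s) ≠ 0 →
    ∃ q : ℚ, (q : ℝ) = a₁ := by
  intro m
  induction m using Nat.strong_induction_on with
  | _ m ih =>
  intro K M D E₁ E₂ _ _ _ _ _ _ _ _ _ _ i₁ i₂ a₁ a₂ ha₁ ha₂ hsum h₁ h₂ r c g hm hz hn
  by_cases hal : ∀ s, IsAlgebraic K (c s)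
  · exact share_rational_alg i₁ i₂ a₁ a₂ hsum h₁ h₂ r c g hal hz hn
  push Not at hal
  obtain ⟨s₀, hs₀⟩ := hal
  have ht : Transcendental K (c s₀) := hs₀
  have ht₁ : Transcendental D (i₁ (c s₀)) := h₁.transcendental ha₁ ht
  have ht₂ : Transcendental D (i₂ (c s₀)) := h₂.transcendental ha₂ ht
  let K' := FractionRing K[X]
  let D' := FractionRing D[X]
  have hinjM : Function.Injective ((Polynomial.aeval (c s₀) : K[X] →ₐ[K] M) : K[X] →+* M) :=
    transcendental_iff_injective.1 ht
  have hinj₁ : Function.Injective ((Polynomial.aeval (i₁ (c s₀)) : D[X] →ₐ[D] E₁) : D[X] →+* E₁) :=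
    transcendental_iff_injective.1 ht₁
  have hinj₂ : Function.Injective ((Polynomial.aeval (i₂ (c s₀)) : D[X] →ₐ[D] E₂) : D[X] →+* E₂) :=
    transcendental_iff_injective.1 ht₂
  have hinjD : Function.Injective
      ((algebraMap D[X] D').comp (Polynomial.mapRingHom (algebraMap K D))) := by
    rw [RingHom.coe_comp]
    exact (IsFractionRing.injective D[X] D').comp
      (Polynomial.map_injective _ (algebraMap K D).injective)
  let φ : K' →+* M := IsFractionRing.lift hinjM
  let ψ₁ : D' →+* E₁ := IsFractionRing.lift hinj₁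
  let ψ₂ : D' →+* E₂ := IsFractionRing.lift hinj₂
  let j : K' →+* D' := IsFractionRing.lift hinjD
  have hφ : ∀ p : K[X], φ (algebraMap K[X] K' p) = Polynomial.aeval (c s₀) p := fun p =>
    IsFractionRing.lift_algebraMap hinjM p
  have hψ₁ : ∀ p : D[X], ψ₁ (algebraMap D[X] D' p) = Polynomial.aeval (i₁ (c s₀)) p := fun p =>
    IsFractionRing.lift_algebraMap hinj₁ p
  have hψ₂ : ∀ p : D[X], ψ₂ (algebraMap D[X] D' p) = Polynomial.aeval (i₂ (c s₀)) p := fun p =>
    IsFractionRing.lift_algebraMap hinj₂ p
  have hj : ∀ p : K[X], j (algebraMap K[X] K' p) =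
      algebraMap D[X] D' (p.map (algebraMap K D)) := fun p =>
    IsFractionRing.lift_algebraMap hinjD p
  let algKM : Algebra K' M := φ.toAlgebra
  let algDE₁ : Algebra D' E₁ := ψ₁.toAlgebra
  let algDE₂ : Algebra D' E₂ := ψ₂.toAlgebra
  let algKD : Algebra K' D' := j.toAlgebra
  have hKt : ∀ x : K, algebraMap K K' x = algebraMap K[X] K' (Polynomial.C x) := fun x => by
    rw [IsScalarTower.algebraMap_apply K K[X] K', Polynomial.algebraMap_eq]
  have hDt : ∀ x : D, algebraMap D D' x = algebraMap D[X] D' (Polynomial.C x) := fun x => by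
    rw [IsScalarTower.algebraMap_apply D D[X] D', Polynomial.algebraMap_eq]
  have : IsScalarTower K K' M := IsScalarTower.of_algebraMap_eq (fun x => by
    change _ = φ _
    rw [hKt, hφ, Polynomial.aeval_C])
  have : IsScalarTower D D' E₁ := IsScalarTower.of_algebraMap_eq (fun x => by
    change _ = ψ₁ _
    rw [hDt, hψ₁, Polynomial.aeval_C])
  have : IsScalarTower D D' E₂ := IsScalarTower.of_algebraMap_eq (fun x => by
    change _ = ψ₂ _
    rw [hDt, hψ₂, Polynomial.aeval_C])
  have : CharZero K' := charZero_of_injective_algebraMap (algebraMap K K').injective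
  have hx : Transcendental K (algebraMap K[X] K' X) := by
    have h0 : Transcendental K (X : K[X]) := Polynomial.transcendental_X K
    intro hal
    exact h0 ((isAlgebraic_algebraMap_iff (IsFractionRing.injective K[X] K')).1 hal)
  have hcompat₁ : ∀ z : K', i₁ (algebraMap K' M z) = algebraMap D' E₁ (algebraMap K' D' z) := by
    have : i₁.comp φ = ψ₁.comp j := by
      apply IsLocalization.ringHom_ext (nonZeroDivisors K[X])
      apply Polynomial.ringHom_ext
      · intro z
        simp only [RingHom.comp_apply]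
        rw [hφ, hj, hψ₁, Polynomial.map_C, Polynomial.aeval_C, Polynomial.aeval_C, h₁.1]
      · simp only [RingHom.comp_apply]
        rw [hφ, hj, hψ₁, Polynomial.map_X, Polynomial.aeval_X, Polynomial.aeval_X]
    intro z
    exact congrArg (fun f => f z) this
  have hcompat₂ : ∀ z : K', i₂ (algebraMap K' M z) = algebraMap D' E₂ (algebraMap K' D' z) := by
    have : i₂.comp φ = ψ₂.comp j := by
      apply IsLocalization.ringHom_ext (nonZeroDivisors K[X])
      apply Polynomial.ringHom_ext
      · intro z
        simp only [RingHom.comp_apply]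
        rw [hφ, hj, hψ₂, Polynomial.map_C, Polynomial.aeval_C, Polynomial.aeval_C, h₂.1]
      · simp only [RingHom.comp_apply]
        rw [hφ, hj, hψ₂, Polynomial.map_X, Polynomial.aeval_X, Polynomial.aeval_X]
    intro z
    exact congrArg (fun f => f z) this
  have hX₁ : i₁ (algebraMap K' M (algebraMap K[X] K' X)) =
      algebraMap D' E₁ (algebraMap D[X] D' X) := by
    change i₁ (φ _) = ψ₁ _
    rw [hφ, hψ₁, Polynomial.aeval_X, Polynomial.aeval_X]
  have hX₂ : i₂ (algebraMap K' M (algebraMap K[X] K' X)) =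
      algebraMap D' E₂ (algebraMap D[X] D' X) := by
    change i₂ (φ _) = ψ₂ _
    rw [hφ, hψ₂, Polynomial.aeval_X, Polynomial.aeval_X]
  have hS₁ : Share K' M D' E₁ i₁ a₁ :=
    Share.step (algebraMap K[X] K' X) hx hX₁ hcompat₁ h₁
  have hS₂ : Share K' M D' E₂ i₂ a₂ :=
    Share.step (algebraMap K[X] K' X) hx hX₂ hcompat₂ h₂
  have hlt : {s | Transcendental K' (c s)}.ncard < m := by
    rw [← hm]
    apply Set.ncard_lt_ncard _ (Set.toFinite _)
    refine ⟨fun s hs hal => hs (hal.tower_top K'), fun hsub => ?_⟩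
    have : Transcendental K' (c s₀) := hsub ht
    apply this
    have h5 : c s₀ = algebraMap K' M (algebraMap K[X] K' X) := by
      change _ = φ _
      rw [hφ, Polynomial.aeval_X]
    rw [h5]
    exact isAlgebraic_algebraMap _
  refine ih _ hlt K' M D' E₁ E₂ i₁ i₂ a₁ a₂ ha₁ ha₂ hsum hS₁ hS₂ r c
    (fun s => algebraMap D D' (g s)) rfl ?_ ?_
  · simpa only [← IsScalarTower.algebraMap_apply D D' E₁] using hz
  · simpa only [← IsScalarTower.algebraMap_apply D D' E₂] using hn

theorem share_rational {K M D E₁ E₂ : Type} [Field K] [CharZero K] [Field M] [Field D] [Field E₁]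
    [Field E₂] [Algebra K M] [Algebra K D] [Algebra D E₁] [Algebra D E₂]
    (i₁ : M →+* E₁) (i₂ : M →+* E₂) (a₁ a₂ : ℝ) (ha₁ : 0 < a₁) (ha₂ : 0 < a₂) (hsum : 1 ≤ a₁ + a₂)
    (h₁ : Share K M D E₁ i₁ a₁) (h₂ : Share K M D E₂ i₂ a₂)
    (r : ℕ) (c : Fin r → M) (g : Fin r → D)
    (hz : ∑ s, algebraMap D E₁ (g s) * i₁ (c s) = 0)
    (hn : ∑ s, algebraMap D E₂ (g s) * i₂ (c s) ≠ 0) :
    ∃ q : ℚ, (q : ℝ) = a₁ :=
  share_rational_aux _ K M D E₁ E₂ i₁ i₂ a₁ a₂ ha₁ ha₂ hsum h₁ h₂ r c g rfl hz hn

end Pool.Agent.H51.Coll
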