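import Pool.Agent.H51.Coll.KL
import Pool.Agent.H51.Coll.Share

/-!
The abstract main theorem: combination of the key lemma and the share lemma.
-/

set_option autoImplicit false

namespace Pool.Agent.H51.Coll

open Finset Filter Topology

lemma sum_lt_of_na {M ι : Type} [Field M] {f : AbsoluteValue M ℝ} (hf : IsNonarchimedean f)
    (s : Finset ι) (g : ι → M) (c : ℝ) (hc : 0 < c) (h : ∀ i ∈ s, f (g i) < c) :
    f (∑ i ∈ s, g i) < c := by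
  rcases s.eq_empty_or_nonempty with rfl | hs
  · simpa using hc
  · refine (IsNonarchimedean.apply_sum_le_sup hf hs).trans_lt ?_
    exact (Finset.sup'_lt_iff _).mpr h

namespace Data

variable {M : Type} [Field M] (𝒟 : Data M)

/-- The field of fractions of the monomial ring. -/
def K₀ : Subfield M := Subfield.closure ((𝒟.k : Set M) ∪ (𝒟.Γ : Set M))

lemma L_le_K₀ {z : M} (h : z ∈ 𝒟.L) : z ∈ 𝒟.K₀ := by
  have : 𝒟.L ≤ 𝒟.K₀.toSubring := by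
    rw [L, Subring.closure_le]
    exact Subfield.subset_closure
  exact this h

lemma mem_K₀_iff {z : M} : z ∈ 𝒟.K₀ ↔ ∃ p ∈ 𝒟.L, ∃ q ∈ 𝒟.L, p / q = z :=
  Subfield.mem_closure_iff

lemma A_eq_B_of_mem_K₀ {z : M} (h : z ∈ 𝒟.K₀) : 𝒟.A z = 𝒟.B z := by
  obtain ⟨p, hp, q, hq, rfl⟩ := 𝒟.mem_K₀_iff.mp h
  rw [map_div₀, map_div₀, 𝒟.A_eq_B_of_mem_L hp, 𝒟.A_eq_B_of_mem_L hq]

/-- `L` is dense in its field of fractions. -/
lemma dense_L {z : M} (h : z ∈ 𝒟.K₀) (ε : ℝ) (hε : 0 < ε) : ∃ y ∈ 𝒟.L, 𝒟.A (z - y) ≤ ε := by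
  classical
  obtain ⟨p, hp, q, hq, rfl⟩ := 𝒟.mem_K₀_iff.mp h
  by_cases hq0 : q = 0
  · refine ⟨0, 𝒟.L.zero_mem, ?_⟩
    rw [hq0]
    simpa using hε.le
  obtain ⟨a, ha1, ha2⟩ := 𝒟.exists_rep hq
  have hne : a.support.Nonempty := by
    rw [Finset.nonempty_iff_ne_empty]
    intro h0
    rw [h0] at ha2
    exact hq0 (by simpa using ha2)
  set m := a.support.min' hne with hm
  have hmS : m ∈ a.support := Finset.min'_mem _ _
  have hval : ∀ u ∈ a.support, 𝒟.A ((a u : M) * 𝒟.sec u) = Real.exp (-u) := by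
    intro u hu
    rw [map_mul, 𝒟.A_k _ (a u).2 (by simpa using hu), one_mul, 𝒟.A_sec (ha1 u hu)]
  set g : M := (a m : M) * 𝒟.sec m with hg
  have hgA : 𝒟.A g = Real.exp (-m) := hval m hmS
  have hg0 : g ≠ 0 := by
    intro h0
    rw [h0, map_zero] at hgA
    exact (Real.exp_pos (-m)).ne hgA
  have hgL : g⁻¹ ∈ 𝒟.L := by
    rw [hg, mul_inv]
    exact 𝒟.L.mul_mem (𝒟.k_le_L (𝒟.k.inv_mem (a m).2)) (𝒟.Γ_le_L (𝒟.Γ_inv _ (𝒟.sec_mem (ha1 m hmS))))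
  set η : M := 1 - g⁻¹ * q with hη
  have hηL : η ∈ 𝒟.L := 𝒟.L.sub_mem 𝒟.L.one_mem (𝒟.L.mul_mem hgL hq)
  have hηA : 𝒟.A η < 1 := by
    have h1 : q = g + ∑ t ∈ a.support.erase m, (a t : M) * 𝒟.sec t := by
      rw [ha2, hg, Finset.add_sum_erase _ (fun t => (a t : M) * 𝒟.sec t) hmS]
    have h2 : η = -(g⁻¹ * ∑ t ∈ a.support.erase m, (a t : M) * 𝒟.sec t) := by
      rw [hη, h1, mul_add, inv_mul_cancel₀ hg0]
      ring
    rw [h2, map_neg_eq_map, map_mul, map_inv₀, hgA, inv_mul_lt_iff₀ (Real.exp_pos _), mul_one]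
    refine sum_lt_of_na 𝒟.naA _ _ _ (Real.exp_pos _) (fun t ht => ?_)
    obtain ⟨htm, htS⟩ := Finset.mem_erase.mp ht
    rw [hval t htS]
    refine Real.exp_lt_exp.mpr (neg_lt_neg ?_)
    exact lt_of_le_of_ne (Finset.min'_le _ _ htS) (Ne.symm htm)
  have h1η : 1 - η = g⁻¹ * q := by rw [hη]; ring
  have h1ηA : 𝒟.A (1 - η) = 1 := by
    have h1 : 𝒟.A (-η) < 𝒟.A 1 := by rw [map_neg_eq_map, map_one]; exact hηA
    rw [sub_eq_add_neg, IsNonarchimedean.add_eq_left_of_lt 𝒟.naA h1, map_one]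
  have h1η0 : 1 - η ≠ 0 := by
    intro h0
    rw [h0, map_zero] at h1ηA
    exact zero_ne_one h1ηA
  -- choose the length of the geometric sum
  have hlim : Tendsto (fun J : ℕ => 𝒟.A (p * g⁻¹) * 𝒟.A η ^ J) atTop (𝓝 0) := by
    have := (tendsto_pow_atTop_nhds_zero_of_lt_one (𝒟.A.nonneg η) hηA).const_mul (𝒟.A (p * g⁻¹))
    simpa using this
  obtain ⟨J, hJ⟩ := (hlim.eventually (gt_mem_nhds hε)).exists
  refine ⟨p * g⁻¹ * ∑ j ∈ range J, η ^ j, ?_, ?_⟩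
  · exact 𝒟.L.mul_mem (𝒟.L.mul_mem hp hgL) (Subring.sum_mem _ (fun j _ => 𝒟.L.pow_mem hηL j))
  · have h3 : p / q = p * g⁻¹ * (1 - η)⁻¹ := by
      rw [h1η]
      field_simp
    have h4 : p / q - p * g⁻¹ * ∑ j ∈ range J, η ^ j = p * g⁻¹ * (η ^ J * (1 - η)⁻¹) := by
      have h5 : (∑ j ∈ range J, η ^ j) * (1 - η) = 1 - η ^ J := geom_sum_mul_neg η J
      have h6 : ∑ j ∈ range J, η ^ j = (1 - η ^ J) * (1 - η)⁻¹ := by
        rw [← h5, mul_assoc, mul_inv_cancel₀ h1η0, mul_one]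
      rw [h3, h6]
      ring
    rw [h4, map_mul 𝒟.A (p * g⁻¹), map_mul 𝒟.A (η ^ J), map_inv₀, h1ηA, inv_one, mul_one, map_pow]
    exact hJ.le

/-- The share property of the completion. -/
theorem share (D E : Type) [NormedField D] [NormedField E] [Algebra 𝒟.K₀ D] [Algebra D E]
    (i : M →+* E) (hi : ∀ z, ‖i z‖ = 𝒟.A z) (hDE : ∀ x : D, ‖algebraMap D E x‖ = ‖x‖)
    (hcomp : ∀ x : 𝒟.K₀, i x = algebraMap D E (algebraMap 𝒟.K₀ D x))
    (hdense : ∀ x : D, ∀ ε > 0, ∃ z : 𝒟.K₀, ‖x - algebraMap 𝒟.K₀ D z‖ ≤ ε) :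
    Share 𝒟.K₀ M D E i (𝒟.α / (𝒟.α + 𝒟.β)) := by
  classical
  refine ⟨hcomp, fun n b hb => ?_⟩
  have hα := 𝒟.α_pos
  have hβ := 𝒟.β_pos
  have hdenseL : ∀ x : D, ∀ ε > 0, ∃ z : M, ∃ hz : z ∈ 𝒟.L,
      ‖x - algebraMap 𝒟.K₀ D ⟨z, 𝒟.L_le_K₀ hz⟩‖ ≤ ε := by
    intro x ε hε
    obtain ⟨z, hz⟩ := hdense x (ε / 2) (by positivity)
    obtain ⟨y, hy, hyA⟩ := 𝒟.dense_L z.2 (ε / 2) (by positivity)
    refine ⟨y, hy, ?_⟩
    have h1 : ‖algebraMap 𝒟.K₀ D z - algebraMap 𝒟.K₀ D ⟨y, 𝒟.L_le_K₀ hy⟩‖ ≤ ε / 2 := by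
      rw [← map_sub, ← hDE, ← hcomp, hi]
      exact hyA
    calc ‖x - algebraMap 𝒟.K₀ D ⟨y, 𝒟.L_le_K₀ hy⟩‖
        ≤ ‖x - algebraMap 𝒟.K₀ D z‖ + ‖algebraMap 𝒟.K₀ D z - algebraMap 𝒟.K₀ D ⟨y, 𝒟.L_le_K₀ hy⟩‖ :=
          norm_sub_le_norm_sub_add_norm_sub _ _ _
      _ ≤ ε := by linarith
  haveI : Module.Finite D (Submodule.span D (Set.range (fun s => i (b s)))) :=
    Module.Finite.span_of_finite D (Set.finite_range _)
  obtain ⟨f, hf1, hf2, hf3⟩ := Submodule.exists_fun_fin_finrank_span_eq D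
    (Set.range (fun s => i (b s)))
  choose js hjs using hf1
  have hcoef : ∀ t : Fin n, ∃ l : Fin _ → D, ∑ s, l s • f s = i (b t) := by
    intro t
    have : i (b t) ∈ Submodule.span D (Set.range f) := by
      rw [hf2]
      exact Submodule.subset_span ⟨t, rfl⟩
    exact (Submodule.mem_span_range_iff_exists_fun D).mp this
  choose l hl using hcoef
  have hkey := 𝒟.key b (fun s => b (js s)) ?_ ?_
  · rw [div_mul_eq_mul_div, div_le_iff₀ (by linarith)]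
    linarith
  · intro p hp hsum
    have h1 := Fintype.linearIndependent_iff.mp hb (fun t => ⟨p t, 𝒟.L_le_K₀ (hp t)⟩) (by
      rw [← hsum]
      refine Finset.sum_congr rfl (fun t _ => ?_)
      rw [Subfield.smul_def, smul_eq_mul])
    intro t
    have := congrArg (fun z : 𝒟.K₀ => (z : M)) (h1 t)
    simpa using this
  · refine ⟨1 + ∑ t, ∑ s, ‖l t s‖, fun ε hε => ?_⟩
    set S : ℝ := ∑ s, ‖f s‖ with hS
    have hS0 : 0 ≤ S := Finset.sum_nonneg (fun _ _ => norm_nonneg _)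
    set δ : ℝ := min 1 (ε / (1 + S)) with hδ
    have hδ0 : 0 < δ := lt_min one_pos (by positivity)
    choose z hzL hz using fun t s => hdenseL (l t s) δ hδ0
    refine ⟨z, hzL, fun t s => ?_, fun t => ?_⟩
    · have h1 : 𝒟.A (z t s) = ‖algebraMap 𝒟.K₀ D ⟨z t s, 𝒟.L_le_K₀ (hzL t s)⟩‖ := by
        rw [← hDE, ← hcomp, hi]
      have h2 : ‖algebraMap 𝒟.K₀ D ⟨z t s, 𝒟.L_le_K₀ (hzL t s)⟩‖ ≤ ‖l t s‖ + δ := by
        have := norm_le_norm_add_norm_sub' (algebraMap 𝒟.K₀ D ⟨z t s, 𝒟.L_le_K₀ (hzL t s)⟩) (l t s)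
        have h3 := hz t s
        rw [norm_sub_rev] at h3
        linarith
      have h3 : δ ≤ 1 := min_le_left _ _
      have h4 : ‖l t s‖ ≤ ∑ t, ∑ s, ‖l t s‖ := by
        have h5 := Finset.single_le_sum (f := fun s => ‖l t s‖) (fun _ _ => norm_nonneg _) (mem_univ s)
        have h6 := Finset.single_le_sum (f := fun t => ∑ s, ‖l t s‖)
          (fun _ _ => Finset.sum_nonneg (fun _ _ => norm_nonneg _)) (mem_univ t)
        exact h5.trans h6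
      rw [h1]
      linarith
    · have h1 : i (b t - ∑ s, z t s * b (js s)) =
          ∑ s, algebraMap D E (l t s - algebraMap 𝒟.K₀ D ⟨z t s, 𝒟.L_le_K₀ (hzL t s)⟩) * f s := by
        rw [map_sub, map_sum, ← hl t, ← Finset.sum_sub_distrib]
        refine Finset.sum_congr rfl (fun s _ => ?_)
        rw [map_mul, map_sub, ← hcomp, Algebra.smul_def, sub_mul]
        have : i (b (js s)) = f s := hjs s
        rw [this]
      rw [← hi, h1]
      calc ‖∑ s, algebraMap D E (l t s - algebraMap 𝒟.K₀ D ⟨z t s, 𝒟.L_le_K₀ (hzL t s)⟩) * f s‖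
          ≤ ∑ s, ‖algebraMap D E (l t s - algebraMap 𝒟.K₀ D ⟨z t s, 𝒟.L_le_K₀ (hzL t s)⟩) * f s‖ :=
            norm_sum_le _ _
        _ ≤ ∑ s, δ * ‖f s‖ := by
            refine Finset.sum_le_sum (fun s _ => ?_)
            rw [norm_mul, hDE]
            exact mul_le_mul_of_nonneg_right (hz t s) (norm_nonneg _)
        _ = δ * S := by rw [← Finset.mul_sum]
        _ ≤ ε / (1 + S) * S := mul_le_mul_of_nonneg_right (min_le_right _ _) hS0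
        _ ≤ ε := by
            rw [div_mul_eq_mul_div, div_le_iff₀ (by linarith)]
            nlinarith

/-- The restriction of `A` to `K₀`. -/
noncomputable def A₀ : AbsoluteValue 𝒟.K₀ ℝ := 𝒟.A.comp (f := 𝒟.K₀.subtype) Subtype.val_injective

lemma A₀_apply (x : 𝒟.K₀) : 𝒟.A₀ x = 𝒟.A x := rfl

/-- **Abstract main theorem**, in terms of given completions. -/
theorem main_aux [CharZero M] (D E₁ E₂ : Type) [NormedField D] [CompleteSpace D] [NormedField E₁] [NormedField E₂]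
    [inst : Algebra 𝒟.K₀ D] [Algebra D E₁] [Algebra D E₂]
    (i₁ : M →+* E₁) (i₂ : M →+* E₂)
    (hi₁ : ∀ z, ‖i₁ z‖ = 𝒟.A z) (hi₂ : ∀ z, ‖i₂ z‖ = 𝒟.B z)
    (hDE₁ : ∀ x : D, ‖algebraMap D E₁ x‖ = ‖x‖) (hDE₂ : ∀ x : D, ‖algebraMap D E₂ x‖ = ‖x‖)
    (hcomp₁ : ∀ x : 𝒟.K₀, i₁ x = algebraMap D E₁ (algebraMap 𝒟.K₀ D x))
    (hcomp₂ : ∀ x : 𝒟.K₀, i₂ x = algebraMap D E₂ (algebraMap 𝒟.K₀ D x))
    (hdense : ∀ x : D, ∀ ε > 0, ∃ z : 𝒟.K₀, ‖x - algebraMap 𝒟.K₀ D z‖ ≤ ε)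
    (r : ℕ) (c : Fin r → M) (g : ℕ → Fin r → M) (hg : ∀ R a, g R a ∈ 𝒟.K₀)
    (hcauchy : ∀ a, ∀ ε > 0, ∃ R₀ : ℕ, ∀ R ≥ R₀, ∀ R' ≥ R₀, 𝒟.A (g R a - g R' a) < ε)
    (hA : Tendsto (fun R => 𝒟.A (∑ a, g R a * c a)) atTop (𝓝 0))
    (hB : ¬ Tendsto (fun R => 𝒟.B (∑ a, g R a * c a)) atTop (𝓝 0)) :
    ∃ q : ℚ, (q : ℝ) = 𝒟.α / (𝒟.α + 𝒟.β) := by
  have hα := 𝒟.α_pos
  have hβ := 𝒟.β_pos
  have hs₁ := 𝒟.share D E₁ i₁ hi₁ hDE₁ hcomp₁ hdense
  have hs₂ : Share 𝒟.K₀ M D E₂ i₂ (𝒟.β / (𝒟.β + 𝒟.α)) :=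
    @share M _ 𝒟.swap D E₂ _ _ inst _ i₂ hi₂ hDE₂ hcomp₂ hdense
  -- limits
  have hlim : ∀ a, ∃ G : D, Tendsto (fun R => algebraMap 𝒟.K₀ D ⟨g R a, hg R a⟩) atTop (𝓝 G) := by
    intro a
    refine cauchySeq_tendsto_of_complete ?_
    rw [Metric.cauchySeq_iff]
    intro ε hε
    obtain ⟨R₀, hR₀⟩ := hcauchy a ε hε
    refine ⟨R₀, fun R hR R' hR' => ?_⟩
    rw [dist_eq_norm, ← map_sub, ← hDE₁, ← hcomp₁, hi₁]
    exact hR₀ R hR R' hR'
  choose G hG using hlim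
  have hc₁ : Continuous (algebraMap D E₁) :=
    (AddMonoidHomClass.isometry_of_norm (algebraMap D E₁) hDE₁).continuous
  have hc₂ : Continuous (algebraMap D E₂) :=
    (AddMonoidHomClass.isometry_of_norm (algebraMap D E₂) hDE₂).continuous
  have hl₁ : Tendsto (fun R => i₁ (∑ a, g R a * c a)) atTop
      (𝓝 (∑ a, algebraMap D E₁ (G a) * i₁ (c a))) := by
    simp only [map_sum, map_mul]
    refine tendsto_finsetSum _ (fun a _ => Tendsto.mul_const _ ?_)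
    have h1 := (hc₁.tendsto (G a)).comp (hG a)
    refine h1.congr (fun R => ?_)
    simp only [Function.comp]
    rw [← hcomp₁]
  have hl₂ : Tendsto (fun R => i₂ (∑ a, g R a * c a)) atTop
      (𝓝 (∑ a, algebraMap D E₂ (G a) * i₂ (c a))) := by
    simp only [map_sum, map_mul]
    refine tendsto_finsetSum _ (fun a _ => Tendsto.mul_const _ ?_)
    have h1 := (hc₂.tendsto (G a)).comp (hG a)
    refine h1.congr (fun R => ?_)
    simp only [Function.comp]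
    rw [← hcomp₂]
  refine share_rational i₁ i₂ (𝒟.α / (𝒟.α + 𝒟.β)) (𝒟.β / (𝒟.β + 𝒟.α)) (by positivity) (by positivity)
    (by rw [add_comm 𝒟.β, ← add_div, div_self (by positivity)]) hs₁ hs₂ r c G ?_ ?_
  · have h1 := hl₁.norm
    have h2 : Tendsto (fun R => ‖i₁ (∑ a, g R a * c a)‖) atTop (𝓝 0) := by
      simpa only [hi₁] using hA
    exact norm_eq_zero.mp (tendsto_nhds_unique h1 h2)
  · intro h0
    apply hB
    have h1 := hl₂.norm
    rw [h0, norm_zero] at h1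
    simpa only [hi₂] using h1

/-- **Abstract main theorem.** -/
theorem main [CharZero M] (r : ℕ) (c : Fin r → M) (g : ℕ → Fin r → M) (hg : ∀ R a, g R a ∈ 𝒟.K₀)
    (hcauchy : ∀ a, ∀ ε > 0, ∃ R₀ : ℕ, ∀ R ≥ R₀, ∀ R' ≥ R₀, 𝒟.A (g R a - g R' a) < ε)
    (hA : Tendsto (fun R => 𝒟.A (∑ a, g R a * c a)) atTop (𝓝 0))
    (hB : ¬ Tendsto (fun R => 𝒟.B (∑ a, g R a * c a)) atTop (𝓝 0)) :
    ∃ q : ℚ, (q : ℝ) = 𝒟.α / (𝒟.α + 𝒟.β) := by
  -- the maps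
  have hfA : Isometry (WithAbs.map 𝒟.A₀ 𝒟.A 𝒟.K₀.subtype) :=
    AddMonoidHomClass.isometry_of_norm _ (fun x => rfl)
  have hfB : Isometry (WithAbs.map 𝒟.A₀ 𝒟.B 𝒟.K₀.subtype) :=
    AddMonoidHomClass.isometry_of_norm _ (fun x => by
      rw [WithAbs.norm_eq_apply_ofAbs, WithAbs.norm_eq_apply_ofAbs]
      exact (𝒟.A_eq_B_of_mem_K₀ x.ofAbs.2).symm)
  letI : Algebra 𝒟.K₀ 𝒟.A₀.Completion :=
    ((UniformSpace.Completion.coeRingHom (α := WithAbs 𝒟.A₀)).comp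
      (WithAbs.equiv 𝒟.A₀).symm.toRingHom).toAlgebra
  letI : Algebra 𝒟.A₀.Completion 𝒟.A.Completion :=
    (UniformSpace.Completion.mapRingHom _ hfA.continuous).toAlgebra
  letI : Algebra 𝒟.A₀.Completion 𝒟.B.Completion :=
    (UniformSpace.Completion.mapRingHom _ hfB.continuous).toAlgebra
  refine 𝒟.main_aux 𝒟.A₀.Completion 𝒟.A.Completion 𝒟.B.Completion
    ((UniformSpace.Completion.coeRingHom (α := WithAbs 𝒟.A)).comp
      (WithAbs.equiv 𝒟.A).symm.toRingHom)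
    ((UniformSpace.Completion.coeRingHom (α := WithAbs 𝒟.B)).comp
      (WithAbs.equiv 𝒟.B).symm.toRingHom)
    ?_ ?_ ?_ ?_ ?_ ?_ ?_ r c g hg hcauchy hA hB
  · intro z
    exact UniformSpace.Completion.norm_coe _
  · intro z
    exact UniformSpace.Completion.norm_coe _
  · intro x
    have : Isometry (algebraMap 𝒟.A₀.Completion 𝒟.A.Completion) := hfA.completion_map
    have h1 := this.norm_map_of_map_zero (map_zero _) x
    exact h1
  · intro x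
    have : Isometry (algebraMap 𝒟.A₀.Completion 𝒟.B.Completion) := hfB.completion_map
    have h1 := this.norm_map_of_map_zero (map_zero _) x
    exact h1
  · intro x
    exact (UniformSpace.Completion.mapRingHom_coe hfA.continuous _).symm
  · intro x
    exact (UniformSpace.Completion.mapRingHom_coe hfB.continuous _).symm
  · intro x ε hε
    obtain ⟨y, hy⟩ := UniformSpace.Completion.denseRange_coe.exists_dist_lt x hε
    refine ⟨y.ofAbs, ?_⟩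
    rw [dist_eq_norm] at hy
    exact hy.le

end Data

end Pool.Agent.H51.Coll
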