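import Pool.Agent.H51.Coll.CompDefs

/-!
Automatic sequences: at most linear complexity, and rationality of the frequency when it exists.
-/

set_option autoImplicit false

namespace Pool.Agent.H51.Coll

open Filter Topology Polynomial

/-- `v` is `b`-automatic: its `b`-kernel is finite. -/
def Automatic (b : ℕ) (v : ℕ → Bool) : Prop :=
  {w : ℕ → Bool | ∃ k r : ℕ, r < b ^ k ∧ w = fun n => v (b ^ k * n + r)}.Finite

theorem automatic_complexity {b : ℕ} (hb : 2 ≤ b) {v : ℕ → Bool} (h : Automatic b v) :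
    ∃ K : ℕ, ∀ n : ℕ, 1 ≤ n → complexity v n ≤ K * n := by
  classical
  set S : Set (ℕ → Bool) := {w : ℕ → Bool | ∃ k r : ℕ, r < b ^ k ∧ w = fun n => v (b ^ k * n + r)} with hS
  have hfin : S.Finite := h
  haveI : Fintype S := hfin.fintype
  refine ⟨b * (Fintype.card ((S → Bool) × (S → Bool))), fun n hn => ?_⟩
  -- the scale
  obtain ⟨k, hk1, hk2⟩ : ∃ k, n ≤ b ^ k ∧ b ^ k ≤ b * n := by
    refine ⟨Nat.clog b n, Nat.le_pow_clog (by omega) n, ?_⟩
    by_cases hn1 : n = 1
    · rw [hn1, Nat.clog_one_right, pow_zero]; omega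
    · have h1 := Nat.pow_pred_clog_lt_self (b := b) (by omega) (x := n) (by omega)
      have h2 : 0 < Nat.clog b n := Nat.clog_pos (by omega) (by omega)
      have h3 : b ^ Nat.clog b n = b * b ^ (Nat.clog b n).pred := by
        obtain ⟨c, hc⟩ := Nat.exists_eq_succ_of_ne_zero h2.ne'
        rw [hc, Nat.pred_succ, pow_succ, mul_comm]
      rw [h3]
      exact Nat.mul_le_mul_left _ h1.le
  have hbk : 0 < b ^ k := by positivity
  have hmem : ∀ r, r < b ^ k → (fun n => v (b ^ k * n + r)) ∈ S := fun r hr => ⟨k, r, hr, rfl⟩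
  let G : Fin (b ^ k) × ((S → Bool) × (S → Bool)) → (Fin n → Bool) := fun x l =>
    if hl : (x.1 : ℕ) + l < b ^ k then x.2.1 ⟨_, hmem _ hl⟩
    else x.2.2 ⟨_, hmem ((x.1 : ℕ) + l - b ^ k) (by have := x.1.2; have := l.2; omega)⟩
  have hsub : Set.range (fac v n) ⊆ Set.range G := by
    rintro _ ⟨i, rfl⟩
    refine ⟨(⟨i % b ^ k, Nat.mod_lt _ hbk⟩, fun w => w.1 (i / b ^ k), fun w => w.1 (i / b ^ k + 1)), ?_⟩
    funext l
    have hi := Nat.div_add_mod i (b ^ k)
    simp only [G, fac]
    split_ifs with hl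
    · congr 1
      omega
    · congr 1
      rw [mul_add, mul_one]
      omega
  unfold complexity
  calc (Set.range (fac v n)).ncard ≤ (Set.range G).ncard := Set.ncard_le_ncard hsub (Set.toFinite _)
    _ ≤ Fintype.card (Fin (b ^ k) × ((S → Bool) × (S → Bool))) := by
        rw [← Set.image_univ]
        refine (Set.ncard_image_le Set.finite_univ).trans ?_
        rw [Set.ncard_univ, Nat.card_eq_fintype_card]
    _ = b ^ k * Fintype.card ((S → Bool) × (S → Bool)) := by
        rw [Fintype.card_prod, Fintype.card_fin]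
    _ ≤ b * n * Fintype.card ((S → Bool) × (S → Bool)) := Nat.mul_le_mul_right _ hk2
    _ = b * Fintype.card ((S → Bool) × (S → Bool)) * n := by ring

/-- The shift on rational sequences. -/
def sh : Module.End ℚ (ℕ → ℚ) := LinearMap.funLeft ℚ ℚ (fun n => n + 1)

lemma sh_apply (a : ℕ → ℚ) (n : ℕ) : sh a n = a (n + 1) := rfl

lemma sh_pow_apply (i : ℕ) : ∀ (a : ℕ → ℚ) (n : ℕ), (sh ^ i) a n = a (n + i) := by
  induction i with
  | zero => intro a n; simp
  | succ i ih =>
    intro a n
    rw [pow_succ, Module.End.mul_apply, ih, sh_apply]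
    congr 1

lemma aeval_sh_apply (p : ℚ[X]) (a : ℕ → ℚ) (n : ℕ) :
    (aeval sh p) a n = ∑ i ∈ Finset.range (p.natDegree + 1), p.coeff i * a (n + i) := by
  rw [aeval_eq_sum_range]
  simp only [LinearMap.sum_apply, LinearMap.smul_apply, Finset.sum_apply, Pi.smul_apply, smul_eq_mul]
  exact Finset.sum_congr rfl (fun i _ => by rw [sh_pow_apply])

/-- A convergent sequence killed by a power of the difference operator is constant. -/
lemma const_of_diff_pow (k : ℕ) : ∀ (c : ℕ → ℚ) (L : ℝ), Tendsto (fun n => (c n : ℝ)) atTop (𝓝 L) →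
    ((sh - 1) ^ k) c = 0 → ∀ n, c n = c 0 := by
  induction k with
  | zero =>
    intro c L _ h n
    simp only [pow_zero, Module.End.one_apply] at h
    rw [h]; rfl
  | succ k ih =>
    intro c L hc h
    set d := (sh - 1) c with hd
    have hd' : ∀ n, d n = c (n + 1) - c n := fun n => rfl
    have h1 : ((sh - 1) ^ k) d = 0 := by
      rw [hd, ← Module.End.mul_apply, ← pow_succ]
      exact h
    have h2 : Tendsto (fun n => (d n : ℝ)) atTop (𝓝 0) := by
      have h3 := ((tendsto_add_atTop_iff_nat 1).mpr hc).sub hc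
      rw [sub_self] at h3
      refine h3.congr (fun n => ?_)
      rw [hd']
      push_cast
      ring
    have h3 := ih d 0 h2 h1
    have h4 : (d 0 : ℝ) = 0 := by
      have h5 : Tendsto (fun n => (d n : ℝ)) atTop (𝓝 (d 0 : ℝ)) := by
        refine tendsto_const_nhds.congr (fun n => ?_)
        rw [h3 n]
      exact tendsto_nhds_unique h5 h2
    have h5 : d 0 = 0 := by exact_mod_cast h4
    intro n
    induction n with
    | zero => rfl
    | succ n ihn =>
      have h6 : d n = 0 := by rw [h3 n, h5]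
      rw [hd'] at h6
      linarith

/-- A convergent rational linear recurrence sequence has a rational limit. -/
lemma rational_limit (a : ℕ → ℚ) (p : ℚ[X]) (hp : p ≠ 0) (h : (aeval sh p) a = 0) (θ : ℝ)
    (hθ : Tendsto (fun n => (a n : ℝ)) atTop (𝓝 θ)) : ∃ q : ℚ, (q : ℝ) = θ := by
  obtain ⟨ν, hν, hν1⟩ := exists_eq_pow_rootMultiplicity_mul_and_not_dvd p hp 1
  have hν0 : ν.eval 1 ≠ 0 := by
    intro h0
    exact hν1 (dvd_iff_isRoot.mpr h0)
  set k := rootMultiplicity 1 p with hk
  set c := (aeval sh ν) a with hc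
  have h1 : ((sh - 1) ^ k) c = 0 := by
    have h2 : aeval sh ((X - C 1 : ℚ[X]) ^ k * ν) = (sh - 1) ^ k * aeval sh ν := by
      rw [map_mul, map_pow, map_sub, aeval_X, C_1, map_one]
    have h3 := h
    rw [hν, h2, Module.End.mul_apply] at h3
    exact h3
  have h2 : Tendsto (fun n => (c n : ℝ)) atTop (𝓝 ((ν.eval 1 : ℚ) * θ)) := by
    have h3 : ∀ n, (c n : ℝ) = ∑ i ∈ Finset.range (ν.natDegree + 1), (ν.coeff i : ℝ) * (a (n + i) : ℝ) := by
      intro n
      rw [hc, aeval_sh_apply]
      push_cast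
      rfl
    have h4 : ((ν.eval 1 : ℚ) : ℝ) * θ = ∑ i ∈ Finset.range (ν.natDegree + 1), (ν.coeff i : ℝ) * θ := by
      rw [eval_eq_sum_range, ← Finset.sum_mul]
      push_cast
      simp
    rw [h4]
    simp only [h3]
    refine tendsto_finsetSum _ (fun i _ => Tendsto.const_mul _ ?_)
    exact (tendsto_add_atTop_iff_nat i).mpr hθ
  have h3 := const_of_diff_pow k c _ h2 h1
  have h4 : Tendsto (fun n => (c n : ℝ)) atTop (𝓝 (c 0 : ℝ)) := by
    refine tendsto_const_nhds.congr (fun n => ?_)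
    rw [h3 n]
  have h5 := tendsto_nhds_unique h4 h2
  refine ⟨c 0 / ν.eval 1, ?_⟩
  push_cast
  rw [h5]
  have : ((ν.eval 1 : ℚ) : ℝ) ≠ 0 := by exact_mod_cast hν0
  field_simp

lemma cnt_true (v : ℕ → Bool) (n : ℕ) : (cnt v 0 n : ℚ) = ∑ i ∈ Finset.range n, if v i = true then 1 else 0 := by
  unfold cnt
  rw [Finset.card_filter]
  push_cast
  simp

lemma sum_range_mul' (f : ℕ → ℚ) (b N : ℕ) :
    ∑ i ∈ Finset.range (b * N), f i = ∑ j ∈ Finset.range N, ∑ r : Fin b, f (b * j + r) := by
  induction N with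
  | zero => simp
  | succ N ih =>
    rw [Nat.mul_succ, Finset.sum_range_add, ih, Finset.sum_range_succ]
    congr 1
    rw [Finset.sum_range]

/-- If the frequency of an automatic sequence exists, it is rational. -/
theorem automatic_rational {b : ℕ} (hb : 2 ≤ b) {v : ℕ → Bool} (h : Automatic b v) (θ : ℝ)
    (hθ : Tendsto (fun k : ℕ => (cnt v 0 k : ℝ) / k) atTop (𝓝 θ)) : ∃ q : ℚ, (q : ℝ) = θ := by
  classical
  set S : Set (ℕ → Bool) := {w : ℕ → Bool | ∃ k r : ℕ, r < b ^ k ∧ w = fun n => v (b ^ k * n + r)} with hS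
  have hfin : S.Finite := h
  haveI : Fintype S := hfin.fintype
  have hv : v ∈ S := ⟨0, 0, by simp, by funext n; simp⟩
  have hstep : ∀ w ∈ S, ∀ r < b, (fun n => w (b * n + r)) ∈ S := by
    rintro w ⟨k, s, hs, rfl⟩ r hr
    refine ⟨k + 1, b ^ k * r + s, ?_, ?_⟩
    · calc b ^ k * r + s < b ^ k * r + b ^ k := by omega
        _ = b ^ k * (r + 1) := by ring
        _ ≤ b ^ k * b := Nat.mul_le_mul_left _ hr
        _ = b ^ (k + 1) := by rw [pow_succ]
    · funext n
      congr 1
      rw [pow_succ]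
      ring
  let nx : S → Fin b → S := fun w r => ⟨_, hstep w.1 w.2 r r.2⟩
  let Mt : Matrix S S ℚ := fun w w' => ∑ r : Fin b, if nx w r = w' then (1 / b : ℚ) else 0
  let a : ℕ → S → ℚ := fun m w => (∑ i ∈ Finset.range (b ^ m), if w.1 i = true then (1:ℚ) else 0) / b ^ m
  have hb0 : (b : ℚ) ≠ 0 := by
    have : 0 < b := by omega
    positivity
  have hrec : ∀ m, a (m + 1) = Mt.mulVec (a m) := by
    intro m
    funext w
    have h1 : ∑ i ∈ Finset.range (b ^ (m + 1)), (if w.1 i = true then (1:ℚ) else 0) =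
        ∑ r : Fin b, ∑ i ∈ Finset.range (b ^ m), if (nx w r).1 i = true then (1:ℚ) else 0 := by
      rw [Finset.sum_comm, pow_succ, mul_comm, sum_range_mul']
    have h2 : Mt.mulVec (a m) w = ∑ r : Fin b, (1 / b : ℚ) * a m (nx w r) := by
      simp only [Matrix.mulVec, dotProduct, Mt, Finset.sum_mul]
      rw [Finset.sum_comm]
      refine Finset.sum_congr rfl (fun r _ => ?_)
      simp only [ite_mul, zero_mul]
      rw [Finset.sum_ite_eq, if_pos (Finset.mem_univ _)]
    rw [h2]
    simp only [a]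
    rw [h1, Finset.sum_div]
    refine Finset.sum_congr rfl (fun r _ => ?_)
    rw [pow_succ]
    field_simp
  -- the sequence of averages of `v`
  set α : ℕ → ℚ := fun m => a m ⟨v, hv⟩ with hα
  have hpow : ∀ m, a m = (Mt ^ m).mulVec (a 0) := by
    intro m
    induction m with
    | zero => simp
    | succ m ih =>
      rw [hrec, ih, Matrix.mulVec_mulVec, ← pow_succ']
  have hkill : (aeval sh Mt.charpoly) α = 0 := by
    funext m
    rw [aeval_sh_apply]
    have h1 : ∀ i, α (m + i) = ((Mt ^ i).mulVec (a m)) ⟨v, hv⟩ := by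
      intro i
      simp only [hα]
      rw [hpow (m + i), hpow m, Matrix.mulVec_mulVec, ← pow_add, add_comm]
    simp only [h1]
    have h2 : (aeval Mt Mt.charpoly).mulVec (a m) = 0 := by
      rw [Matrix.aeval_self_charpoly, Matrix.zero_mulVec]
    have h3 := congrFun h2 ⟨v, hv⟩
    rw [aeval_eq_sum_range, Matrix.sum_mulVec] at h3
    simp only [Matrix.smul_mulVec, Finset.sum_apply, Pi.smul_apply, smul_eq_mul, Pi.zero_apply] at h3
    exact h3
  have hlim : Tendsto (fun m => (α m : ℝ)) atTop (𝓝 θ) := by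
    have h1 : Tendsto (fun m : ℕ => b ^ m) atTop atTop := tendsto_pow_atTop_atTop_of_one_lt (by omega)
    refine (hθ.comp h1).congr (fun m => ?_)
    simp only [Function.comp, hα, a]
    rw [← cnt_true]
    push_cast
    rfl
  exact rational_limit α Mt.charpoly (Matrix.charpoly_monic Mt).ne_zero hkill θ hlim

end Pool.Agent.H51.Coll
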