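import Pool.Agent.H51.Coll.CompDefs

/-!
Choice of good scales.
-/

set_option autoImplicit false

namespace Pool.Agent.H51.Coll

open Filter

lemma fac_succ_eq_snoc (v : ℕ → Bool) (m i : ℕ) :
    fac v (m + 1) i = Fin.snoc (α := fun _ => Bool) (fac v m i) (v (i + m)) := by
  funext l
  refine Fin.lastCases ?_ (fun l => ?_) l
  · rw [Fin.snoc_last]
    simp [fac]
  · rw [Fin.snoc_castSucc]
    simp [fac]

/-- The complexity grows at least by the number of right special factors. -/
theorem complexity_add_RS_le (v : ℕ → Bool) (m : ℕ) :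
    complexity v m + (RS v m).ncard ≤ complexity v (m + 1) := by
  classical
  let nxt : (Fin m → Bool) → Bool := fun w =>
    if h : ∃ i, fac v m i = w then v (h.choose + m) else false
  let f : (Fin m → Bool) → (Fin (m + 1) → Bool) := fun w =>
    Fin.snoc (α := fun _ => Bool) w (nxt w)
  let g : (Fin m → Bool) → (Fin (m + 1) → Bool) := fun w =>
    Fin.snoc (α := fun _ => Bool) w (!nxt w)
  have hf : Function.Injective f := by
    intro a b hab
    have := congrArg (Fin.init (α := fun _ => Bool)) hab
    simpa [f, Fin.init_snoc] using this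
  have hg : Function.Injective g := by
    intro a b hab
    have := congrArg (Fin.init (α := fun _ => Bool)) hab
    simpa [g, Fin.init_snoc] using this
  have h1 : f '' (Set.range (fac v m)) ⊆ Set.range (fac v (m + 1)) := by
    rintro _ ⟨w, hw, rfl⟩
    have hw' : ∃ i, fac v m i = w := hw
    refine ⟨hw'.choose, ?_⟩
    rw [fac_succ_eq_snoc]
    simp only [f, nxt, dif_pos hw']
    rw [hw'.choose_spec]
  have h2 : g '' (RS v m) ⊆ Set.range (fac v (m + 1)) := by
    rintro _ ⟨w, ⟨i, j, hi, hj, hne⟩, rfl⟩
    have hw' : ∃ i, fac v m i = w := ⟨i, hi⟩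
    by_cases hcase : v (i + m) = nxt w
    · refine ⟨j, ?_⟩
      rw [fac_succ_eq_snoc, hj]
      simp only [g]
      congr 1
      rw [hcase] at hne
      revert hne
      cases nxt w <;> cases v (j + m) <;> simp
    · refine ⟨i, ?_⟩
      rw [fac_succ_eq_snoc, hi]
      simp only [g]
      congr 1
      revert hcase
      cases nxt w <;> cases v (i + m) <;> simp
  have hdisj : Disjoint (f '' (Set.range (fac v m))) (g '' (RS v m)) := by
    rw [Set.disjoint_left]
    rintro _ ⟨w, hw, rfl⟩ ⟨w', hw', heq⟩
    have e1 := congrArg (Fin.init (α := fun _ => Bool)) heq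
    have e2 : w' = w := by simpa [f, g, Fin.init_snoc] using e1
    subst e2
    have e3 := congrFun heq (Fin.last m)
    simp [f, g, Fin.snoc_last] at e3
  have hfin : (Set.range (fac v (m + 1))).Finite := Set.toFinite _
  calc complexity v m + (RS v m).ncard
      = (f '' (Set.range (fac v m))).ncard + (g '' (RS v m)).ncard := by
        rw [Set.ncard_image_of_injective _ hf, Set.ncard_image_of_injective _ hg]
        rfl
    _ = (f '' (Set.range (fac v m)) ∪ g '' (RS v m)).ncard := by
        rw [Set.ncard_union_eq hdisj (Set.toFinite _) (Set.toFinite _)]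
    _ ≤ (Set.range (fac v (m + 1))).ncard :=
        Set.ncard_le_ncard (Set.union_subset h1 h2) hfin

theorem complexity_mono (v : ℕ → Bool) : Monotone (complexity v) := by
  apply monotone_nat_of_le_succ
  intro m
  have := complexity_add_RS_le v m
  omega

/-- At infinitely many lengths the complexity is at most linear and there are boundedly many right
special factors. -/
theorem exists_scale {v : ℕ → Bool} (K : ℕ) (hK : ∃ᶠ n in atTop, complexity v n ≤ K * n) :
    ∃ K' : ℕ, ∃ᶠ m in atTop, complexity v m ≤ K' * m ∧ (RS v m).ncard ≤ K' := by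
  refine ⟨3 * K, ?_⟩
  rw [frequently_atTop] at hK ⊢
  intro N
  obtain ⟨n, hn, hpn⟩ := hK (2 * N + 2)
  by_contra hcon
  push Not at hcon
  -- all scales in `[n / 2, n)` have many right special factors
  have hbig : ∀ m, n / 2 ≤ m → m < n → 3 * K < (RS v m).ncard := by
    intro m hm1 hm2
    have hNm : N ≤ m := by omega
    have hm0 : 1 ≤ m := by omega
    apply hcon m hNm
    have e1 : complexity v m ≤ complexity v n := complexity_mono v hm2.le
    have e2 : n ≤ 3 * m := by omega
    calc complexity v m ≤ K * n := e1.trans hpn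
      _ ≤ K * (3 * m) := Nat.mul_le_mul_left K e2
      _ = 3 * K * m := by ring
  have hind : ∀ t, n / 2 + t ≤ n → (3 * K + 1) * t ≤ complexity v (n / 2 + t) := by
    intro t
    induction t with
    | zero => intro _; simp
    | succ t ih =>
      intro ht
      have e1 := ih (by omega)
      have e2 := hbig (n / 2 + t) (by omega) (by omega)
      have e3 := complexity_add_RS_le v (n / 2 + t)
      have e4 : n / 2 + (t + 1) = n / 2 + t + 1 := by ring
      rw [e4]
      calc (3 * K + 1) * (t + 1) = (3 * K + 1) * t + (3 * K + 1) := by ring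
        _ ≤ complexity v (n / 2 + t) + (RS v (n / 2 + t)).ncard := by omega
        _ ≤ _ := e3
  have h3 := hind (n - n / 2) (by omega)
  have e5 : n / 2 + (n - n / 2) = n := by omega
  rw [e5] at h3
  have h4 : n ≤ 2 * (n - n / 2) := by omega
  have h5 : 1 ≤ n - n / 2 := by omega
  have h6 : K * n ≤ 2 * K * (n - n / 2) := by
    calc K * n ≤ K * (2 * (n - n / 2)) := Nat.mul_le_mul_left K h4
      _ = 2 * K * (n - n / 2) := by ring
  nlinarith

end Pool.Agent.H51.Coll
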