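import Pool.Agent.H51.Coll.CompDefs

/-!
Decomposition into pieces at a good scale.
-/

set_option autoImplicit false

namespace Pool.Agent.H51.Coll

section Comb2

variable {v : ℕ → Bool} {m : ℕ}

lemma fac_eq_iff {i j : ℕ} : fac v m i = fac v m j ↔ ∀ l < m, v (i + l) = v (j + l) := by
  constructor
  · intro h l hl
    exact congrFun h ⟨l, hl⟩
  · intro h
    funext l
    exact h l l.2

lemma fac_succ {i j : ℕ} (h : fac v m i = fac v m j) (h' : v (i + m) = v (j + m)) :
    fac v m (i + 1) = fac v m (j + 1) := by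
  rw [fac_eq_iff] at h ⊢
  intro l hl
  rcases Nat.lt_or_ge (l + 1) m with h1 | h1
  · have := h (l + 1) h1
    rwa [show i + 1 + l = i + (l + 1) by ring, show j + 1 + l = j + (l + 1) by ring]
  · rw [show i + 1 + l = i + m by omega, show j + 1 + l = j + m by omega]
    exact h'

lemma fac_det {i j : ℕ} (h : fac v m i = fac v m j) (h' : fac v m i ∉ RS v m) :
    fac v m (i + 1) = fac v m (j + 1) := by
  apply fac_succ h
  by_contra hne
  exact h' ⟨i, j, rfl, h.symm, hne⟩

/-- Every window of `complexity v m + 1` positions meets the set of right special positions. -/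
lemma rs_gap (hv : Aperiodic v) (hm : 1 ≤ m) (k : ℕ) :
    ∃ k', k ≤ k' ∧ k' ≤ k + complexity v m ∧ fac v m k' ∈ RS v m := by
  by_contra hcon
  push Not at hcon
  obtain ⟨i, hi, j, hj, hij, hw⟩ : ∃ i ∈ Finset.Icc k (k + complexity v m),
      ∃ j ∈ Finset.Icc k (k + complexity v m), i ≠ j ∧ fac v m i = fac v m j := by
    have hfin : (Set.range (fac v m)).Finite := Set.toFinite _
    apply Finset.exists_ne_map_eq_of_card_lt_of_maps_to (t := hfin.toFinset)
    · rw [← Set.ncard_eq_toFinset_card _ hfin, Nat.card_Icc]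
      unfold complexity; omega
    · intro x _; simp
  wlog hlt : i < j generalizing i j
  · exact this j hj i hi hij.symm hw.symm (by omega)
  simp only [Finset.mem_Icc] at hi hj
  have key : ∀ t, (∃ s, i ≤ s ∧ s < j ∧ fac v m (i + t) = fac v m s) ∧
      fac v m (i + t) = fac v m (j + t) := by
    intro t
    induction t with
    | zero => exact ⟨⟨i, le_rfl, hlt, rfl⟩, hw⟩
    | succ t ih =>
      obtain ⟨⟨s, hs1, hs2, hs3⟩, h2⟩ := ih
      have hn : fac v m (i + t) ∉ RS v m := by
        rw [hs3]; exact hcon s (by omega) (by omega)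
      have h3 := fac_det hs3 hn
      have h4 := fac_det h2 hn
      refine ⟨?_, h4⟩
      rcases Nat.lt_or_ge (s+1) j with h5 | h5
      · exact ⟨s+1, by omega, h5, h3⟩
      · have : s + 1 = j := by omega
        exact ⟨i, le_rfl, hlt, by rw [hw, ← this]; exact h3⟩
  obtain ⟨x, hx, hne⟩ := hv i (j - i) (by omega)
  have h6 := fac_eq_iff.1 (key (x - i)).2 0 (by omega)
  apply hne
  rw [show x + (j - i) = j + (x - i) + 0 by omega, ← h6]
  congr 1
  omega

/-- Distance to the next right special position. -/
noncomputable def nxt (v : ℕ → Bool) (m k : ℕ) : ℕ :=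
  sInf {t | 1 ≤ t ∧ fac v m (k + t) ∈ RS v m}

/-- Least distance between two occurrences of `w`. -/
noncomputable def dd (v : ℕ → Bool) (m : ℕ) (w : Fin m → Bool) : ℕ :=
  sInf {d | 1 ≤ d ∧ ∃ i, fac v m i = w ∧ fac v m (i + d) = w}

/-- The factor at `k` occurs again within distance `m / 4`. -/
def Occ (v : ℕ → Bool) (m k : ℕ) : Prop :=
  ∃ d, 1 ≤ d ∧ d ≤ m / 4 ∧ fac v m (k + d) = fac v m k

lemma nxt_spec (hv : Aperiodic v) (hm : 1 ≤ m) (k : ℕ) :
    1 ≤ nxt v m k ∧ fac v m (k + nxt v m k) ∈ RS v m := by
  apply Nat.sInf_mem (s := {t | 1 ≤ t ∧ fac v m (k + t) ∈ RS v m})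
  obtain ⟨k', h1, h2, h3⟩ := rs_gap hv hm (k + 1)
  exact ⟨k' - k, by omega, by rwa [show k + (k' - k) = k' by omega]⟩

lemma nxt_le (hv : Aperiodic v) (hm : 1 ≤ m) (k : ℕ) : nxt v m k ≤ complexity v m + 1 := by
  obtain ⟨k', h1, h2, h3⟩ := rs_gap hv hm (k + 1)
  have : nxt v m k ≤ k' - k :=
    Nat.sInf_le ⟨by omega, by rwa [show k + (k' - k) = k' by omega]⟩
  omega

lemma nxt_not {k t : ℕ} (ht : 1 ≤ t) (h : t < nxt v m k) : fac v m (k + t) ∉ RS v m := by
  intro h'
  have : nxt v m k ≤ t := Nat.sInf_le ⟨ht, h'⟩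
  omega

/-- Two segments with the same start and the same next letter agree. -/
lemma seg_eq (hv : Aperiodic v) (hm : 1 ≤ m) {k k' : ℕ} (h : fac v m k = fac v m k')
    (h' : v (k + m) = v (k' + m)) :
    nxt v m k = nxt v m k' ∧ ∀ l < nxt v m k, v (k + l) = v (k' + l) := by
  have key : ∀ {a b : ℕ}, fac v m a = fac v m b → v (a + m) = v (b + m) →
      ∀ t, 1 ≤ t → t ≤ nxt v m a → fac v m (a + t) = fac v m (b + t) := by
    intro a b hab hab' t ht
    induction t, ht using Nat.le_induction with
    | base => intro _; exact fac_succ hab hab'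
    | succ t ht ih =>
      intro h1
      exact fac_det (ih (by omega)) (nxt_not ht (by omega))
  have le_aux : ∀ {a b : ℕ}, fac v m a = fac v m b → v (a + m) = v (b + m) →
      nxt v m b ≤ nxt v m a := by
    intro a b hab hab'
    obtain ⟨h1, h2⟩ := nxt_spec hv hm a
    apply Nat.sInf_le
    refine ⟨h1, ?_⟩
    rw [← key hab hab' _ h1 le_rfl]
    exact h2
  refine ⟨le_antisymm (le_aux h.symm h'.symm) (le_aux h h'), ?_⟩
  intro l hl
  rcases Nat.eq_zero_or_pos l with h0 | h0
  · subst h0
    exact fac_eq_iff.1 h 0 (by omega)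
  · exact fac_eq_iff.1 (key h h' l h0 hl.le) 0 (by omega)

/-- In the loop case the factor recurs after exactly the least distance. -/
lemma occ_dd {k : ℕ} (hk : Occ v m k) :
    1 ≤ dd v m (fac v m k) ∧ dd v m (fac v m k) ≤ m / 4 ∧
      fac v m (k + dd v m (fac v m k)) = fac v m k := by
  obtain ⟨d, hd1, hd2, hd3⟩ := hk
  set w := fac v m k with hw
  have hmem : dd v m w ∈ {d | 1 ≤ d ∧ ∃ i, fac v m i = w ∧ fac v m (i + d) = w} :=
    Nat.sInf_mem ⟨d, hd1, k, rfl, hd3⟩
  have hle : dd v m w ≤ d := Nat.sInf_le ⟨hd1, k, rfl, hd3⟩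
  obtain ⟨h1, i, hi1, hi2⟩ := hmem
  set D := dd v m w with hD
  refine ⟨h1, by omega, ?_⟩
  -- periods
  have e1 : ∀ l < m, v (k + d + l) = v (k + l) := fac_eq_iff.1 (hd3.trans hw)
  have e2 : ∀ l < m, v (i + l) = v (k + l) := fac_eq_iff.1 (hi1.trans hw)
  have e3 : ∀ l < m, v (i + D + l) = v (k + l) := fac_eq_iff.1 (hi2.trans hw)
  have pd : ∀ l, l + d < m → v (k + (l + d)) = v (k + l) := by
    intro l hl
    rw [← e1 l (by omega)]
    congr 1; ring
  have pD : ∀ l, l + D < m → v (k + (l + D)) = v (k + l) := by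
    intro l hl
    rw [← e3 l (by omega), ← e2 (l + D) hl]
    congr 1; ring
  rw [hw, fac_eq_iff]
  intro l hl
  rcases Nat.lt_or_ge (l + D) m with h2 | h2
  · rw [show k + D + l = k + (l + D) by ring]
    exact pD l h2
  · have hq : m / 4 * 4 ≤ m := Nat.div_mul_le_self m 4
    rw [show k + D + l = k + d + (l + D - d) by omega, e1 _ (by omega)]
    rw [show l + D - d = (l - d) + D by omega, pD _ (by omega)]
    rw [← pd (l - d) (by omega)]
    congr 2
    omega

open Classical in
/-- The basic length at a position. -/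
noncomputable def bas (v : ℕ → Bool) (m k : ℕ) : ℕ :=
  if Occ v m k then dd v m (fac v m k) else nxt v m k

open Classical in
/-- The exponent at a position. -/
noncomputable def expo (v : ℕ → Bool) (m k : ℕ) : ℕ :=
  if Occ v m k then
    Nat.findGreatest (fun e => ∀ j ≤ e, fac v m (k + j * dd v m (fac v m k)) = fac v m k)
      (m / dd v m (fac v m k) + 1)
  else 1

lemma expo_occ {k : ℕ} (hk : Occ v m k) :
    (1 ≤ expo v m k ∧ expo v m k ≤ m / dd v m (fac v m k) + 1) ∧
    (∀ j ≤ expo v m k, fac v m (k + j * dd v m (fac v m k)) = fac v m k) ∧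
    (expo v m k = m / dd v m (fac v m k) + 1 ∨
      fac v m (k + (expo v m k + 1) * dd v m (fac v m k)) ≠ fac v m k) := by
  classical
  obtain ⟨h1, h2, h3⟩ := occ_dd hk
  set w := fac v m k with hw
  set D := dd v m w with hD
  have hexpo : expo v m k = Nat.findGreatest
      (fun e => ∀ j ≤ e, fac v m (k + j * D) = w) (m / D + 1) := by
    unfold expo
    rw [if_pos hk]
  have hP1 : ∀ j ≤ 1, fac v m (k + j * D) = w := by
    intro j hj
    interval_cases j
    · simp [hw]
    · simpa using h3
  have hge : 1 ≤ expo v m k := by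
    rw [hexpo]
    exact Nat.le_findGreatest (Nat.le_add_left 1 _) hP1
  have hle : expo v m k ≤ m / D + 1 := by
    rw [hexpo]; exact Nat.findGreatest_le _
  have hsp : ∀ j ≤ expo v m k, fac v m (k + j * D) = w := by
    have := Nat.findGreatest_spec (P := fun e => ∀ j ≤ e, fac v m (k + j * D) = w)
      (m := 1) (n := m / D + 1) (Nat.le_add_left 1 _) hP1
    rwa [← hexpo] at this
  refine ⟨⟨hge, hle⟩, hsp, ?_⟩
  rcases Nat.lt_or_ge (expo v m k) (m / D + 1) with h4 | h4
  · right
    intro hbad
    have h5 : ¬ (∀ j ≤ expo v m k + 1, fac v m (k + j * D) = w) := by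
      have := Nat.findGreatest_is_greatest
        (P := fun e => ∀ j ≤ e, fac v m (k + j * D) = w) (n := m / D + 1)
        (k := expo v m k + 1) (by rw [← hexpo]; exact Nat.lt_succ_self _) (by omega)
      exact this
    apply h5
    intro j hj
    rcases Nat.lt_or_ge j (expo v m k + 1) with h6 | h6
    · exact hsp j (by omega)
    · rw [show j = expo v m k + 1 by omega]; exact hbad
  · left; omega

lemma bas_pos (hv : Aperiodic v) (hm : 1 ≤ m) (k : ℕ) : 1 ≤ bas v m k := by
  unfold bas
  split_ifs with h
  · exact (occ_dd h).1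
  · exact (nxt_spec hv hm k).1

lemma expo_pos (k : ℕ) : 1 ≤ expo v m k := by
  by_cases h : Occ v m k
  · exact (expo_occ h).1.1
  · unfold expo; rw [if_neg h]

/-- Length of a piece. -/
lemma step_le (hv : Aperiodic v) (hm : 1 ≤ m) (k : ℕ) :
    expo v m k * bas v m k ≤ complexity v m + 1 + 2 * m := by
  by_cases h : Occ v m k
  · have h1 := (expo_occ h).1.2
    have h2 := occ_dd h
    unfold bas
    rw [if_pos h]
    have h3 : expo v m k * dd v m (fac v m k) ≤
        (m / dd v m (fac v m k) + 1) * dd v m (fac v m k) := Nat.mul_le_mul_right _ h1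
    have h4 : m / dd v m (fac v m k) * dd v m (fac v m k) ≤ m := Nat.div_mul_le_self _ _
    rw [add_mul] at h3
    have h5 := h2.2.1
    have h6 : m / 4 ≤ m := Nat.div_le_self _ _
    omega
  · unfold expo bas
    rw [if_neg h, if_neg h]
    have := nxt_le hv hm k
    omega

/-- The next position is right special again. -/
lemma step_mem (hv : Aperiodic v) (hm : 1 ≤ m) {k : ℕ} (hk : fac v m k ∈ RS v m) :
    fac v m (k + expo v m k * bas v m k) ∈ RS v m := by
  by_cases h : Occ v m k
  · unfold bas
    rw [if_pos h, (expo_occ h).2.1 _ le_rfl]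
    exact hk
  · unfold expo bas
    rw [if_neg h, if_neg h, one_mul]
    exact (nxt_spec hv hm k).2

/-- Three occurrences. -/
lemma sparse {k k2 k3 : ℕ}
    (h2 : k + expo v m k * bas v m k ≤ k2) (hlt : k < k2) (h3 : k2 < k3)
    (e2 : fac v m k2 = fac v m k) (e3 : fac v m k3 = fac v m k) : k + m / 4 < k3 := by
  by_contra hcon
  have hocc : Occ v m k := ⟨k2 - k, by omega, by omega, by
    rw [show k + (k2 - k) = k2 by omega]; exact e2⟩
  obtain ⟨⟨a1, a2⟩, a3, a4⟩ := expo_occ hocc
  obtain ⟨b1, b2, b3⟩ := occ_dd hocc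
  unfold bas at h2
  rw [if_pos hocc] at h2
  have hq : m / 4 * 4 ≤ m := Nat.div_mul_le_self m 4
  rcases a4 with a4 | a4
  · rw [a4, add_mul] at h2
    have h5 : m < m / dd v m (fac v m k) * dd v m (fac v m k) + dd v m (fac v m k) := by
      have := Nat.lt_div_mul_add (a := m) b1
      exact this
    omega
  · have h6 : fac v m (k + expo v m k * dd v m (fac v m k)) = fac v m k := a3 _ le_rfl
    have hocc' : Occ v m (k + expo v m k * dd v m (fac v m k)) :=
      ⟨k3 - (k + expo v m k * dd v m (fac v m k)), by omega, by omega, by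
        rw [show k + expo v m k * dd v m (fac v m k) +
          (k3 - (k + expo v m k * dd v m (fac v m k))) = k3 by omega, h6]
        exact e3⟩
    have h7 := (occ_dd hocc').2.2
    rw [h6] at h7
    apply a4
    rw [add_mul, one_mul, ← add_assoc]
    exact h7

/-- First right special position. -/
noncomputable def t0 (v : ℕ → Bool) (m : ℕ) : ℕ := sInf {t | fac v m t ∈ RS v m}

lemma t0_spec (hv : Aperiodic v) (hm : 1 ≤ m) :
    fac v m (t0 v m) ∈ RS v m ∧ t0 v m ≤ complexity v m := by
  obtain ⟨k', h1, h2, h3⟩ := rs_gap hv hm 0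
  refine ⟨Nat.sInf_mem (s := {t | fac v m t ∈ RS v m}) ⟨k', h3⟩, ?_⟩
  have : t0 v m ≤ k' := Nat.sInf_le h3
  omega

/-- Positions after the first piece. -/
noncomputable def pp (v : ℕ → Bool) (m : ℕ) : ℕ → ℕ
  | 0 => t0 v m
  | i + 1 => pp v m i + expo v m (pp v m i) * bas v m (pp v m i)

lemma pp_mem (hv : Aperiodic v) (hm : 1 ≤ m) (i : ℕ) : fac v m (pp v m i) ∈ RS v m := by
  induction i with
  | zero => exact (t0_spec hv hm).1
  | succ i ih => exact step_mem hv hm ih

lemma pp_lt (hv : Aperiodic v) (hm : 1 ≤ m) (i : ℕ) : pp v m i < pp v m (i + 1) := by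
  show pp v m i < pp v m i + expo v m (pp v m i) * bas v m (pp v m i)
  have := Nat.mul_le_mul (expo_pos (v := v) (m := m) (pp v m i)) (bas_pos hv hm (pp v m i))
  omega

lemma pp_strictMono (hv : Aperiodic v) (hm : 1 ≤ m) : StrictMono (pp v m) :=
  strictMono_nat_of_lt_succ (pp_lt hv hm)

open Classical in
/-- The kind of a position. -/
noncomputable def kind (v : ℕ → Bool) (m k : ℕ) : Fin 3 :=
  if Occ v m k then 2 else if v (k + m) then 1 else 0

lemma same_kind (hv : Aperiodic v) (hm : 4 ≤ m) {k k' : ℕ} (h : fac v m k = fac v m k')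
    (h' : kind v m k = kind v m k') : bas v m k = bas v m k' ∧
      ∀ l < expo v m k * bas v m k, v (k + l) = v (k' + l % bas v m k') := by
  by_cases hk : Occ v m k
  · have hk' : Occ v m k' := by
      by_contra hn
      unfold kind at h'
      rw [if_pos hk, if_neg hn] at h'
      split_ifs at h' <;> exact absurd h' (by decide)
    obtain ⟨⟨a1, a2⟩, a3, a4⟩ := expo_occ hk
    obtain ⟨b1, b2, b3⟩ := occ_dd hk
    have hb : bas v m k = dd v m (fac v m k) := by unfold bas; rw [if_pos hk]
    have hb' : bas v m k' = dd v m (fac v m k) := by unfold bas; rw [if_pos hk', h]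
    refine ⟨by rw [hb, hb'], ?_⟩
    rw [hb, hb']
    intro l hl
    set D := dd v m (fac v m k) with hD
    have h1 : l / D ≤ expo v m k := by
      have : l / D < expo v m k := (Nat.div_lt_iff_lt_mul b1).2 hl
      omega
    have h2 : l % D < D := Nat.mod_lt _ b1
    have h3 : D < m := by omega
    have h4 := fac_eq_iff.1 (a3 _ h1) (l % D) (by omega)
    have h5 := fac_eq_iff.1 h (l % D) (by omega)
    rw [← h5, ← h4]
    congr 1
    have := Nat.div_add_mod l D
    rw [mul_comm] at this
    omega
  · have hk' : ¬ Occ v m k' := by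
      intro hn
      unfold kind at h'
      rw [if_neg hk, if_pos hn] at h'
      split_ifs at h' <;> exact absurd h' (by decide)
    have h1 : v (k + m) = v (k' + m) := by
      unfold kind at h'
      rw [if_neg hk, if_neg hk'] at h'
      by_cases c1 : v (k + m) = true <;> by_cases c2 : v (k' + m) = true
      · rw [c1, c2]
      · rw [if_pos c1, if_neg c2] at h'; exact absurd h' (by decide)
      · rw [if_neg c1, if_pos c2] at h'; exact absurd h' (by decide)
      · rw [Bool.not_eq_true] at c1 c2; rw [c1, c2]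
    obtain ⟨e1, e2⟩ := seg_eq hv (by omega) h h1
    unfold expo bas
    rw [if_neg hk, if_neg hk, if_neg hk', one_mul]
    refine ⟨e1, ?_⟩
    intro l hl
    rw [e2 l hl, Nat.mod_eq_of_lt (by omega)]

end Comb2

/-- Decomposition into pieces at a good scale. -/
theorem pieces_of_scale (K : ℕ) : ∃ r C : ℕ, ∀ (v : ℕ → Bool), Aperiodic v → ∀ m : ℕ, 4 ≤ m →
    complexity v m ≤ K * m → (RS v m).ncard ≤ K → Pieces v r C (m / 4) := by
  classical
  refine ⟨Fintype.card (Option (Fin (K + 1) × Fin 3)), 7 * K + 30, ?_⟩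
  intro v hv m hm hc hr
  have hm1 : 1 ≤ m := by omega
  -- injection of the right special factors
  obtain ⟨g, hg⟩ : ∃ g : (Fin m → Bool) → Fin (K + 1), Set.InjOn g (RS v m) := by
    have hfin : (RS v m).Finite := Set.toFinite _
    have hcard : Fintype.card (RS v m) ≤ Fintype.card (Fin (K + 1)) := by
      rw [← Nat.card_eq_fintype_card, Fintype.card_fin]
      show (RS v m).ncard ≤ K + 1
      omega
    obtain ⟨f⟩ := Function.Embedding.nonempty_of_card_le hcard
    refine ⟨fun w => if h : w ∈ RS v m then f ⟨w, h⟩ else 0, ?_⟩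
    intro a ha b hb hab
    simp only [dif_pos ha, dif_pos hb] at hab
    have := f.injective hab
    exact congrArg Subtype.val this
  let eq : Option (Fin (K + 1) × Fin 3) ≃ Fin (Fintype.card (Option (Fin (K + 1) × Fin 3))) :=
    Fintype.equivFin _
  let lb : ℕ → Option (Fin (K + 1) × Fin 3) := fun k => some (g (fac v m k), kind v m k)
  -- representatives of labels
  let Used : Option (Fin (K + 1) × Fin 3) → Prop :=
    fun a => ∃ i, lb (pp v m i) = a
  let rep : Option (Fin (K + 1) × Fin 3) → ℕ := fun a =>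
    if h : Used a then pp v m h.choose else 0
  have rep_spec : ∀ i, bas v m (pp v m i) = bas v m (rep (lb (pp v m i))) ∧
      ∀ l < expo v m (pp v m i) * bas v m (pp v m i),
        v (pp v m i + l) = v (rep (lb (pp v m i)) + l % bas v m (rep (lb (pp v m i)))) := by
    intro i
    have hu : Used (lb (pp v m i)) := ⟨i, rfl⟩
    have h1 : rep (lb (pp v m i)) = pp v m hu.choose := dif_pos hu
    have h2 : lb (pp v m hu.choose) = lb (pp v m i) := hu.choose_spec
    rw [h1]
    have h3 := Option.some.inj h2
    have h4 : g (fac v m (pp v m hu.choose)) = g (fac v m (pp v m i)) := congrArg Prod.fst h3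
    have h5 : kind v m (pp v m hu.choose) = kind v m (pp v m i) := congrArg Prod.snd h3
    have h6 := hg (pp_mem hv hm1 _) (pp_mem hv hm1 _) h4
    exact same_kind hv hm h6.symm h5.symm
  -- the data
  let pos : ℕ → ℕ := fun i => match i with
    | 0 => 0
    | i + 1 => pp v m i
  let ex : ℕ → ℕ := fun i => match i with
    | 0 => if t0 v m = 0 then 0 else 1
    | i + 1 => expo v m (pp v m i)
  let lab : ℕ → Option (Fin (K + 1) × Fin 3) := fun i => match i with
    | 0 => none
    | i + 1 => lb (pp v m i)
  let len : Option (Fin (K + 1) × Fin 3) → ℕ := fun a => match a with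
    | none => if t0 v m = 0 then 1 else t0 v m
    | some b => bas v m (rep (some b))
  let q : Option (Fin (K + 1) × Fin 3) → ℕ := fun a => match a with
    | none => 0
    | some b => rep (some b)
  have hquarter : m ≤ 7 * (m / 4) := by omega
  have hbound : complexity v m + 1 + 2 * m ≤ (7 * K + 30) * (m / 4) := by
    have h1 : K * m ≤ K * (7 * (m / 4)) := Nat.mul_le_mul_left _ hquarter
    have h2 : (7 * K + 30) * (m / 4) = K * (7 * (m / 4)) + 30 * (m / 4) := by ring
    rw [h2]
    omega
  refine ⟨pos, ex, fun i => eq (lab i), fun a => len (eq.symm a), fun a => q (eq.symm a), rfl,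
    ?_, ?_, ?_, ?_, ?_⟩
  · intro i
    simp only [Equiv.symm_apply_apply]
    match i with
    | 0 =>
      show t0 v m = 0 + (if t0 v m = 0 then 0 else 1) * (if t0 v m = 0 then 1 else t0 v m)
      split_ifs with h <;> omega
    | i + 1 =>
      show pp v m (i + 1) = pp v m i + expo v m (pp v m i) * bas v m (rep (lb (pp v m i)))
      rw [← (rep_spec i).1]
      rfl
  · intro a
    have hb : ∀ b, 1 ≤ len b ∧ len b ≤ (7 * K + 30) * (m / 4) := by
      intro b
      match b with
      | none =>
        show 1 ≤ (if t0 v m = 0 then 1 else t0 v m) ∧ (if t0 v m = 0 then 1 else t0 v m) ≤ _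
        have := (t0_spec hv hm1).2
        split_ifs with h <;> constructor <;> omega
      | some b =>
        show 1 ≤ bas v m (rep (some b)) ∧ bas v m (rep (some b)) ≤ _
        refine ⟨bas_pos hv hm1 _, ?_⟩
        have h1 := step_le hv hm1 (rep (some b))
        have h2 := Nat.mul_le_mul_right (bas v m (rep (some b)))
          (expo_pos (v := v) (m := m) (rep (some b)))
        omega
    exact hb _
  · intro i
    simp only [Equiv.symm_apply_apply]
    match i with
    | 0 =>
      show (if t0 v m = 0 then 0 else 1) * (if t0 v m = 0 then 1 else t0 v m) ≤ _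
      have := (t0_spec hv hm1).2
      split_ifs with h <;> omega
    | i + 1 =>
      show expo v m (pp v m i) * bas v m (rep (lb (pp v m i))) ≤ _
      rw [← (rep_spec i).1]
      exact (step_le hv hm1 _).trans hbound
  · -- sparsity
    have hmain : ∀ i, pp v m i + m / 4 ≤ pp v m (i + (2 * K + 3)) := by
      intro i
      have hmaps : ∀ a ∈ Finset.range (2 * K + 3), g (fac v m (pp v m (i + a))) ∈
          (Finset.univ : Finset (Fin (K + 1))) := fun _ _ => Finset.mem_univ _
      obtain ⟨y, -, hy⟩ := Finset.exists_lt_card_fiber_of_mul_lt_card_of_maps_to hmaps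
        (n := 2) (by rw [Finset.card_univ, Fintype.card_fin, Finset.card_range]; omega)
      rw [Finset.two_lt_card_iff] at hy
      obtain ⟨a, b, c, ha, hb, hc', hab, hac, hbc⟩ := hy
      simp only [Finset.mem_filter, Finset.mem_range] at ha hb hc'
      -- order the three
      have main3 : ∀ a b c : ℕ, a < b → b < c → c < 2 * K + 3 →
          g (fac v m (pp v m (i + a))) = y → g (fac v m (pp v m (i + b))) = y →
          g (fac v m (pp v m (i + c))) = y → pp v m i + m / 4 ≤ pp v m (i + (2 * K + 3)) := by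
        intro a b c hab hbc hc1 ha hb hc2
        have mono := pp_strictMono hv hm1
        have e1 : fac v m (pp v m (i + b)) = fac v m (pp v m (i + a)) :=
          hg (pp_mem hv hm1 _) (pp_mem hv hm1 _) (hb.trans ha.symm)
        have e2 : fac v m (pp v m (i + c)) = fac v m (pp v m (i + a)) :=
          hg (pp_mem hv hm1 _) (pp_mem hv hm1 _) (hc2.trans ha.symm)
        have h1 : pp v m (i + a + 1) ≤ pp v m (i + b) := mono.monotone (by omega)
        have h2 := sparse (k := pp v m (i + a)) (k2 := pp v m (i + b)) (k3 := pp v m (i + c))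
          h1 (mono (by omega)) (mono (by omega)) e1 e2
        have h3 : pp v m i ≤ pp v m (i + a) := mono.monotone (by omega)
        have h4 : pp v m (i + c) ≤ pp v m (i + (2 * K + 3)) := mono.monotone (by omega)
        omega
      rcases lt_trichotomy a b with h | h | h
      · rcases lt_trichotomy b c with h' | h' | h'
        · exact main3 a b c h h' hc'.1 ha.2 hb.2 hc'.2
        · exact absurd h' hbc
        · rcases lt_trichotomy a c with h'' | h'' | h''
          · exact main3 a c b h'' h' hb.1 ha.2 hc'.2 hb.2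
          · exact absurd h'' hac
          · exact main3 c a b h'' h hb.1 hc'.2 ha.2 hb.2
      · exact absurd h hab
      · rcases lt_trichotomy a c with h' | h' | h'
        · exact main3 b a c h h' hc'.1 hb.2 ha.2 hc'.2
        · exact absurd h' hac
        · rcases lt_trichotomy b c with h'' | h'' | h''
          · exact main3 b c a h'' h' ha.1 hb.2 hc'.2 ha.2
          · exact absurd h'' hbc
          · exact main3 c b a h'' h ha.1 hc'.2 hb.2 ha.2
    intro i
    match i with
    | 0 =>
      show 0 + m / 4 ≤ pos (0 + (7 * K + 30))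
      have h1 := hmain 0
      have h2 : pos (0 + (7 * K + 30)) = pp v m (7 * K + 29) := by
        rw [show 0 + (7 * K + 30) = (7 * K + 29) + 1 by ring]
      have h3 : pp v m (0 + (2 * K + 3)) ≤ pp v m (7 * K + 29) :=
        (pp_strictMono hv hm1).monotone (by omega)
      rw [h2]
      omega
    | i + 1 =>
      show pp v m i + m / 4 ≤ pos (i + 1 + (7 * K + 30))
      have h1 := hmain i
      have h2 : pos (i + 1 + (7 * K + 30)) = pp v m (i + (7 * K + 30)) := by
        rw [show i + 1 + (7 * K + 30) = (i + (7 * K + 30)) + 1 by ring]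
      have h3 : pp v m (i + (2 * K + 3)) ≤ pp v m (i + (7 * K + 30)) :=
        (pp_strictMono hv hm1).monotone (by omega)
      rw [h2]
      omega
  · intro i
    simp only [Equiv.symm_apply_apply]
    match i with
    | 0 =>
      intro l hl
      show v (0 + l) = v (0 + l % (if t0 v m = 0 then 1 else t0 v m))
      change l < (if t0 v m = 0 then 0 else 1) * (if t0 v m = 0 then 1 else t0 v m) at hl
      split_ifs at hl ⊢ with h
      · omega
      · rw [Nat.mod_eq_of_lt (by omega)]
    | i + 1 =>
      intro l hl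
      show v (pp v m i + l) = v (rep (lb (pp v m i)) + l % bas v m (rep (lb (pp v m i))))
      change l < expo v m (pp v m i) * bas v m (rep (lb (pp v m i))) at hl
      rw [← (rep_spec i).1] at hl
      exact (rep_spec i).2 l hl

end Pool.Agent.H51.Coll
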