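import Pool.Agent.H51.Coll.WordDefs

/-!
Factor complexity of infinite binary words, right special factors, and decompositions into few
kinds of pieces (powers of words).
-/

set_option autoImplicit false

namespace Pool.Agent.H51.Coll

/-- The factor of length `n` of `v` at position `i`. -/
def fac (v : ℕ → Bool) (n i : ℕ) : Fin n → Bool := fun l => v (i + l)

/-- The number of different factors of length `n` of `v`. -/
noncomputable def complexity (v : ℕ → Bool) (n : ℕ) : ℕ := (Set.range (fac v n)).ncard

/-- The set of right special factors of length `n` of `v`. -/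
def RS (v : ℕ → Bool) (n : ℕ) : Set (Fin n → Bool) :=
  {w | ∃ i j : ℕ, fac v n i = w ∧ fac v n j = w ∧ v (i + n) ≠ v (j + n)}

/-- `v` is not eventually periodic. -/
def Aperiodic (v : ℕ → Bool) : Prop := ∀ k₀ p : ℕ, 1 ≤ p → ∃ k, k₀ ≤ k ∧ v (k + p) ≠ v k

/-- `v` has frequency `θ` of `true`. -/
def Freq (v : ℕ → Bool) (θ : ℝ) : Prop :=
  ∀ ε : ℝ, 0 < ε → ∃ C : ℝ, ∀ n : ℕ, |(cnt v 0 n : ℝ) - θ * n| ≤ ε * n + C

/-- Decomposition of `v` at scale `n`: `v` is the concatenation of pieces, the `i`-th piece starts at
position `pos i` and is the `ex i`-th power of one of `r` words (the word with label `a` is the factor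
of length `len a` at position `q a`); pieces and words have length at most `C n`, and `C` consecutive
pieces have total length at least `n`. -/
def Pieces (v : ℕ → Bool) (r C n : ℕ) : Prop :=
  ∃ (pos ex : ℕ → ℕ) (lab : ℕ → Fin r) (len q : Fin r → ℕ), pos 0 = 0 ∧
    (∀ i, pos (i + 1) = pos i + ex i * len (lab i)) ∧
    (∀ a, 1 ≤ len a ∧ len a ≤ C * n) ∧
    (∀ i, ex i * len (lab i) ≤ C * n) ∧
    (∀ i, pos i + n ≤ pos (i + C)) ∧
    ∀ i, ∀ l < ex i * len (lab i), v (pos i + l) = v (q (lab i) + l % len (lab i))

end Pool.Agent.H51.Coll
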