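import Mathlib

/-!
An abstract setting with three nonarchimedean absolute values, a product formula and a group of
monomials.
-/

set_option autoImplicit false

namespace Pool.Agent.H51.Coll

open Finset

/-- Three nonarchimedean absolute values on a field `M`, trivial on `k`, with a product formula on `O`. -/
structure Data (M : Type) [Field M] where
  A : AbsoluteValue M ℝ
  B : AbsoluteValue M ℝ
  N : AbsoluteValue M ℝ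
  naA : IsNonarchimedean A
  naB : IsNonarchimedean B
  naN : IsNonarchimedean N
  k : Subfield M
  O : Subring M
  Γ : Submonoid M
  α : ℝ
  β : ℝ
  α_pos : 0 < α
  β_pos : 0 < β
  k_le : ∀ z ∈ k, z ∈ O
  frac : ∀ z : M, ∃ w ∈ O, w ≠ 0 ∧ w * z ∈ O
  A_k : ∀ z ∈ k, z ≠ 0 → A z = 1
  B_k : ∀ z ∈ k, z ≠ 0 → B z = 1
  N_k : ∀ z ∈ k, z ≠ 0 → N z = 1
  prod : ∀ z ∈ O, z ≠ 0 → 1 ≤ A z ^ α * B z ^ β * N z
  Γ_O : ∀ γ ∈ Γ, γ ∈ O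
  Γ_inv : ∀ γ ∈ Γ, γ⁻¹ ∈ Γ
  Γ_ne : ∀ γ ∈ Γ, γ ≠ 0
  Γ_B : ∀ γ ∈ Γ, B γ = A γ
  Γ_N : ∀ γ ∈ Γ, N γ = A γ ^ (-(α + β))
  Γ_triv : ∀ γ ∈ Γ, A γ = 1 → γ ∈ k

lemma sum_le_of_na {M ι : Type} [Field M] {f : AbsoluteValue M ℝ} (hf : IsNonarchimedean f)
    (s : Finset ι) (g : ι → M) (c : ℝ) (hc : 0 ≤ c) (h : ∀ i ∈ s, f (g i) ≤ c) :
    f (∑ i ∈ s, g i) ≤ c := by
  rcases s.eq_empty_or_nonempty with rfl | hs
  · simpa using hc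
  · refine (IsNonarchimedean.apply_sum_le_sup hf hs).trans ?_
    exact (Finset.sup'_le_iff _ _).mpr h

namespace Data

variable {M : Type} [Field M]

/-- Exchange the roles of `A` and `B`. -/
abbrev swap (𝒟 : Data M) : Data M where
  A := 𝒟.B
  B := 𝒟.A
  N := 𝒟.N
  naA := 𝒟.naB
  naB := 𝒟.naA
  naN := 𝒟.naN
  k := 𝒟.k
  O := 𝒟.O
  Γ := 𝒟.Γ
  α := 𝒟.β
  β := 𝒟.α
  α_pos := 𝒟.β_pos
  β_pos := 𝒟.α_pos
  k_le := 𝒟.k_le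
  frac := 𝒟.frac
  A_k := 𝒟.B_k
  B_k := 𝒟.A_k
  N_k := 𝒟.N_k
  prod := fun z hz h0 => by
    have := 𝒟.prod z hz h0
    rwa [mul_comm (𝒟.A z ^ 𝒟.α)] at this
  Γ_O := 𝒟.Γ_O
  Γ_inv := 𝒟.Γ_inv
  Γ_ne := 𝒟.Γ_ne
  Γ_B := fun γ hγ => (𝒟.Γ_B γ hγ).symm
  Γ_N := fun γ hγ => by rw [𝒟.Γ_N γ hγ, 𝒟.Γ_B γ hγ, add_comm]
  Γ_triv := fun γ hγ h => 𝒟.Γ_triv γ hγ ((𝒟.Γ_B γ hγ).symm.trans h)

variable (𝒟 : Data M)

/-- The value group of the monomials. -/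
def IsG (t : ℝ) : Prop := ∃ γ ∈ 𝒟.Γ, -Real.log (𝒟.A γ) = t

open Classical in
/-- A monomial of given value. -/
noncomputable def sec (t : ℝ) : M := if h : 𝒟.IsG t then h.choose else 0

lemma A_pos_of_mem {γ : M} (h : γ ∈ 𝒟.Γ) : 0 < 𝒟.A γ := 𝒟.A.pos (𝒟.Γ_ne γ h)

lemma sec_mem {t : ℝ} (h : 𝒟.IsG t) : 𝒟.sec t ∈ 𝒟.Γ := by
  rw [sec, dif_pos h]
  exact h.choose_spec.1

lemma A_sec {t : ℝ} (h : 𝒟.IsG t) : 𝒟.A (𝒟.sec t) = Real.exp (-t) := by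
  have h1 : 𝒟.sec t = h.choose := by rw [sec, dif_pos h]
  have h2 := h.choose_spec.2
  have h3 := 𝒟.A_pos_of_mem h.choose_spec.1
  have h4 : -t = Real.log (𝒟.A h.choose) := by linarith
  rw [h1, h4, Real.exp_log h3]

lemma B_sec {t : ℝ} (h : 𝒟.IsG t) : 𝒟.B (𝒟.sec t) = Real.exp (-t) := by
  rw [𝒟.Γ_B _ (𝒟.sec_mem h), 𝒟.A_sec h]

lemma N_sec {t : ℝ} (h : 𝒟.IsG t) : 𝒟.N (𝒟.sec t) = Real.exp ((𝒟.α + 𝒟.β) * t) := by
  rw [𝒟.Γ_N _ (𝒟.sec_mem h), 𝒟.A_sec h, ← Real.exp_mul]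
  congr 1
  ring

lemma sec_ne {t : ℝ} (h : 𝒟.IsG t) : 𝒟.sec t ≠ 0 := 𝒟.Γ_ne _ (𝒟.sec_mem h)

lemma isG_zero : 𝒟.IsG 0 := ⟨1, 𝒟.Γ.one_mem, by simp⟩

lemma isG_add {t u : ℝ} (ht : 𝒟.IsG t) (hu : 𝒟.IsG u) : 𝒟.IsG (t + u) := by
  obtain ⟨γ, h1, h2⟩ := ht
  obtain ⟨δ, h3, h4⟩ := hu
  refine ⟨γ * δ, 𝒟.Γ.mul_mem h1 h3, ?_⟩
  rw [map_mul, Real.log_mul (𝒟.A_pos_of_mem h1).ne' (𝒟.A_pos_of_mem h3).ne', ← h2, ← h4]
  ring

lemma div_mem_k {γ δ : M} (h1 : γ ∈ 𝒟.Γ) (h2 : δ ∈ 𝒟.Γ) (h : 𝒟.A γ = 𝒟.A δ) : γ / δ ∈ 𝒟.k := by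
  rw [div_eq_mul_inv]
  refine 𝒟.Γ_triv _ (𝒟.Γ.mul_mem h1 (𝒟.Γ_inv _ h2)) ?_
  rw [map_mul, map_inv₀, h, mul_inv_cancel₀ (𝒟.A_pos_of_mem h2).ne']

lemma exists_eq_sec {γ : M} (h : γ ∈ 𝒟.Γ) : ∃ t, 𝒟.IsG t ∧ ∃ c ∈ 𝒟.k, γ = c * 𝒟.sec t := by
  have ht : 𝒟.IsG (-Real.log (𝒟.A γ)) := ⟨γ, h, rfl⟩
  refine ⟨_, ht, γ / 𝒟.sec _, 𝒟.div_mem_k h (𝒟.sec_mem ht) ?_, ?_⟩
  · rw [𝒟.A_sec ht, neg_neg, Real.exp_log (𝒟.A_pos_of_mem h)]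
  · rw [div_mul_cancel₀ _ (𝒟.sec_ne ht)]

/-- The ring generated by the constants and the monomials. -/
def L : Subring M := Subring.closure ((𝒟.k : Set M) ∪ (𝒟.Γ : Set M))

lemma k_le_L {z : M} (h : z ∈ 𝒟.k) : z ∈ 𝒟.L := Subring.subset_closure (Or.inl h)

lemma Γ_le_L {z : M} (h : z ∈ 𝒟.Γ) : z ∈ 𝒟.L := Subring.subset_closure (Or.inr h)

lemma L_le_span {z : M} (h : z ∈ 𝒟.L) : z ∈ Submodule.span 𝒟.k (𝒟.Γ : Set M) := by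
  refine Subring.closure_induction (s := (𝒟.k : Set M) ∪ (𝒟.Γ : Set M))
    (p := fun z _ => z ∈ Submodule.span 𝒟.k (𝒟.Γ : Set M)) ?_ ?_ ?_ ?_ ?_ ?_ h
  · rintro x (hx | hx)
    · have : x = (⟨x, hx⟩ : 𝒟.k) • (1 : M) := by
        rw [Subfield.smul_def, smul_eq_mul, mul_one]
      rw [this]
      exact Submodule.smul_mem _ _ (Submodule.subset_span 𝒟.Γ.one_mem)
    · exact Submodule.subset_span hx
  · exact Submodule.zero_mem _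
  · exact Submodule.subset_span 𝒟.Γ.one_mem
  · intro x y _ _ hx hy
    exact Submodule.add_mem _ hx hy
  · intro x _ hx
    exact Submodule.neg_mem _ hx
  · intro x y _ _ hx hy
    have h1 := Submodule.mul_mem_mul hx hy
    rw [Submodule.span_mul_span, Submonoid.coe_mul_self_eq] at h1
    exact h1

/-- Every element of `L` is a finite combination of monomials of distinct values. -/
lemma exists_rep {z : M} (h : z ∈ 𝒟.L) : ∃ a : ℝ →₀ 𝒟.k, (∀ t ∈ a.support, 𝒟.IsG t) ∧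
    z = ∑ t ∈ a.support, (a t : M) * 𝒟.sec t := by
  have h1 : Submodule.span 𝒟.k (𝒟.Γ : Set M) ≤ Submodule.span 𝒟.k (𝒟.sec '' {t | 𝒟.IsG t}) := by
    rw [Submodule.span_le]
    intro γ hγ
    obtain ⟨t, ht, c, hc, hγ'⟩ := 𝒟.exists_eq_sec hγ
    rw [hγ']
    have : c * 𝒟.sec t = (⟨c, hc⟩ : 𝒟.k) • 𝒟.sec t := by rw [Subfield.smul_def, smul_eq_mul]
    rw [this]
    exact Submodule.smul_mem _ _ (Submodule.subset_span ⟨t, ht, rfl⟩)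
  obtain ⟨l, hl1, hl2⟩ := (Finsupp.mem_span_image_iff_linearCombination _).mp (h1 (𝒟.L_le_span h))
  refine ⟨l, fun t ht => ?_, ?_⟩
  · exact (Finsupp.mem_supported _ _).mp hl1 ht
  · rw [← hl2, Finsupp.linearCombination_apply, Finsupp.sum]
    refine Finset.sum_congr rfl (fun t _ => ?_)
    rw [Subfield.smul_def, smul_eq_mul]

lemma A_sum_le (T : Finset ℝ) (a : ℝ → M) (hT : ∀ t ∈ T, 𝒟.IsG t) (ha : ∀ t, a t ∈ 𝒟.k) (y : ℝ)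
    (hy : ∀ t ∈ T, a t ≠ 0 → y ≤ t) : 𝒟.A (∑ t ∈ T, a t * 𝒟.sec t) ≤ Real.exp (-y) := by
  refine sum_le_of_na 𝒟.naA _ _ _ (Real.exp_pos _).le (fun t ht => ?_)
  by_cases h0 : a t = 0
  · rw [h0, zero_mul, map_zero]; exact (Real.exp_pos _).le
  · rw [map_mul, 𝒟.A_k _ (ha t) h0, one_mul, 𝒟.A_sec (hT t ht)]
    exact Real.exp_le_exp.mpr (neg_le_neg (hy t ht h0))

lemma B_sum_le (T : Finset ℝ) (a : ℝ → M) (hT : ∀ t ∈ T, 𝒟.IsG t) (ha : ∀ t, a t ∈ 𝒟.k) (y : ℝ)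
    (hy : ∀ t ∈ T, a t ≠ 0 → y ≤ t) : 𝒟.B (∑ t ∈ T, a t * 𝒟.sec t) ≤ Real.exp (-y) := by
  refine sum_le_of_na 𝒟.naB _ _ _ (Real.exp_pos _).le (fun t ht => ?_)
  by_cases h0 : a t = 0
  · rw [h0, zero_mul, map_zero]; exact (Real.exp_pos _).le
  · rw [map_mul, 𝒟.B_k _ (ha t) h0, one_mul, 𝒟.B_sec (hT t ht)]
    exact Real.exp_le_exp.mpr (neg_le_neg (hy t ht h0))

lemma N_sum_le (T : Finset ℝ) (a : ℝ → M) (hT : ∀ t ∈ T, 𝒟.IsG t) (ha : ∀ t, a t ∈ 𝒟.k) (y : ℝ)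
    (hy : ∀ t ∈ T, a t ≠ 0 → t ≤ y) :
    𝒟.N (∑ t ∈ T, a t * 𝒟.sec t) ≤ Real.exp ((𝒟.α + 𝒟.β) * y) := by
  refine sum_le_of_na 𝒟.naN _ _ _ (Real.exp_pos _).le (fun t ht => ?_)
  by_cases h0 : a t = 0
  · rw [h0, zero_mul, map_zero]; exact (Real.exp_pos _).le
  · rw [map_mul, 𝒟.N_k _ (ha t) h0, one_mul, 𝒟.N_sec (hT t ht)]
    refine Real.exp_le_exp.mpr (mul_le_mul_of_nonneg_left (hy t ht h0) ?_)
    have := 𝒟.α_pos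
    have := 𝒟.β_pos
    linarith

/-- The value of a combination is at least the value of each of its terms. -/
lemma le_A_sum (T : Finset ℝ) (a : ℝ → M) (hT : ∀ t ∈ T, 𝒟.IsG t) (ha : ∀ t, a t ∈ 𝒟.k) (t : ℝ)
    (ht : t ∈ T) (h0 : a t ≠ 0) : Real.exp (-t) ≤ 𝒟.A (∑ t ∈ T, a t * 𝒟.sec t) := by
  classical
  set T' := T.filter (fun t => a t ≠ 0) with hT'
  have hsum : ∑ t ∈ T, a t * 𝒟.sec t = ∑ t ∈ T', a t * 𝒟.sec t := by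
    rw [hT', Finset.sum_filter]
    refine Finset.sum_congr rfl (fun u _ => ?_)
    by_cases hu : a u = 0
    · simp [hu]
    · simp [hu]
  have htT' : t ∈ T' := Finset.mem_filter.mpr ⟨ht, h0⟩
  have hne : T'.Nonempty := ⟨t, htT'⟩
  set m := T'.min' hne with hm
  have hmT' : m ∈ T' := Finset.min'_mem _ _
  have hmT := (Finset.mem_filter.mp hmT').1
  have hm0 := (Finset.mem_filter.mp hmT').2
  have hval : ∀ u ∈ T', 𝒟.A (a u * 𝒟.sec u) = Real.exp (-u) := by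
    intro u hu
    have hu' := Finset.mem_filter.mp hu
    rw [map_mul, 𝒟.A_k _ (ha u) hu'.2, one_mul, 𝒟.A_sec (hT u hu'.1)]
  rw [hsum, IsNonarchimedean.apply_sum_eq_of_lt 𝒟.naA (fun a => (𝒟.A.map_neg a).symm) hmT', hval m hmT']
  · exact Real.exp_le_exp.mpr (neg_le_neg (Finset.min'_le _ _ htT'))
  · intro j hj hjm
    rw [hval j hj, hval m hmT']
    refine Real.exp_lt_exp.mpr (neg_lt_neg ?_)
    exact lt_of_le_of_ne (Finset.min'_le _ _ hj) (Ne.symm hjm)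

/-- `L` is not only contained in its fraction field, it is made of elements with `A = B`. -/
lemma A_eq_B_of_mem_L {z : M} (h : z ∈ 𝒟.L) : 𝒟.A z = 𝒟.B z := by
  classical
  obtain ⟨a, ha1, ha2⟩ := 𝒟.exists_rep h
  by_cases hz : a.support.Nonempty
  · set m := a.support.min' hz with hm
    have hmS : m ∈ a.support := Finset.min'_mem _ _
    have hvalA : ∀ u ∈ a.support, 𝒟.A ((a u : M) * 𝒟.sec u) = Real.exp (-u) := by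
      intro u hu
      rw [map_mul, 𝒟.A_k _ (a u).2 (by simpa using hu), one_mul, 𝒟.A_sec (ha1 u hu)]
    have hvalB : ∀ u ∈ a.support, 𝒟.B ((a u : M) * 𝒟.sec u) = Real.exp (-u) := by
      intro u hu
      rw [map_mul, 𝒟.B_k _ (a u).2 (by simpa using hu), one_mul, 𝒟.B_sec (ha1 u hu)]
    have hlt : ∀ j ∈ a.support, j ≠ m → Real.exp (-j) < Real.exp (-m) := by
      intro j hj hjm
      refine Real.exp_lt_exp.mpr (neg_lt_neg ?_)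
      exact lt_of_le_of_ne (Finset.min'_le _ _ hj) (Ne.symm hjm)
    rw [ha2, IsNonarchimedean.apply_sum_eq_of_lt 𝒟.naA (fun a => (𝒟.A.map_neg a).symm) hmS,
      IsNonarchimedean.apply_sum_eq_of_lt 𝒟.naB (fun a => (𝒟.B.map_neg a).symm) hmS,
      hvalA m hmS, hvalB m hmS]
    · intro j hj hjm
      rw [hvalB j hj, hvalB m hmS]
      exact hlt j hj hjm
    · intro j hj hjm
      rw [hvalA j hj, hvalA m hmS]
      exact hlt j hj hjm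
  · rw [Finset.not_nonempty_iff_eq_empty] at hz
    rw [ha2, hz]
    simp

end Data

end Pool.Agent.H51.Coll
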