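import Mathlib

/-!
Foelner sets in finitely generated subgroups of `ℝ` and a window-counting lemma.
-/

set_option autoImplicit false

namespace Pool.Agent.H51.Coll

open Finset Filter
open scoped Pointwise

/-- Iterated sumsets. -/
noncomputable def iterSum (S : Finset ℝ) : ℕ → Finset ℝ
  | 0 => {0}
  | n + 1 => iterSum S n + S

lemma iterSum_nonempty (S : Finset ℝ) (hS : S.Nonempty) (n : ℕ) : (iterSum S n).Nonempty := by
  induction n with
  | zero => exact ⟨0, by simp [iterSum]⟩
  | succ n ih => exact ih.add hS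

lemma mem_iterSum (S : Finset ℝ) (n : ℕ) : ∀ x ∈ iterSum S n,
    ∃ f : ℝ → ℕ, (∀ s, f s ≤ n) ∧ x = ∑ s ∈ S, (f s : ℝ) * s := by
  induction n with
  | zero =>
    intro x hx
    simp only [iterSum, Finset.mem_singleton] at hx
    exact ⟨fun _ => 0, by simp, by simp [hx]⟩
  | succ n ih =>
    intro x hx
    simp only [iterSum] at hx
    obtain ⟨y, hy, s, hs, rfl⟩ := Finset.mem_add.mp hx
    obtain ⟨f, hf, hfy⟩ := ih y hy
    refine ⟨fun t => f t + if t = s then 1 else 0, ?_, ?_⟩
    · intro t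
      have := hf t
      dsimp only
      split_ifs <;> omega
    · rw [hfy]
      push_cast
      simp only [add_mul, Finset.sum_add_distrib]
      congr 1
      simp [Finset.sum_ite_eq', hs]

lemma iterSum_card (S : Finset ℝ) (n : ℕ) : (iterSum S n).card ≤ (n + 1) ^ S.card := by
  classical
  have hsub : iterSum S n ⊆ (Fintype.piFinset (fun _ : S => Finset.range (n + 1))).image
      (fun f => ∑ s : S, (f s : ℝ) * (s : ℝ)) := by
    intro x hx
    obtain ⟨f, hf, hfx⟩ := mem_iterSum S n x hx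
    rw [Finset.mem_image]
    refine ⟨fun s => f s, ?_, ?_⟩
    · rw [Fintype.mem_piFinset]
      intro s
      rw [Finset.mem_range]
      have := hf s
      omega
    · rw [hfx, ← Finset.sum_coe_sort S (fun s => (f s : ℝ) * s)]
  calc (iterSum S n).card ≤ _ := Finset.card_le_card hsub
    _ ≤ _ := Finset.card_image_le
    _ = (n + 1) ^ S.card := by
      rw [Fintype.card_piFinset]
      simp

/-- Foelner sets. -/
lemma exists_folner (S : Finset ℝ) (hS : S.Nonempty) (ε : ℝ) (hε : 0 < ε) :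
    ∃ n : ℕ, (((iterSum S n + S).card : ℕ) : ℝ) ≤ (1 + ε) * (iterSum S n).card := by
  by_contra hcon
  push Not at hcon
  have hgrow : ∀ n : ℕ, (1 + ε) ^ n ≤ ((iterSum S n).card : ℝ) := by
    intro n
    induction n with
    | zero => simp [iterSum]
    | succ n ih =>
      have h1 := hcon n
      have h2 : iterSum S (n + 1) = iterSum S n + S := rfl
      rw [h2, pow_succ]
      have : (1 + ε) ^ n * (1 + ε) ≤ (1 + ε) * (iterSum S n).card := by
        rw [mul_comm]
        exact mul_le_mul_of_nonneg_left ih (by positivity)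
      linarith
  have hlim := tendsto_pow_const_div_const_pow_of_one_lt (S.card) (show (1:ℝ) < 1 + ε by linarith)
  have hev := (hlim.eventually (gt_mem_nhds (show (0:ℝ) < 1 / 2 ^ S.card by positivity)))
  obtain ⟨N, hN⟩ := (hev.and (eventually_ge_atTop 1)).exists
  obtain ⟨hN1, hN2⟩ := hN
  have h3 : ((N:ℝ) + 1) ^ S.card < (1 + ε) ^ N := by
    have hpos : (0:ℝ) < (1 + ε) ^ N := by positivity
    rw [div_lt_div_iff₀ hpos (by positivity), one_mul] at hN1
    have hN2' : (1:ℝ) ≤ N := by exact_mod_cast hN2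
    calc ((N:ℝ) + 1) ^ S.card ≤ (N * 2) ^ S.card := by
          apply pow_le_pow_left₀ (by positivity); linarith
      _ = (N:ℝ) ^ S.card * 2 ^ S.card := by rw [mul_pow]
      _ < (1 + ε) ^ N := hN1
  have h4 : ((iterSum S N).card : ℝ) ≤ ((N:ℝ) + 1) ^ S.card := by exact_mod_cast iterSum_card S N
  linarith [hgrow N]

lemma card_window_le (t : ℝ) (a b : ℕ) (X : Finset ℤ) :
    (X.filter (fun x : ℤ => (x:ℝ) - b ≤ t ∧ t < x + a)).card ≤ a + b := by
  have hsub : X.filter (fun x : ℤ => (x:ℝ) - b ≤ t ∧ t < x + a) ⊆ Finset.Ioc (⌊t⌋ - a) (⌊t⌋ + b) := by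
    intro x hx
    rw [Finset.mem_filter] at hx
    obtain ⟨_, h1, h2⟩ := hx
    rw [Finset.mem_Ioc]
    constructor
    · have : t < ((x + a : ℤ) : ℝ) := by push_cast; exact h2
      have := Int.floor_lt.mpr this
      omega
    · have : ((x - b : ℤ) : ℝ) ≤ t := by push_cast; exact h1
      have := Int.le_floor.mpr this
      omega
  calc _ ≤ _ := Finset.card_le_card hsub
    _ = a + b := by
      rw [Int.card_Ioc]
      have : (⌊t⌋ + (b:ℤ) - (⌊t⌋ - (a:ℤ))) = ((a + b : ℕ) : ℤ) := by push_cast; ring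
      rw [this, Int.toNat_natCast]

lemma card_window_ge (t : ℝ) (a : ℕ) (B : ℤ) (h1 : -B ≤ ⌊t⌋ - a) (h2 : ⌊t⌋ < B) :
    ((Finset.Ico (-B) B).filter (fun x : ℤ => (x:ℝ) ≤ t ∧ t < x + a)).card = a := by
  have heq : (Finset.Ico (-B) B).filter (fun x : ℤ => (x:ℝ) ≤ t ∧ t < x + a) =
      Finset.Ioc (⌊t⌋ - a) ⌊t⌋ := by
    ext x
    rw [Finset.mem_filter, Finset.mem_Ico, Finset.mem_Ioc]
    constructor
    · rintro ⟨_, h3, h4⟩
      constructor
      · have : t < ((x + a : ℤ) : ℝ) := by push_cast; exact h4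
        have := Int.floor_lt.mpr this
        omega
      · exact Int.le_floor.mpr h3
    · rintro ⟨h3, h4⟩
      refine ⟨⟨by omega, by omega⟩, Int.le_floor.mp h4, ?_⟩
      have : ⌊t⌋ < x + a := by omega
      have := Int.floor_lt.mp this
      push_cast at this
      exact this
  rw [heq, Int.card_Ioc]
  have : (⌊t⌋ - (⌊t⌋ - (a:ℤ))) = (a : ℤ) := by ring
  rw [this, Int.toNat_natCast]

/-- Window counting: a pigeonhole over integer translates. -/
lemma exists_window (F S0 : Finset ℝ) (D R C h d : ℕ)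
    (hF : d * (R + C) * (F + S0).card < h * D * F.card) :
    ∃ x : ℤ, d * ((F + S0).filter (fun t : ℝ => (x:ℝ) - C ≤ t ∧ t < x + R)).card <
      h * (F.filter (fun t : ℝ => (x:ℝ) ≤ t ∧ t < x + D)).card := by
  classical
  by_contra hcon
  push Not at hcon
  -- choose a large bound
  obtain ⟨B, hB⟩ : ∃ B : ℤ, ∀ t ∈ F, -B ≤ ⌊t⌋ - D ∧ ⌊t⌋ < B := by
    have : ∃ B : ℤ, ∀ t ∈ F, |⌊t⌋| + D < B := by
      induction F using Finset.induction_on with
      | empty => exact ⟨0, by simp⟩
      | insert a F ha ih => 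
        clear ih hcon hF
        refine ⟨∑ t ∈ insert a F, (|⌊t⌋| + D) + 1, ?_⟩
        intro t ht
        have := Finset.single_le_sum (f := fun t : ℝ => |⌊t⌋| + (D:ℤ)) (s := insert a F)
          (fun i _ => by positivity) ht
        omega
    obtain ⟨B, hB⟩ := this
    refine ⟨B, fun t ht => ?_⟩
    have h1 := hB t ht
    have h2 := neg_abs_le ⌊t⌋
    have h3 := le_abs_self ⌊t⌋
    omega
  have hsum := Finset.sum_le_sum (s := Finset.Ico (-B) B) (fun x _ => hcon x)
  have hL : ∑ x ∈ Finset.Ico (-B) B, h * (F.filter (fun t : ℝ => (x:ℝ) ≤ t ∧ t < x + D)).card =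
      h * D * F.card := by
    rw [← Finset.mul_sum]
    have : ∑ x ∈ Finset.Ico (-B) B, (F.filter (fun t : ℝ => (x:ℝ) ≤ t ∧ t < x + D)).card =
        ∑ t ∈ F, D := by
      simp only [Finset.card_filter]
      rw [Finset.sum_comm]
      refine Finset.sum_congr rfl (fun t ht => ?_)
      rw [← Finset.card_filter]
      exact card_window_ge t D B (hB t ht).1 (hB t ht).2
    rw [this, Finset.sum_const, smul_eq_mul]
    ring
  have hR : ∑ x ∈ Finset.Ico (-B) B,
      d * ((F + S0).filter (fun t : ℝ => (x:ℝ) - C ≤ t ∧ t < x + R)).card ≤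
      d * (R + C) * (F + S0).card := by
    rw [← Finset.mul_sum, mul_assoc]
    refine Nat.mul_le_mul_left _ ?_
    simp only [Finset.card_filter]
    rw [Finset.sum_comm]
    calc ∑ t ∈ F + S0, ∑ x ∈ Finset.Ico (-B) B, (if (x:ℝ) - C ≤ t ∧ t < x + R then 1 else 0)
        ≤ ∑ t ∈ F + S0, (R + C) := by
          refine Finset.sum_le_sum (fun t _ => ?_)
          rw [← Finset.card_filter]
          exact card_window_le t R C _
      _ = (R + C) * (F + S0).card := by rw [Finset.sum_const, smul_eq_mul, mul_comm]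
  omega

end Pool.Agent.H51.Coll
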