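import Pool.Agent.H51.Coll.CompDefs
import Pool.Agent.H30.Asym

/-!
Parity words of trajectories: aperiodicity, and a lower bound for the frequency of odd terms when
the complexity is sublinear.
-/

set_option autoImplicit false

namespace Pool.Agent.H51.Coll

open Filter Pool.Agent.H30

/-- The parity word of the trajectory of `n₀`: `true` at `k` iff `T^k(n₀)` is odd. -/
def parity (n₀ : ℤ) (k : ℕ) : Bool := decide (T^[k] n₀ % 2 ≠ 0)

theorem two_pow_dvd_of_par_eq (n : ℕ) : ∀ x y : ℤ, (∀ l < n, par (T^[l] x) = par (T^[l] y)) →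
    (2:ℤ) ^ n ∣ x - y := by
  induction n with
  | zero => intro x y _; simp
  | succ n ih =>
    intro x y h
    have h0 : par x = par y := h 0 (by omega)
    have h1 : (2:ℤ) ^ n ∣ T x - T y := ih (T x) (T y) (fun l hl => h (l + 1) (by omega))
    have hx := two_mul_T x
    have hy := two_mul_T y
    rw [← h0] at hy
    have h2 : 2 * (T x - T y) = 3 ^ par x * (x - y) := by linear_combination hx - hy
    have h3 : (2:ℤ) ^ (n + 1) ∣ 3 ^ par x * (x - y) := by
      rw [← h2, pow_succ']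
      exact mul_dvd_mul_left 2 h1
    have hc : IsCoprime ((2:ℤ) ^ (n + 1)) (3 ^ par x) := by
      apply IsCoprime.pow
      exact ⟨-1, 1, by norm_num⟩
    exact hc.dvd_of_dvd_mul_left h3

theorem par_eq_of_decide {x y : ℤ} (h : decide (x % 2 ≠ 0) = decide (y % 2 ≠ 0)) :
    par x = par y := by
  unfold par
  by_cases hx : x % 2 = 0 <;> by_cases hy : y % 2 = 0 <;> simp_all

/-- Equal factors of length `n` of the parity word give congruent iterates modulo `2^n`. -/
theorem modEq_of_fac_eq (n₀ : ℤ) (n i j : ℕ) (h : fac (parity n₀) n i = fac (parity n₀) n j) :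
    (2:ℤ) ^ n ∣ T^[i] n₀ - T^[j] n₀ := by
  apply two_pow_dvd_of_par_eq
  intro l hl
  have h1 := congrFun h ⟨l, hl⟩
  simp only [fac, parity] at h1
  rw [← Function.iterate_add_apply, ← Function.iterate_add_apply, add_comm l i, add_comm l j]
  exact par_eq_of_decide h1

/-- The number of odd terms in a window. -/
theorem cnt_parity (n₀ : ℤ) (i n : ℕ) : cnt (parity n₀) i n = S n (T^[i] n₀) := by
  unfold cnt S
  rw [Finset.card_filter]
  apply Finset.sum_congr rfl
  intro l _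
  unfold bit par parity
  rw [← Function.iterate_add_apply, add_comm l i]
  by_cases hx : T^[i + l] n₀ % 2 = 0 <;> simp [hx]

/-- The parity word of a divergent trajectory is not eventually periodic. -/
theorem aperiodic_of_div (n₀ : ℤ) (hdiv : Div n₀) : Aperiodic (parity n₀) := by
  intro k₀ p hp
  by_contra hcon
  push Not at hcon
  have hd : ∀ n : ℕ, (2:ℤ) ^ n ∣ T^[k₀ + p] n₀ - T^[k₀] n₀ := by
    intro n
    apply modEq_of_fac_eq
    funext l
    simp only [fac]
    have := hcon (k₀ + l) (by omega)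
    rw [← this]
    congr 1
    omega
  have h0 : T^[k₀ + p] n₀ - T^[k₀] n₀ = 0 := by
    by_contra hne
    have h1 := Int.le_of_dvd (abs_pos.mpr hne)
      ((dvd_abs _ _).mpr (hd (T^[k₀ + p] n₀ - T^[k₀] n₀).natAbs))
    rw [Int.abs_eq_natAbs] at h1
    have h2 : (T^[k₀ + p] n₀ - T^[k₀] n₀).natAbs < 2 ^ (T^[k₀ + p] n₀ - T^[k₀] n₀).natAbs :=
      Nat.lt_two_pow_self
    have h3 : ((T^[k₀ + p] n₀ - T^[k₀] n₀).natAbs : ℤ)
        < 2 ^ (T^[k₀ + p] n₀ - T^[k₀] n₀).natAbs := by exact_mod_cast h2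
    linarith
  have := hdiv.inj (k₀ + p) k₀ (by linarith)
  omega

/-- Upper bound for the iterates. -/
theorem iter_le (n₀ : ℤ) (hdiv : Div n₀) : ∃ B : ℝ, 0 < B ∧ ∀ k : ℕ,
    |(T^[k] n₀ : ℝ)| ≤ B * 3 ^ (S k n₀) / 2 ^ k := by
  obtain ⟨C₀, -, h⟩ := asym
  obtain ⟨L, -, hL, -⟩ := h n₀ hdiv
  obtain ⟨B, hB⟩ := hL.abs.bddAbove_range
  refine ⟨|B| + 1, by positivity, fun k => ?_⟩
  have h1 : |u n₀ k| ≤ B := hB ⟨k, rfl⟩
  have h2 : |u n₀ k| = 2 ^ k * |(T^[k] n₀ : ℝ)| / 3 ^ (S k n₀) := by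
    unfold u
    rw [abs_div, abs_mul, abs_of_pos (show (0:ℝ) < 2 ^ k by positivity),
      abs_of_pos (show (0:ℝ) < 3 ^ (S k n₀) by positivity)]
  rw [h2, div_le_iff₀ (by positivity)] at h1
  rw [le_div_iff₀ (by positivity)]
  have h3 : B ≤ |B| + 1 := by linarith [le_abs_self B]
  have h4 : (0:ℝ) < 3 ^ (S k n₀) := by positivity
  nlinarith

/-- If the parity word of a divergent trajectory has frequency `θ` and at most linear
complexity at infinitely many lengths, then `θ > log 2 / log 3`. -/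
theorem freq_gt (n₀ : ℤ) (hdiv : Div n₀) (θ : ℝ) (hθ : Freq (parity n₀) θ) (K : ℕ)
    (hK : ∃ᶠ n in atTop, complexity (parity n₀) n ≤ K * n) :
    Real.log 2 / Real.log 3 < θ := by
  by_contra hcon
  push Not at hcon
  have ha : 0 < Real.log 2 := Real.log_pos (by norm_num)
  have hb : 0 < Real.log 3 := Real.log_pos (by norm_num)
  obtain ⟨B, hB, hiter⟩ := iter_le n₀ hdiv
  obtain ⟨D, hD⟩ := hθ (Real.log 2 / (2 * (K + 1) * Real.log 3)) (by positivity)
  -- a large length
  obtain ⟨N, hN⟩ := exists_nat_gt (2 * (Real.log B + D * Real.log 3 + Real.log 2) / Real.log 2)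
  obtain ⟨n, hnN, hn⟩ := (frequently_atTop.mp hK) N
  -- pigeonhole
  have hfin : (Set.range (fac (parity n₀) n)).Finite := Set.toFinite _
  obtain ⟨i, hi, j, hj, hij, hf⟩ := Finset.exists_ne_map_eq_of_card_lt_of_maps_to
    (s := Finset.range (K * n + 1)) (t := hfin.toFinset) (f := fac (parity n₀) n)
    (by
      rw [Finset.card_range, ← Set.ncard_eq_toFinset_card _ hfin]
      exact Nat.lt_succ_of_le hn)
    (by intro k _; simp)
  have hdvd := modEq_of_fac_eq n₀ n i j hf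
  have hne : T^[i] n₀ - T^[j] n₀ ≠ 0 := by
    intro h0
    exact hij (hdiv.inj i j (by linarith))
  have hge : (2:ℤ) ^ n ≤ |T^[i] n₀ - T^[j] n₀| :=
    Int.le_of_dvd (abs_pos.mpr hne) ((dvd_abs _ _).mpr hdvd)
  have hge' : (2:ℝ) ^ n ≤ |(T^[i] n₀ : ℝ)| + |(T^[j] n₀ : ℝ)| := by
    have h1 : ((2:ℤ) ^ n : ℝ) ≤ |(T^[i] n₀ : ℝ) - (T^[j] n₀ : ℝ)| := by exact_mod_cast hge
    push_cast at h1
    exact h1.trans (abs_sub _ _)
  obtain ⟨k, hk, hk2⟩ : ∃ k : ℕ, k ≤ K * n ∧ (2:ℝ) ^ n / 2 ≤ |(T^[k] n₀ : ℝ)| := by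
    rw [Finset.mem_range] at hi hj
    rcases le_total ((2:ℝ) ^ n / 2) |(T^[i] n₀ : ℝ)| with h | h
    · exact ⟨i, by omega, h⟩
    · exact ⟨j, by omega, by linarith⟩
  have h1 := hk2.trans (hiter k)
  have h2 : Real.log ((2:ℝ) ^ n / 2) ≤ Real.log (B * 3 ^ (S k n₀) / 2 ^ k) :=
    Real.log_le_log (by positivity) h1
  rw [Real.log_div (by positivity) (by norm_num), Real.log_div (by positivity) (by positivity),
    Real.log_mul (by positivity) (by positivity), Real.log_pow, Real.log_pow, Real.log_pow] at h2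
  have h3 := hD k
  rw [cnt_parity, Function.iterate_zero, id_eq] at h3
  have h4 : (S k n₀ : ℝ) ≤ θ * k + Real.log 2 / (2 * (K + 1) * Real.log 3) * k + D := by
    linarith [(abs_le.mp h3).2]
  have h5 : θ * Real.log 3 ≤ Real.log 2 := by
    rwa [le_div_iff₀ hb] at hcon
  have hk' : (k : ℝ) ≤ K * n := by exact_mod_cast hk
  have hk0 : (0 : ℝ) ≤ k := Nat.cast_nonneg k
  have hKp : (0 : ℝ) < K + 1 := by positivity
  have h6 : (S k n₀ : ℝ) * Real.log 3 ≤ k * Real.log 2 + n * Real.log 2 / 2 + D * Real.log 3 := by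
    have e1 : (S k n₀ : ℝ) * Real.log 3
        ≤ (θ * k + Real.log 2 / (2 * (K + 1) * Real.log 3) * k + D) * Real.log 3 := by gcongr
    have e2 : (θ * k + Real.log 2 / (2 * (K + 1) * Real.log 3) * k + D) * Real.log 3
        = (θ * Real.log 3) * k + Real.log 2 * (k / (2 * (K + 1))) + D * Real.log 3 := by
      field_simp
    have e3 : (θ * Real.log 3) * k ≤ Real.log 2 * k := by gcongr
    have e4 : (k : ℝ) / (2 * (K + 1)) ≤ n / 2 := by
      rw [div_le_div_iff₀ (by positivity) (by norm_num)]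
      have : (0 : ℝ) ≤ n := Nat.cast_nonneg n
      nlinarith
    have e5 : Real.log 2 * (k / (2 * (K + 1))) ≤ Real.log 2 * (n / 2) := by gcongr
    linarith
  have hnN' : (N : ℝ) ≤ n := by exact_mod_cast hnN
  have h7 : 2 * (Real.log B + D * Real.log 3 + Real.log 2) / Real.log 2 < n := lt_of_lt_of_le hN hnN'
  rw [div_lt_iff₀ ha] at h7
  linarith

end Pool.Agent.H51.Coll
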