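import Pool.Agent.H51.Coll.Data
import Pool.Agent.H51.Coll.Folner

/-!
The key lemma: auxiliary elements.
-/

set_option autoImplicit false

namespace Pool.Agent.H51.Coll

open Finset
open scoped Pointwise

/-- Underdetermined homogeneous linear systems have nonzero solutions. -/
lemma exists_ne_zero_solution {k ι κ : Type} [Field k] [Fintype ι] [Fintype κ]
    (h : Fintype.card κ < Fintype.card ι) (Mt : κ → ι → k) :
    ∃ P : ι → k, P ≠ 0 ∧ ∀ s, ∑ i, Mt s i * P i = 0 := by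
  have hlt : Module.finrank k (κ → k) < Module.finrank k (ι → k) := by
    rw [Module.finrank_fintype_fun_eq_card, Module.finrank_fintype_fun_eq_card]
    exact h
  have hker := LinearMap.ker_ne_bot_of_finrank_lt (f := Matrix.mulVecLin (Matrix.of Mt)) hlt
  obtain ⟨P, hP, hP0⟩ := (Submodule.ne_bot_iff _).mp hker
  refine ⟨P, hP0, fun s => ?_⟩
  have h1 : Matrix.mulVecLin (Matrix.of Mt) P = 0 := hP
  have h2 := congrFun h1 s
  simpa [Matrix.mulVec, dotProduct] using h2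

namespace Data

variable {M : Type} [Field M] (𝒟 : Data M)

lemma exists_common_den {h : ℕ} (b : Fin h → M) :
    ∃ w ∈ 𝒟.O, w ≠ 0 ∧ ∀ i, w * b i ∈ 𝒟.O := by
  classical
  choose w hw1 hw2 hw3 using fun i => 𝒟.frac (b i)
  refine ⟨∏ i, w i, Subring.prod_mem _ (fun i _ => hw1 i), Finset.prod_ne_zero_iff.mpr (fun i _ => hw2 i), ?_⟩
  intro i
  rw [← Finset.mul_prod_erase Finset.univ w (Finset.mem_univ i)]
  have : (w i * ∏ x ∈ univ.erase i, w x) * b i = (w i * b i) * ∏ x ∈ univ.erase i, w x := by ring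
  rw [this]
  exact 𝒟.O.mul_mem (hw3 i) (Subring.prod_mem _ (fun i _ => hw1 i))

lemma isG_iterSum (S : Finset ℝ) (hS : ∀ t ∈ S, 𝒟.IsG t) (n : ℕ) : ∀ t ∈ iterSum S n, 𝒟.IsG t := by
  induction n with
  | zero =>
    intro t ht
    simp only [iterSum, Finset.mem_singleton] at ht
    rw [ht]
    exact 𝒟.isG_zero
  | succ n ih =>
    intro t ht
    simp only [iterSum] at ht
    obtain ⟨y, hy, s, hs, rfl⟩ := Finset.mem_add.mp ht
    exact 𝒟.isG_add (ih y hy) (hS s hs)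

/-- The core: auxiliary elements at one scale. -/
lemma key_core {h d : ℕ} (b : Fin h → M) (b' : Fin d → M)
    (hind : ∀ p : Fin h → M, (∀ i, p i ∈ 𝒟.L) → ∑ i, p i * b i = 0 → ∀ i, p i = 0)
    (hbO : ∀ i, b i ∈ 𝒟.O)
    (C₁ : ℝ) (hC₁ : 1 ≤ C₁) (hA' : ∀ s, 𝒟.A (b' s) ≤ C₁) (hB : ∀ i, 𝒟.B (b i) ≤ C₁)
    (hN : ∀ i, 𝒟.N (b i) ≤ C₁) (C R D : ℕ) (hC : 1 ≤ C)
    (m : ℝ) (hdm : (d : ℝ) < m * h) (hm : m * (R + C) ≤ D)
    (l : Fin h → Fin d → M) (hlL : ∀ i s, l i s ∈ 𝒟.L) (hlA : ∀ i s, 𝒟.A (l i s) ≤ Real.exp C)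
    (happ : ∀ i, 𝒟.A (b i - ∑ s, l i s * b' s) ≤ C₁ * Real.exp (-R)) :
    1 ≤ C₁ ^ (𝒟.α + 𝒟.β + 1) * Real.exp (-𝒟.α * R + (𝒟.α + 𝒟.β) * D) := by
  classical
  choose a ha1 ha2 using fun i s => 𝒟.exists_rep (hlL i s)
  -- the support set
  set S0 : Finset ℝ := insert 0 (univ.biUnion fun i => univ.biUnion fun s => (a i s).support) with hS0
  have hsub : ∀ i s, (a i s).support ⊆ S0 := by
    intro i s t ht
    rw [hS0, Finset.mem_insert]
    right
    rw [Finset.mem_biUnion]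
    exact ⟨i, mem_univ _, Finset.mem_biUnion.mpr ⟨s, mem_univ _, ht⟩⟩
  have hS0G : ∀ t ∈ S0, 𝒟.IsG t := by
    intro t ht
    rw [hS0, Finset.mem_insert] at ht
    rcases ht with rfl | ht
    · exact 𝒟.isG_zero
    · obtain ⟨i, _, hi⟩ := Finset.mem_biUnion.mp ht
      obtain ⟨s, _, hs⟩ := Finset.mem_biUnion.mp hi
      exact ha1 i s t hs
  have hS0C : ∀ t ∈ S0, -(C:ℝ) ≤ t := by
    intro t ht
    rw [hS0, Finset.mem_insert] at ht
    rcases ht with rfl | ht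
    · simp
    · obtain ⟨i, _, hi⟩ := Finset.mem_biUnion.mp ht
      obtain ⟨s, _, hs⟩ := Finset.mem_biUnion.mp hi
      have h1 := 𝒟.le_A_sum (a i s).support (fun t => ((a i s) t : M)) (ha1 i s)
        (fun t => ((a i s) t).2) t hs (by simpa using hs)
      rw [← ha2 i s] at h1
      have h2 := h1.trans (hlA i s)
      have := Real.exp_le_exp.mp h2
      linarith
  have hl : ∀ i s, l i s = ∑ u ∈ S0, ((a i s) u : M) * 𝒟.sec u := by
    intro i s
    conv_lhs => rw [ha2 i s]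
    refine Finset.sum_subset (hsub i s) (fun u _ hu => ?_)
    have : (a i s) u = 0 := by simpa using hu
    rw [this]; simp
  -- h is positive
  have hmh : 0 < m * h := lt_of_le_of_lt (Nat.cast_nonneg d) hdm
  -- Foelner set
  obtain ⟨n, hn⟩ := exists_folner S0 ⟨0, by rw [hS0]; exact Finset.mem_insert_self _ _⟩
    ((m * h - d) / (d + 1)) (div_pos (by linarith) (by positivity))
  set F := iterSum S0 n with hF
  have hFG : ∀ t ∈ F, 𝒟.IsG t := 𝒟.isG_iterSum S0 hS0G n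
  have hFne : 0 < (F.card : ℝ) := by
    have : 0 < F.card := (iterSum_nonempty S0 ⟨0, by rw [hS0]; exact Finset.mem_insert_self _ _⟩ n).card_pos
    exact_mod_cast this
  have hcount : d * (R + C) * (F + S0).card < h * D * F.card := by
    have h1 : (d:ℝ) * (1 + (m * h - d) / (d + 1)) < m * h := by
      have hd1 : (0:ℝ) < (d:ℝ) + 1 := by positivity
      have : (d:ℝ) * (1 + (m * h - d) / (d + 1)) = (d * (d + 1) + d * (m * h - d)) / (d + 1) := by
        field_simp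
      rw [this, div_lt_iff₀ hd1]
      nlinarith
    have hRC : (0:ℝ) < (R:ℝ) + C := by
      have : (1:ℝ) ≤ C := by exact_mod_cast hC
      positivity
    have h2 : (d:ℝ) * (R + C) * (F + S0).card < h * D * F.card := by
      calc (d:ℝ) * (R + C) * (F + S0).card
          ≤ (d:ℝ) * (R + C) * ((1 + (m * h - d) / (d + 1)) * F.card) := by
            refine mul_le_mul_of_nonneg_left hn (by positivity)
        _ = ((d:ℝ) * (1 + (m * h - d) / (d + 1))) * ((R + C) * F.card) := by ring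
        _ < (m * h) * ((R + C) * F.card) := by
            refine mul_lt_mul_of_pos_right h1 (by positivity)
        _ = h * (m * (R + C)) * F.card := by ring
        _ ≤ h * D * F.card := by
            refine mul_le_mul_of_nonneg_right (mul_le_mul_of_nonneg_left hm (by positivity)) hFne.le
    exact_mod_cast h2
  obtain ⟨x, hx⟩ := exists_window F S0 D R C h d hcount
  set Ω := F.filter (fun t : ℝ => (x:ℝ) ≤ t ∧ t < x + D) with hΩ
  set Ω' := (F + S0).filter (fun t : ℝ => (x:ℝ) - C ≤ t ∧ t < x + R) with hΩ'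
  have hΩG : ∀ t ∈ Ω, 𝒟.IsG t := fun t ht => hFG t (Finset.mem_filter.mp ht).1
  -- cocycle
  have hcoc : ∀ u t : ℝ, ∃ c : 𝒟.k, 𝒟.IsG u → 𝒟.IsG t → 𝒟.sec u * 𝒟.sec t = c * 𝒟.sec (u + t) := by
    intro u t
    by_cases hut : 𝒟.IsG u ∧ 𝒟.IsG t
    · obtain ⟨hu, ht⟩ := hut
      have h3 := 𝒟.isG_add hu ht
      have h4 : 𝒟.A (𝒟.sec u * 𝒟.sec t) = 𝒟.A (𝒟.sec (u + t)) := by
        rw [map_mul, 𝒟.A_sec hu, 𝒟.A_sec ht, 𝒟.A_sec h3, ← Real.exp_add]
        congr 1; ring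
      refine ⟨⟨_, 𝒟.div_mem_k (𝒟.Γ.mul_mem (𝒟.sec_mem hu) (𝒟.sec_mem ht)) (𝒟.sec_mem h3) h4⟩, fun _ _ => ?_⟩
      simp only
      rw [div_mul_cancel₀ _ (𝒟.sec_ne h3)]
    · exact ⟨0, fun hu ht => absurd ⟨hu, ht⟩ hut⟩
  choose c hc using hcoc
  -- the linear system
  obtain ⟨P, hP0, hP⟩ := exists_ne_zero_solution (k := 𝒟.k) (ι := Fin h × Ω) (κ := Fin d × Ω')
    (by
      rw [Fintype.card_prod, Fintype.card_prod, Fintype.card_fin, Fintype.card_fin,
        Fintype.card_coe, Fintype.card_coe]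
      exact hx)
    (fun sw it => ∑ u ∈ S0, if u + (it.2 : ℝ) = (sw.2 : ℝ) then a it.1 sw.1 u * c u it.2 else 0)
  set p : Fin h → ℝ → M := fun i t => if ht : t ∈ Ω then (P (i, ⟨t, ht⟩) : M) else 0 with hp
  have hpk : ∀ i t, p i t ∈ 𝒟.k := by
    intro i t
    simp only [hp]
    split_ifs with ht
    · exact (P (i, ⟨t, ht⟩)).2
    · exact 𝒟.k.zero_mem
  set PP : Fin h → M := fun i => ∑ t ∈ Ω, p i t * 𝒟.sec t with hPP
  have hPPL : ∀ i, PP i ∈ 𝒟.L := by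
    intro i
    refine Subring.sum_mem _ (fun t ht => ?_)
    exact 𝒟.L.mul_mem (𝒟.k_le_L (hpk i t)) (𝒟.Γ_le_L (𝒟.sec_mem (hΩG t ht)))
  have hPPA : ∀ i, 𝒟.A (PP i) ≤ Real.exp (-x) := by
    intro i
    exact 𝒟.A_sum_le Ω (p i) hΩG (hpk i) x (fun t ht _ => (Finset.mem_filter.mp ht).2.1)
  have hPPB : ∀ i, 𝒟.B (PP i) ≤ Real.exp (-x) := by
    intro i
    exact 𝒟.B_sum_le Ω (p i) hΩG (hpk i) x (fun t ht _ => (Finset.mem_filter.mp ht).2.1)
  have hPPN : ∀ i, 𝒟.N (PP i) ≤ Real.exp ((𝒟.α + 𝒟.β) * (x + D)) := by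
    intro i
    exact 𝒟.N_sum_le Ω (p i) hΩG (hpk i) (x + D) (fun t ht _ => (Finset.mem_filter.mp ht).2.2.le)
  -- one of the combinations is nonzero
  obtain ⟨i₀, hi₀⟩ : ∃ i, PP i ≠ 0 := by
    obtain ⟨⟨i, t⟩, hit⟩ := Function.ne_iff.mp hP0
    refine ⟨i, fun h0 => ?_⟩
    have h1 : p i t ≠ 0 := by
      simp only [hp, dif_pos t.2]
      intro h2
      apply hit
      ext
      simpa using h2
    have h2 := 𝒟.le_A_sum Ω (p i) hΩG (hpk i) t t.2 h1
    have h3 : 𝒟.A (∑ t ∈ Ω, p i t * 𝒟.sec t) = 0 := by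
      have : (∑ t ∈ Ω, p i t * 𝒟.sec t) = PP i := rfl
      rw [this, h0, map_zero]
    rw [h3] at h2
    exact absurd h2 (not_le.mpr (Real.exp_pos _))
  -- the products
  set q : Fin d → ℝ → M := fun s w => ∑ i, ∑ u ∈ S0, ∑ t ∈ Ω,
    if u + t = w then ((a i s u : M) * c u t) * p i t else 0 with hq
  have hqk : ∀ s w, q s w ∈ 𝒟.k := by
    intro s w
    refine Subfield.sum_mem _ (fun i _ => Subfield.sum_mem _ (fun u _ => Subfield.sum_mem _ (fun t _ => ?_)))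
    split_ifs
    · exact 𝒟.k.mul_mem (𝒟.k.mul_mem (a i s u).2 (c u t).2) (hpk i t)
    · exact 𝒟.k.zero_mem
  have hprod : ∀ s, ∑ i, PP i * l i s = ∑ w ∈ F + S0, q s w * 𝒟.sec w := by
    intro s
    have h1 : ∀ i, PP i * l i s = ∑ w ∈ F + S0, (∑ u ∈ S0, ∑ t ∈ Ω,
        if u + t = w then ((a i s u : M) * c u t) * p i t else 0) * 𝒟.sec w := by
      intro i
      rw [hl i s, mul_comm, Finset.sum_mul_sum]
      simp only [Finset.sum_mul]
      rw [Finset.sum_comm (s := F + S0) (t := S0)]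
      refine Finset.sum_congr rfl (fun u hu => ?_)
      rw [Finset.sum_comm (s := F + S0) (t := Ω)]
      refine Finset.sum_congr rfl (fun t ht => ?_)
      have hut : u + t ∈ F + S0 := by
        rw [add_comm u t]
        exact Finset.add_mem_add (Finset.mem_filter.mp ht).1 hu
      simp only [ite_mul, zero_mul]
      rw [Finset.sum_ite_eq, if_pos hut]
      have := hc u t (hS0G u hu) (hΩG t ht)
      calc (a i s u : M) * 𝒟.sec u * (p i t * 𝒟.sec t) = (a i s u : M) * p i t * (𝒟.sec u * 𝒟.sec t) := by ring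
        _ = _ := by rw [this]; ring
    simp only [h1]
    rw [Finset.sum_comm]
    refine Finset.sum_congr rfl (fun w _ => ?_)
    rw [← Finset.sum_mul]
  have hq0 : ∀ s, ∀ w ∈ F + S0, q s w ≠ 0 → (x:ℝ) + R ≤ w := by
    intro s w hw hqw
    by_contra hlt
    push Not at hlt
    apply hqw
    by_cases hwC : (x:ℝ) - C ≤ w
    · have hwΩ' : w ∈ Ω' := Finset.mem_filter.mpr ⟨hw, hwC, hlt⟩
      have h1 := hP (s, ⟨w, hwΩ'⟩)
      have h2 := congrArg (fun z : 𝒟.k => (z : M)) h1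
      simp only at h2
      rw [ZeroMemClass.coe_zero] at h2
      rw [← h2]
      simp only [hq]
      push_cast
      rw [Fintype.sum_prod_type]
      refine Finset.sum_congr rfl (fun i _ => ?_)
      rw [Finset.sum_comm, ← Finset.sum_coe_sort Ω]
      refine Finset.sum_congr rfl (fun t _ => ?_)
      rw [Finset.sum_mul]
      refine Finset.sum_congr rfl (fun u _ => ?_)
      have h3 : p i t = P (i, t) := by
        simp only [hp, dif_pos t.2]
      rw [h3]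
      split_ifs <;> simp
    · push Not at hwC
      simp only [hq]
      refine Finset.sum_eq_zero (fun i _ => Finset.sum_eq_zero (fun u hu => Finset.sum_eq_zero (fun t ht => ?_)))
      rw [if_neg]
      intro hut
      have h1 := hS0C u hu
      have h2 := (Finset.mem_filter.mp ht).2.1
      linarith
  have hprodA : ∀ s, 𝒟.A (∑ i, PP i * l i s) ≤ Real.exp (-(x + R)) := by
    intro s
    rw [hprod s]
    refine 𝒟.A_sum_le (F + S0) (q s) ?_ (hqk s) (x + R) (hq0 s)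
    intro t ht
    obtain ⟨y, hy, s', hs', rfl⟩ := Finset.mem_add.mp ht
    exact 𝒟.isG_add (hFG y hy) (hS0G s' hs')
  -- the auxiliary element
  set E : M := ∑ i, PP i * b i with hE
  have hE0 : E ≠ 0 := fun h0 => hi₀ (hind PP hPPL h0 i₀)
  have hLO : ∀ z ∈ 𝒟.L, z ∈ 𝒟.O := by
    intro z hz
    have : 𝒟.L ≤ 𝒟.O := by
      rw [L, Subring.closure_le]
      rintro y (hy | hy)
      · exact 𝒟.k_le y hy
      · exact 𝒟.Γ_O y hy
    exact this hz
  have hEO : E ∈ 𝒟.O := Subring.sum_mem _ (fun i _ => 𝒟.O.mul_mem (hLO _ (hPPL i)) (hbO i))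
  have hC₁0 : 0 ≤ C₁ := by linarith
  have hEA : 𝒟.A E ≤ C₁ * Real.exp (-(x + R)) := by
    have hsplit : E = ∑ i, PP i * (b i - ∑ s, l i s * b' s) + ∑ s, (∑ i, PP i * l i s) * b' s := by
      simp only [mul_sub, Finset.sum_sub_distrib, Finset.sum_mul, Finset.mul_sum]
      rw [Finset.sum_comm (s := (univ : Finset (Fin d)))]
      simp only [mul_assoc]
      rw [hE]
      ring
    rw [hsplit]
    refine (𝒟.naA _ _).trans (max_le ?_ ?_)
    · refine sum_le_of_na 𝒟.naA _ _ _ (by positivity) (fun i _ => ?_)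
      rw [map_mul]
      calc 𝒟.A (PP i) * 𝒟.A (b i - ∑ s, l i s * b' s) ≤ Real.exp (-x) * (C₁ * Real.exp (-R)) :=
            mul_le_mul (hPPA i) (happ i) (𝒟.A.nonneg _) (Real.exp_pos _).le
        _ = C₁ * Real.exp (-(x + R)) := by
            rw [neg_add, Real.exp_add]; ring
    · refine sum_le_of_na 𝒟.naA _ _ _ (by positivity) (fun s _ => ?_)
      rw [map_mul, mul_comm]
      exact mul_le_mul (hA' s) (hprodA s) (𝒟.A.nonneg _) hC₁0
  have hEB : 𝒟.B E ≤ C₁ * Real.exp (-x) := by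
    refine sum_le_of_na 𝒟.naB _ _ _ (by positivity) (fun i _ => ?_)
    rw [map_mul, mul_comm]
    exact mul_le_mul (hB i) (hPPB i) (𝒟.B.nonneg _) hC₁0
  have hEN : 𝒟.N E ≤ C₁ * Real.exp ((𝒟.α + 𝒟.β) * (x + D)) := by
    refine sum_le_of_na 𝒟.naN _ _ _ (by positivity) (fun i _ => ?_)
    rw [map_mul, mul_comm]
    exact mul_le_mul (hN i) (hPPN i) (𝒟.N.nonneg _) hC₁0
  have hfin := 𝒟.prod E hEO hE0
  have hC₁p : 0 < C₁ := by linarith
  calc (1:ℝ) ≤ 𝒟.A E ^ 𝒟.α * 𝒟.B E ^ 𝒟.β * 𝒟.N E := hfin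
    _ ≤ (C₁ * Real.exp (-(x + R))) ^ 𝒟.α * (C₁ * Real.exp (-x)) ^ 𝒟.β *
        (C₁ * Real.exp ((𝒟.α + 𝒟.β) * (x + D))) := by
      have h1 := Real.rpow_le_rpow (𝒟.A.nonneg _) hEA 𝒟.α_pos.le
      have h2 := Real.rpow_le_rpow (𝒟.B.nonneg _) hEB 𝒟.β_pos.le
      refine mul_le_mul (mul_le_mul h1 h2 (Real.rpow_nonneg (𝒟.B.nonneg _) _) ?_) hEN (𝒟.N.nonneg _) ?_
      · positivity
      · positivity
    _ = C₁ ^ (𝒟.α + 𝒟.β + 1) * Real.exp (-𝒟.α * R + (𝒟.α + 𝒟.β) * D) := by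
      rw [Real.mul_rpow hC₁0 (Real.exp_pos _).le, Real.mul_rpow hC₁0 (Real.exp_pos _).le,
        ← Real.exp_mul, ← Real.exp_mul, Real.rpow_add hC₁p, Real.rpow_add hC₁p, Real.rpow_one]
      have : Real.exp (-𝒟.α * R + (𝒟.α + 𝒟.β) * D) = Real.exp (-(x + R) * 𝒟.α) * Real.exp (-x * 𝒟.β) *
          Real.exp ((𝒟.α + 𝒟.β) * (x + D)) := by
        rw [← Real.exp_add, ← Real.exp_add]
        congr 1
        ring
      rw [this]
      ring

/-- **Key lemma.** If `b₁,…,b_h` are independent over the monomial ring, and can be approximated by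
combinations of `b'₁,…,b'_d` with bounded coefficients, then `d / h ≥ α / (α + β)`. -/
theorem key {h d : ℕ} (b : Fin h → M) (b' : Fin d → M)
    (hind : ∀ p : Fin h → M, (∀ i, p i ∈ 𝒟.L) → ∑ i, p i * b i = 0 → ∀ i, p i = 0)
    (happ : ∃ C₀ : ℝ, ∀ ε > 0, ∃ l : Fin h → Fin d → M, (∀ i s, l i s ∈ 𝒟.L) ∧
      (∀ i s, 𝒟.A (l i s) ≤ C₀) ∧ ∀ i, 𝒟.A (b i - ∑ s, l i s * b' s) ≤ ε) :
    𝒟.α * h ≤ (𝒟.α + 𝒟.β) * d := by
  classical
  by_contra hlt
  push Not at hlt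
  have hα := 𝒟.α_pos
  have hβ := 𝒟.β_pos
  have hαβ : 0 < 𝒟.α + 𝒟.β := by linarith
  have hd0 : (0:ℝ) ≤ d := Nat.cast_nonneg d
  have hh0 : (0:ℝ) ≤ h := Nat.cast_nonneg h
  have hh : (0:ℝ) < h := by
    rcases hh0.eq_or_lt with h0 | h0
    · rw [← h0, mul_zero] at hlt
      have : 0 ≤ (𝒟.α + 𝒟.β) * d := by positivity
      linarith
    · exact h0
  obtain ⟨C₀, happ⟩ := happ
  obtain ⟨w, hwO, hw0, hwb⟩ := 𝒟.exists_common_den b
  -- constants
  obtain ⟨C, hC⟩ := exists_nat_ge (max C₀ 1)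
  have hC1 : 1 ≤ C := by
    have : (1:ℝ) ≤ C := (le_max_right _ _).trans hC
    exact_mod_cast this
  have hCe : C₀ ≤ Real.exp C := by
    have h1 : C₀ ≤ C := (le_max_left _ _).trans hC
    have h2 := Real.add_one_le_exp (C:ℝ)
    linarith
  set C₁ : ℝ := 1 + 𝒟.A w + ∑ s, 𝒟.A (w * b' s) + ∑ i, 𝒟.B (w * b i) + ∑ i, 𝒟.N (w * b i) with hC₁
  have n1 : 0 ≤ 𝒟.A w := 𝒟.A.nonneg _
  have n2 : 0 ≤ ∑ s, 𝒟.A (w * b' s) := Finset.sum_nonneg (fun s _ => 𝒟.A.nonneg _)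
  have n3 : 0 ≤ ∑ i, 𝒟.B (w * b i) := Finset.sum_nonneg (fun s _ => 𝒟.B.nonneg _)
  have n4 : 0 ≤ ∑ i, 𝒟.N (w * b i) := Finset.sum_nonneg (fun s _ => 𝒟.N.nonneg _)
  have hC₁1 : 1 ≤ C₁ := by rw [hC₁]; linarith
  have hC₁A : 𝒟.A w ≤ C₁ := by rw [hC₁]; linarith
  have hC₁A' : ∀ s, 𝒟.A (w * b' s) ≤ C₁ := by
    intro s
    have := Finset.single_le_sum (f := fun s => 𝒟.A (w * b' s)) (fun s _ => 𝒟.A.nonneg _) (mem_univ s)
    rw [hC₁]; linarith
  have hC₁B : ∀ i, 𝒟.B (w * b i) ≤ C₁ := by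
    intro i
    have := Finset.single_le_sum (f := fun i => 𝒟.B (w * b i)) (fun s _ => 𝒟.B.nonneg _) (mem_univ i)
    rw [hC₁]; linarith
  have hC₁N : ∀ i, 𝒟.N (w * b i) ≤ C₁ := by
    intro i
    have := Finset.single_le_sum (f := fun i => 𝒟.N (w * b i)) (fun s _ => 𝒟.N.nonneg _) (mem_univ i)
    rw [hC₁]; linarith
  -- the ratio
  set m : ℝ := (d / h + 𝒟.α / (𝒟.α + 𝒟.β)) / 2 with hm
  have hr : (d:ℝ) / h < 𝒟.α / (𝒟.α + 𝒟.β) := by
    rw [div_lt_div_iff₀ hh hαβ]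
    linarith
  have hm0 : 0 < m := by
    have : 0 ≤ (d:ℝ) / h := by positivity
    have : 0 < 𝒟.α / (𝒟.α + 𝒟.β) := by positivity
    rw [hm]; linarith
  have hdm : (d:ℝ) < m * h := by
    have : (d:ℝ) / h < m := by rw [hm]; linarith
    rwa [div_lt_iff₀ hh] at this
  have hmα : 0 < 𝒟.α - (𝒟.α + 𝒟.β) * m := by
    have : m < 𝒟.α / (𝒟.α + 𝒟.β) := by rw [hm]; linarith
    rw [lt_div_iff₀ hαβ] at this
    linarith
  obtain ⟨R, hR⟩ := exists_nat_gt (((𝒟.α + 𝒟.β + 1) * Real.log C₁ + (𝒟.α + 𝒟.β) * (m * C + 1)) /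
    (𝒟.α - (𝒟.α + 𝒟.β) * m))
  rw [div_lt_iff₀ hmα] at hR
  obtain ⟨l, hl1, hl2, hl3⟩ := happ (Real.exp (-R)) (Real.exp_pos _)
  have hcore := 𝒟.key_core (fun i => w * b i) (fun s => w * b' s)
    (by
      intro p hp hsum
      refine hind p hp ?_
      have h1 : ∑ i, p i * (w * b i) = w * ∑ i, p i * b i := by
        rw [Finset.mul_sum]
        exact Finset.sum_congr rfl (fun i _ => by ring)
      rw [h1] at hsum
      exact (mul_eq_zero.mp hsum).resolve_left hw0)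
    hwb C₁ hC₁1 hC₁A' hC₁B hC₁N C R ⌈m * (R + C)⌉₊ hC1 m hdm (Nat.le_ceil _) l hl1
    (fun i s => (hl2 i s).trans hCe)
    (by
      intro i
      have h1 : w * b i - ∑ s, l i s * (w * b' s) = w * (b i - ∑ s, l i s * b' s) := by
        rw [mul_sub, Finset.mul_sum]
        congr 1
        exact Finset.sum_congr rfl (fun i _ => by ring)
      rw [h1, map_mul]
      exact mul_le_mul hC₁A (hl3 i) (𝒟.A.nonneg _) (by linarith))
  have hD : (⌈m * (R + C)⌉₊ : ℝ) ≤ m * (R + C) + 1 := (Nat.ceil_lt_add_one (by positivity)).le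
  have hC₁p : 0 < C₁ := by linarith
  rw [Real.rpow_def_of_pos hC₁p, ← Real.exp_add, Real.one_le_exp_iff] at hcore
  have : (𝒟.α + 𝒟.β) * (⌈m * (R + C)⌉₊ : ℝ) ≤ (𝒟.α + 𝒟.β) * (m * (R + C) + 1) :=
    mul_le_mul_of_nonneg_left hD hαβ.le
  nlinarith

end Data

end Pool.Agent.H51.Coll
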