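import Pool.Agent.H51.Coll.WordDefs

/-!
Codings of fixed points of primitive constant-length substitutions (uniformly recurrent automatic
sequences) are linearly recurrent and have rational frequencies.
-/

set_option autoImplicit false

namespace Pool.Agent.H51.Coll

/-- The `k`-th iterate of the substitution `σ` of constant length `b`, as a function giving the
`i`-th letter (`i < b^k`) of `σ^k(a)`. -/
def substIter {A : Type} {b : ℕ} [NeZero b] (σ : A → Fin b → A) : ℕ → A → ℕ → A
  | 0, a, _ => a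
  | k + 1, a, i => σ (substIter σ k a (i / b)) (Fin.ofNat b i)

/-- Primitivity: for some `k` every letter occurs in the `k`-th iterate of every letter. -/
def Primitive {A : Type} {b : ℕ} [NeZero b] (σ : A → Fin b → A) : Prop :=
  ∃ k : ℕ, ∀ a c : A, ∃ i < b ^ k, substIter σ k a i = c

/-- `u` is a fixed point of the substitution `σ`. -/
def FixedPt {A : Type} {b : ℕ} [NeZero b] (σ : A → Fin b → A) (u : ℕ → A) : Prop :=
  ∀ n : ℕ, ∀ i : Fin b, u (b * n + i) = σ (u n) i

section aux

variable {A : Type} {b : ℕ} [NeZero b]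

theorem fixed_iter (σ : A → Fin b → A) (u : ℕ → A) (hu : FixedPt σ u) (k : ℕ) :
    ∀ n i : ℕ, i < b ^ k → u (b ^ k * n + i) = substIter σ k (u n) i := by
  induction k with
  | zero =>
    intro n i hi
    simp only [pow_zero, Nat.lt_one_iff] at hi
    subst hi
    simp [substIter]
  | succ k ih =>
    intro n i hi
    have hb : 0 < b := Nat.pos_of_ne_zero (NeZero.ne b)
    have h1 : i / b < b ^ k := by
      rw [Nat.div_lt_iff_lt_mul hb]
      simpa [pow_succ] using hi
    have h2 : b ^ (k + 1) * n + i = b * (b ^ k * n + i / b) + (Fin.ofNat b i : Fin b).val := by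
      have h3 : (Fin.ofNat b i : Fin b).val = i % b := rfl
      rw [h3]
      have h4 := Nat.div_add_mod i b
      calc b ^ (k + 1) * n + i = b * (b ^ k * n) + i := by ring
        _ = b * (b ^ k * n) + (b * (i / b) + i % b) := by rw [h4]
        _ = _ := by ring
    rw [h2, hu, ih n (i / b) h1]
    rfl

/-- `σ^(k+l)(a) = σ^l(σ^k(a))`. -/
theorem substIter_add (σ : A → Fin b → A) (k l : ℕ) :
    ∀ (a : A) (i : ℕ), i < b ^ (k + l) →
      substIter σ (k + l) a i = substIter σ l (substIter σ k a (i / b ^ l)) (i % b ^ l) := by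
  induction l with
  | zero => intro a i _; simp [substIter]
  | succ l ih =>
    intro a i hi
    have hb : 0 < b := Nat.pos_of_ne_zero (NeZero.ne b)
    have h1 : i / b < b ^ (k + l) := by
      rw [Nat.div_lt_iff_lt_mul hb]
      have : b ^ (k + (l + 1)) = b ^ (k + l) * b := by rw [← pow_succ]; rfl
      rwa [this] at hi
    have h0 : substIter σ (k + (l + 1)) a i
        = σ (substIter σ (k + l) a (i / b)) (Fin.ofNat b i) := rfl
    have h0' : ∀ x j, substIter σ (l + 1) x j = σ (substIter σ l x (j / b)) (Fin.ofNat b j) :=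
      fun x j => rfl
    rw [h0, h0', ih a (i / b) h1]
    have e1 : i / b / b ^ l = i / b ^ (l + 1) := by
      rw [Nat.div_div_eq_div_mul, pow_succ, mul_comm]
    have e2 : i / b % b ^ l = i % b ^ (l + 1) / b := by
      rw [pow_succ, mul_comm (b ^ l) b, Nat.mod_mul_right_div_self]
    have e3 : (Fin.ofNat b i : Fin b) = Fin.ofNat b (i % b ^ (l + 1)) := by
      apply Fin.ext
      change i % b = (i % b ^ (l + 1)) % b
      rw [Nat.mod_mod_of_dvd]
      exact Dvd.intro_left (b ^ l) (by rw [pow_succ])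
    rw [e1, e2, e3]

theorem primitive_succ (σ : A → Fin b → A) (k : ℕ)
    (h : ∀ a c : A, ∃ i < b ^ k, substIter σ k a i = c) :
    ∀ a c : A, ∃ i < b ^ (k + 1), substIter σ (k + 1) a i = c := by
  intro a c
  have hb : 0 < b := Nat.pos_of_ne_zero (NeZero.ne b)
  obtain ⟨i, hi, hc⟩ := h (substIter σ 1 a 0) c
  refine ⟨i, lt_of_lt_of_le hi (Nat.pow_le_pow_right hb (Nat.le_succ k)), ?_⟩
  have hlt : i < b ^ (1 + k) := lt_of_lt_of_le hi (Nat.pow_le_pow_right hb (by omega))
  rw [add_comm k 1, substIter_add σ 1 k a i hlt, Nat.div_eq_of_lt hi, Nat.mod_eq_of_lt hi, hc]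

end aux

theorem subst_linearlyRecurrent {A : Type} [Finite A] {b : ℕ} [NeZero b] (hb : 2 ≤ b)
    (σ : A → Fin b → A) (hσ : Primitive σ) (u : ℕ → A) (hu : FixedPt σ u) (φ : A → Bool) :
    LinearlyRecurrent (fun n => φ (u n)) := by
  classical
  obtain ⟨k0, hk0⟩ := hσ
  have hb0 : 0 < b := by omega
  -- every 2-letter factor occurs within the first `b^k1` letters
  have hpos : ∃ N : ℕ, ∀ q : ℕ, ∃ j : ℕ, j < N ∧ u j = u q ∧ u (j + 1) = u (q + 1) := by
    have := Fintype.ofFinite A
    -- for each pair choose a position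
    have : ∀ p : A × A, ∃ n : ℕ, (∃ q, (u q, u (q + 1)) = p) → (u n, u (n + 1)) = p := by
      intro p
      by_cases hp : ∃ q, (u q, u (q + 1)) = p
      · obtain ⟨q, hq⟩ := hp
        exact ⟨q, fun _ => hq⟩
      · exact ⟨0, fun h => absurd h hp⟩
    choose f hf using this
    refine ⟨(Finset.univ.sup f) + 1, fun q => ⟨f (u q, u (q + 1)), ?_, ?_, ?_⟩⟩
    · exact Nat.lt_succ_of_le (Finset.le_sup (Finset.mem_univ _))
    · exact congrArg Prod.fst (hf (u q, u (q + 1)) ⟨q, rfl⟩)
    · exact congrArg Prod.snd (hf (u q, u (q + 1)) ⟨q, rfl⟩)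
  obtain ⟨N, hN⟩ := hpos
  -- `k1` with `N < b^k1`
  have hk1 : N < b ^ N := Nat.lt_pow_self (by omega)
  set B := b ^ N with hB
  -- gap constant
  set G := B * (2 * b ^ k0) + B with hG
  have hgap : ∀ q J : ℕ, ∃ p : ℕ, J ≤ p ∧ p ≤ J + G ∧ u p = u q ∧ u (p + 1) = u (q + 1) := by
    intro q J
    obtain ⟨j, hjN, hj1, hj2⟩ := hN q
    -- an occurrence of `u 0` at `t = b^k0 * (n) + i`
    set n := J / (B * b ^ k0) + 1 with hn
    obtain ⟨i, hi, hi0⟩ := hk0 (u n) (u 0)
    have ht : u (b ^ k0 * n + i) = u 0 := by rw [fixed_iter σ u hu k0 n i hi, hi0]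
    have hjB : j < b ^ N := by omega
    have hjB1 : j + 1 < b ^ N := by omega
    refine ⟨B * (b ^ k0 * n + i) + j, ?_, ?_, ?_, ?_⟩
    · have hpos : 0 < B * b ^ k0 := by positivity
      have h1 := Nat.lt_div_mul_add hpos (a := J)
      have h2 : (B * b ^ k0) * n = J / (B * b ^ k0) * (B * b ^ k0) + B * b ^ k0 := by
        rw [hn]; ring
      nlinarith [Nat.zero_le (B * i)]
    · have h1 := Nat.div_mul_le_self J (B * b ^ k0)
      have h2 : (B * b ^ k0) * n = J / (B * b ^ k0) * (B * b ^ k0) + B * b ^ k0 := by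
        rw [hn]; ring
      have h3 : B * i ≤ B * b ^ k0 := Nat.mul_le_mul_left B hi.le
      have h4 : B * (b ^ k0 * n + i) + j = (B * b ^ k0) * n + B * i + j := by ring
      rw [h4, h2, hG]
      have h5 : B * (2 * b ^ k0) = B * b ^ k0 + B * b ^ k0 := by ring
      rw [h5]
      omega
    · rw [fixed_iter σ u hu N (b ^ k0 * n + i) j hjB, ht, ← hj1]
      have := fixed_iter σ u hu N 0 j hjB
      simpa using this.symm
    · rw [add_assoc, fixed_iter σ u hu N (b ^ k0 * n + i) (j + 1) hjB1, ht, ← hj2]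
      have := fixed_iter σ u hu N 0 (j + 1) hjB1
      simpa using this.symm
  refine ⟨b * (G + 2), fun i j n => ?_⟩
  rcases Nat.eq_zero_or_pos n with hn | hn
  · subst hn
    exact ⟨j, le_refl _, by omega, fun l hl => absurd hl (Nat.not_lt_zero l)⟩
  set k := Nat.log b n + 1 with hk
  have hnk : n < b ^ k := Nat.lt_pow_succ_log_self (by omega) n
  have hkn : b ^ k ≤ b * n := by
    rw [hk, pow_succ, mul_comm]
    exact Nat.mul_le_mul_left b (Nat.pow_log_le_self b (by omega))
  set L := b ^ k with hL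
  have hL0 : 0 < L := by positivity
  obtain ⟨p, hp1, hp2, hp3, hp4⟩ := hgap (i / L) (j / L + 1)
  refine ⟨L * p + i % L, ?_, ?_, ?_⟩
  · have h1 := Nat.lt_div_mul_add hL0 (a := j)
    have h2 : L * (j / L + 1) ≤ L * p := Nat.mul_le_mul_left L hp1
    have h3 : L * (j / L + 1) = j / L * L + L := by ring
    omega
  · have h1 := Nat.div_mul_le_self j L
    have h2 : L * p ≤ L * (j / L + 1 + G) := Nat.mul_le_mul_left L hp2
    have h3 := Nat.mod_lt i hL0
    have h4 : L * (G + 2) ≤ b * n * (G + 2) := Nat.mul_le_mul_right _ hkn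
    have h5 : L * (j / L + 1 + G) = j / L * L + L * (G + 1) := by ring
    have h6 : L * (G + 2) = L * (G + 1) + L := by ring
    have h7 : b * (G + 2) * n = b * n * (G + 2) := by ring
    omega
  · intro l hl
    have hmod := Nat.mod_lt i hL0
    have hdm := Nat.div_add_mod i L
    have key : u (L * p + i % L + l) = u (i + l) := by
      have hil : i + l = L * (i / L) + (i % L + l) := by omega
      rw [hil, add_assoc]
      by_cases hc : i % L + l < L
      · rw [fixed_iter σ u hu k p _ hc, fixed_iter σ u hu k (i / L) _ hc, hp3]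
      · have hlt : i % L + l - L < L := by omega
        have e1 : L * p + (i % L + l) = L * (p + 1) + (i % L + l - L) := by
          rw [mul_add, mul_one]; omega
        have e2 : L * (i / L) + (i % L + l) = L * (i / L + 1) + (i % L + l - L) := by
          rw [mul_add, mul_one]; omega
        rw [e1, e2, fixed_iter σ u hu k (p + 1) _ hlt, fixed_iter σ u hu k (i / L + 1) _ hlt, hp4]
    simp only [key]

/-- number of `i < b^k` such that the coding of the `i`-th letter of `σ^k(a)` is `true` -/
def codeCnt {A : Type} {b : ℕ} [NeZero b] (σ : A → Fin b → A) (φ : A → Bool) (k : ℕ) (a : A) : ℕ :=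
  ((Finset.range (b ^ k)).filter (fun i => φ (substIter σ k a i) = true)).card

section freq

variable {A : Type} {b : ℕ} [NeZero b]

theorem codeCnt_add [Fintype A] [DecidableEq A] (σ : A → Fin b → A) (φ : A → Bool) (k l : ℕ)
    (a : A) :
    codeCnt σ φ (k + l) a = ∑ c : A, ((Finset.range (b ^ k)).filter
      (fun i => substIter σ k a i = c)).card * codeCnt σ φ l c := by
  have hb : 0 < b := Nat.pos_of_ne_zero (NeZero.ne b)
  have hbl : 0 < b ^ l := by positivity
  -- write the left side as a double sum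
  have h1 : codeCnt σ φ (k + l) a = ∑ j ∈ Finset.range (b ^ k),
      codeCnt σ φ l (substIter σ k a j) := by
    unfold codeCnt
    simp only [Finset.card_filter]
    have h2 : ∀ f : ℕ → ℕ, ∑ i ∈ Finset.range (b ^ (k + l)), f i
        = ∑ j ∈ Finset.range (b ^ k), ∑ r ∈ Finset.range (b ^ l), f (b ^ l * j + r) := by
      intro f
      rw [pow_add]
      induction (b ^ k) with
      | zero => simp
      | succ m ihm =>
        rw [Nat.succ_mul, Finset.sum_range_add, ihm, Finset.sum_range_succ]
        congr 1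
        apply Finset.sum_congr rfl
        intro r _
        congr 1
        ring
    rw [h2]
    apply Finset.sum_congr rfl
    intro j hj
    apply Finset.sum_congr rfl
    intro r hr
    rw [Finset.mem_range] at hj hr
    have hlt : b ^ l * j + r < b ^ (k + l) := by
      have h3 : b ^ l * (j + 1) ≤ b ^ l * b ^ k := Nat.mul_le_mul_left _ hj
      rw [pow_add, mul_comm (b ^ k) (b ^ l)]
      rw [mul_add, mul_one] at h3
      omega
    rw [substIter_add σ k l a _ hlt]
    have e1 : (b ^ l * j + r) / b ^ l = j := by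
      rw [Nat.mul_add_div hbl, Nat.div_eq_of_lt hr, add_zero]
    have e2 : (b ^ l * j + r) % b ^ l = r := by
      rw [Nat.mul_add_mod, Nat.mod_eq_of_lt hr]
    rw [e1, e2]
  rw [h1]
  rw [← Finset.sum_fiberwise_of_maps_to (s := Finset.range (b ^ k)) (t := (Finset.univ : Finset A))
    (g := fun i => substIter σ k a i) (fun i _ => Finset.mem_univ _)]
  apply Finset.sum_congr rfl
  intro c _
  rw [Finset.sum_congr rfl (g := fun _ => codeCnt σ φ l c), Finset.sum_const, smul_eq_mul]
  intro i hi
  rw [(Finset.mem_filter.mp hi).2]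

theorem cnt_add_sub (v : ℕ → Bool) (n m : ℕ) : cnt v 0 (n + m) = cnt v 0 n + cnt v n m := by
  unfold cnt
  simp only [Finset.card_filter, zero_add]
  rw [Finset.sum_range_add]

theorem codeCnt_eq_cnt (σ : A → Fin b → A) (u : ℕ → A) (hu : FixedPt σ u) (φ : A → Bool)
    (k p : ℕ) : codeCnt σ φ k (u p) = cnt (fun n => φ (u n)) (b ^ k * p) (b ^ k) := by
  unfold codeCnt cnt
  congr 1
  apply Finset.filter_congr
  intro i hi
  rw [Finset.mem_range] at hi
  simp only
  rw [fixed_iter σ u hu k p i hi]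

end freq

theorem subst_rational_freq {A : Type} [Finite A] {b : ℕ} [NeZero b] (hb : 2 ≤ b)
    (σ : A → Fin b → A) (hσ : Primitive σ) (u : ℕ → A) (hu : FixedPt σ u) (φ : A → Bool)
    (θ : ℝ) (hθ : Filter.Tendsto (fun k : ℕ => (cnt (fun n => φ (u n)) 0 k : ℝ) / k) Filter.atTop
      (nhds θ)) : ∃ q : ℚ, (q : ℝ) = θ := by
  classical
  have := Fintype.ofFinite A
  have hb0 : 0 < b := by omega
  obtain ⟨k0, hk0, hk0pos⟩ : ∃ k0 : ℕ, (∀ a c : A, ∃ i < b ^ k0, substIter σ k0 a i = c) ∧
      1 ≤ k0 := by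
    obtain ⟨k, hk⟩ := hσ
    exact ⟨k + 1, primitive_succ σ k hk, by omega⟩
  -- the matrix
  set M : Matrix A A ℚ := fun a c => (((Finset.range (b ^ k0)).filter
      (fun i => substIter σ k0 a i = c)).card : ℚ) with hM
  have hMpos : ∀ a c, 0 < M a c := by
    intro a c
    obtain ⟨i, hi, hc⟩ := hk0 a c
    simp only [hM]
    have : 0 < ((Finset.range (b ^ k0)).filter (fun i => substIter σ k0 a i = c)).card :=
      Finset.card_pos.mpr ⟨i, Finset.mem_filter.mpr ⟨Finset.mem_range.mpr hi, hc⟩⟩
    exact_mod_cast this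
  have hMrow : ∀ a, ∑ c, M a c = (b : ℚ) ^ k0 := by
    intro a
    simp only [hM]
    rw [← Nat.cast_sum, ← Finset.card_eq_sum_card_fiberwise (f := fun i => substIter σ k0 a i)
      (t := (Finset.univ : Finset A)) (fun i _ => Finset.mem_coe.mpr (Finset.mem_univ _))]
    simp
  set B : ℚ := (b : ℚ) ^ k0 with hB
  have hBpos : 0 < B := by positivity
  have : Nonempty A := ⟨u 0⟩
  -- left eigenvector
  have hdet : (M - B • (1 : Matrix A A ℚ)).det = 0 := by
    rw [← Matrix.exists_mulVec_eq_zero_iff]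
    refine ⟨fun _ => 1, ?_, ?_⟩
    · intro h
      have := congrFun h (u 0)
      simp at this
    · ext a
      have hr := hMrow a
      simp only [Matrix.sub_mulVec, Matrix.smul_mulVec, Matrix.one_mulVec, Pi.sub_apply,
        Pi.smul_apply, smul_eq_mul, mul_one, Pi.zero_apply]
      have : M.mulVec (fun _ => 1) a = ∑ c, M a c := by simp [Matrix.mulVec, dotProduct]
      rw [this, hr, sub_self]
  obtain ⟨π, hπ0, hπ⟩ := Matrix.exists_vecMul_eq_zero_iff.mpr hdet
  have hπM : ∀ c, ∑ a, π a * M a c = B * π c := by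
    intro c
    have h1 := congrFun hπ c
    simp only [Matrix.vecMul_sub, Matrix.vecMul_smul, Matrix.vecMul_one, Pi.sub_apply,
      Pi.smul_apply, smul_eq_mul, Pi.zero_apply] at h1
    have h2 : Matrix.vecMul π M c = ∑ a, π a * M a c := by simp [Matrix.vecMul, dotProduct]
    rw [h2] at h1
    linarith
  -- its sum is nonzero
  have hsum : ∑ a, π a ≠ 0 := by
    intro hs
    have hne : ∃ a, π a ≠ 0 := by
      by_contra h
      push Not at h
      exact hπ0 (funext h)
    -- signs
    have hposex : ∃ a, 0 < π a := by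
      by_contra h
      push Not at h
      obtain ⟨a, ha⟩ := hne
      have : ∑ a, π a < 0 := by
        apply Finset.sum_neg' (fun i _ => h i)
        exact ⟨a, Finset.mem_univ a, lt_of_le_of_ne (h a) ha⟩
      linarith
    have hnegex : ∃ a, π a < 0 := by
      by_contra h
      push Not at h
      obtain ⟨a, ha⟩ := hne
      have : 0 < ∑ a, π a := by
        apply Finset.sum_pos' (fun i _ => h i)
        exact ⟨a, Finset.mem_univ a, lt_of_le_of_ne (h a) (Ne.symm ha)⟩
      linarith
    obtain ⟨a1, ha1⟩ := hposex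
    obtain ⟨a2, ha2⟩ := hnegex
    have hstrict : ∀ c, B * |π c| < ∑ a, |π a| * M a c := by
      intro c
      have h1 : B * |π c| = |∑ a, π a * M a c| := by
        rw [hπM, abs_mul, abs_of_pos hBpos]
      rw [h1, abs_lt]
      constructor
      · rw [← Finset.sum_neg_distrib]
        apply Finset.sum_lt_sum
        · intro a _
          have := neg_abs_le (π a)
          nlinarith [hMpos a c]
        · refine ⟨a1, Finset.mem_univ _, ?_⟩
          rw [abs_of_pos ha1]
          nlinarith [hMpos a1 c, mul_pos ha1 (hMpos a1 c)]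
      · apply Finset.sum_lt_sum
        · intro a _
          exact mul_le_mul_of_nonneg_right (le_abs_self _) (hMpos a c).le
        · refine ⟨a2, Finset.mem_univ _, ?_⟩
          rw [abs_of_neg ha2]
          nlinarith [hMpos a2 c, mul_pos (neg_pos.mpr ha2) (hMpos a2 c)]
    have htot : ∑ c, B * |π c| < ∑ c, ∑ a, |π a| * M a c :=
      Finset.sum_lt_sum_of_nonempty Finset.univ_nonempty (fun c _ => hstrict c)
    rw [Finset.sum_comm] at htot
    have h2 : ∀ a, ∑ c, |π a| * M a c = B * |π a| := by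
      intro a
      rw [← Finset.mul_sum, hMrow, mul_comm]
    simp only [h2] at htot
    exact lt_irrefl _ htot
  -- invariance
  have hinv : ∀ m : ℕ, ∑ a, π a * (codeCnt σ φ (k0 * m) a : ℚ)
      = B ^ m * ∑ a, π a * (codeCnt σ φ 0 a : ℚ) := by
    intro m
    induction m with
    | zero => simp
    | succ m ih =>
      have h1 : ∀ a, (codeCnt σ φ (k0 * (m + 1)) a : ℚ)
          = ∑ c, M a c * (codeCnt σ φ (k0 * m) c : ℚ) := by
        intro a
        have : k0 * (m + 1) = k0 + k0 * m := by ring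
        rw [this, codeCnt_add]
        push_cast
        rfl
      simp only [h1]
      have h3 : ∑ a, π a * ∑ c, M a c * (codeCnt σ φ (k0 * m) c : ℚ)
          = ∑ a, ∑ c, π a * (M a c * (codeCnt σ φ (k0 * m) c : ℚ)) :=
        Finset.sum_congr rfl (fun a _ => Finset.mul_sum _ _ _)
      rw [h3, Finset.sum_comm]
      have h2 : ∀ c, ∑ a, π a * (M a c * (codeCnt σ φ (k0 * m) c : ℚ))
          = B * (π c * (codeCnt σ φ (k0 * m) c : ℚ)) := by
        intro c
        have : ∀ a, π a * (M a c * (codeCnt σ φ (k0 * m) c : ℚ))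
            = (π a * M a c) * (codeCnt σ φ (k0 * m) c : ℚ) := fun a => by ring
        simp only [this]
        rw [← Finset.sum_mul, hπM]
        ring
      simp only [h2]
      rw [← Finset.mul_sum, ih, pow_succ]
      ring
  -- every letter occurs in `u`
  have hocc : ∀ a : A, ∃ p, u p = a := by
    intro a
    obtain ⟨i, hi, hc⟩ := hk0 (u 0) a
    refine ⟨i, ?_⟩
    have := fixed_iter σ u hu k0 0 i hi
    rw [hc] at this
    simpa using this
  -- limits
  have hlim : ∀ a : A, Filter.Tendsto (fun m : ℕ => (codeCnt σ φ (k0 * m) a : ℝ)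
      / ((b : ℝ) ^ k0) ^ m) Filter.atTop (nhds θ) := by
    intro a
    obtain ⟨p, rfl⟩ := hocc a
    have hpow : Filter.Tendsto (fun m : ℕ => b ^ (k0 * m)) Filter.atTop Filter.atTop := by
      apply Filter.Tendsto.comp (g := fun n => b ^ n) (f := fun m => k0 * m)
      · exact tendsto_pow_atTop_atTop_of_one_lt (by omega)
      · exact Filter.tendsto_id.const_mul_atTop' (by omega)
    have hq : ∀ q : ℕ, Filter.Tendsto (fun m : ℕ => (cnt (fun n => φ (u n)) 0 (b ^ (k0 * m) * q) : ℝ)
        / ((b : ℝ) ^ k0) ^ m) Filter.atTop (nhds (q * θ)) := by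
      intro q
      rcases Nat.eq_zero_or_pos q with hq | hq
      · subst hq
        simp [cnt]
      · have h1 : Filter.Tendsto (fun m : ℕ => b ^ (k0 * m) * q) Filter.atTop Filter.atTop :=
          Filter.Tendsto.atTop_mul_const' hq hpow
        have h2 := (hθ.comp h1).const_mul (q : ℝ)
        refine h2.congr (fun m => ?_)
        have hq' : (q : ℝ) ≠ 0 := by exact_mod_cast hq.ne'
        have hbb : ((b : ℝ) ^ k0) ^ m ≠ 0 := by positivity
        simp only [Function.comp]
        push_cast
        have e : (b : ℝ) ^ (k0 * m) = ((b : ℝ) ^ k0) ^ m := pow_mul _ _ _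
        rw [e]
        field_simp
    have h3 := (hq (p + 1)).sub (hq p)
    have h4 : ((p + 1 : ℕ) : ℝ) * θ - p * θ = θ := by push_cast; ring
    rw [h4] at h3
    refine h3.congr (fun m => ?_)
    rw [← sub_div]
    congr 1
    rw [codeCnt_eq_cnt σ u hu φ]
    have h5 : b ^ (k0 * m) * (p + 1) = b ^ (k0 * m) * p + b ^ (k0 * m) := by ring
    rw [h5, cnt_add_sub]
    push_cast
    ring
  -- conclusion
  have hfin : Filter.Tendsto (fun m : ℕ => ∑ a, (π a : ℝ) * ((codeCnt σ φ (k0 * m) a : ℝ)
      / ((b : ℝ) ^ k0) ^ m)) Filter.atTop (nhds (∑ a, (π a : ℝ) * θ)) :=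
    tendsto_finsetSum _ (fun a _ => (hlim a).const_mul _)
  have hconst : ∀ m : ℕ, ∑ a, (π a : ℝ) * ((codeCnt σ φ (k0 * m) a : ℝ) / ((b : ℝ) ^ k0) ^ m)
      = ∑ a, (π a : ℝ) * (codeCnt σ φ 0 a : ℝ) := by
    intro m
    have h1 := congrArg (fun x : ℚ => (x : ℝ)) (hinv m)
    simp only [hB] at h1
    push_cast at h1
    have hbb : ((b : ℝ) ^ k0) ^ m ≠ 0 := by positivity
    have h2 : ∑ a, (π a : ℝ) * ((codeCnt σ φ (k0 * m) a : ℝ) / ((b : ℝ) ^ k0) ^ m)
        = (∑ a, (π a : ℝ) * (codeCnt σ φ (k0 * m) a : ℝ)) / ((b : ℝ) ^ k0) ^ m := by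
      rw [Finset.sum_div]
      exact Finset.sum_congr rfl (fun a _ => by ring)
    rw [h2, h1]
    field_simp
  simp only [hconst] at hfin
  have heq := tendsto_nhds_unique hfin tendsto_const_nhds
  refine ⟨(∑ a, π a * (codeCnt σ φ 0 a : ℚ)) / ∑ a, π a, ?_⟩
  have hs' : (∑ a, (π a : ℝ)) ≠ 0 := by exact_mod_cast hsum
  push_cast
  rw [div_eq_iff hs', ← heq, ← Finset.sum_mul]
  ring

end Pool.Agent.H51.Coll
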