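import Pool.Agent.H51.Coll.WordDefs

/-!
Linearly recurrent words: uniform frequencies and block decompositions at every scale.
-/

set_option autoImplicit false

namespace Pool.Agent.H51.Coll

theorem cnt_le (v : ℕ → Bool) (i n : ℕ) : cnt v i n ≤ n := by
  unfold cnt
  exact (Finset.card_filter_le _ _).trans (by simp)

theorem cnt_add (v : ℕ → Bool) (i a b : ℕ) :
    cnt v i (a + b) = cnt v i a + cnt v (i + a) b := by
  unfold cnt
  rw [Finset.card_filter, Finset.card_filter, Finset.card_filter, Finset.sum_range_add]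
  simp only [Nat.add_assoc]

theorem cnt_congr {v : ℕ → Bool} {i j n : ℕ} (h : ∀ l < n, v (i + l) = v (j + l)) :
    cnt v i n = cnt v j n := by
  unfold cnt
  congr 1
  apply Finset.filter_congr
  intro l hl
  rw [h l (Finset.mem_range.1 hl)]

/-- The maximal number of `true`s in a window of length `n`. -/
noncomputable def mx (v : ℕ → Bool) (n : ℕ) : ℕ := ⨆ i, cnt v i n

theorem cnt_bdd (v : ℕ → Bool) (n : ℕ) : BddAbove (Set.range (fun i => cnt v i n)) :=
  ⟨n, by rintro _ ⟨i, rfl⟩; exact cnt_le v i n⟩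

theorem cnt_le_mx (v : ℕ → Bool) (i n : ℕ) : cnt v i n ≤ mx v n := le_ciSup (cnt_bdd v n) i

theorem exists_mx (v : ℕ → Bool) (n : ℕ) : ∃ i, cnt v i n = mx v n :=
  Nat.sSup_mem (Set.range_nonempty _) (cnt_bdd v n)

theorem mx_le (v : ℕ → Bool) (n : ℕ) : mx v n ≤ n := by
  obtain ⟨i, hi⟩ := exists_mx v n
  rw [← hi]; exact cnt_le v i n

theorem mx_add (v : ℕ → Bool) (a b : ℕ) : mx v (a + b) ≤ mx v a + mx v b := by
  obtain ⟨i, hi⟩ := exists_mx v (a + b)
  rw [← hi, cnt_add]
  exact Nat.add_le_add (cnt_le_mx v i a) (cnt_le_mx v (i + a) b)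

theorem mx_mul (v : ℕ → Bool) (a q : ℕ) : mx v (q * a) ≤ q * mx v a := by
  induction q with
  | zero => simpa using mx_le v 0
  | succ q ih =>
    rw [Nat.succ_mul, Nat.succ_mul]
    exact (mx_add v _ _).trans (Nat.add_le_add_right ih _)

/-- Linearly recurrent words have uniform frequencies. -/
theorem LinearlyRecurrent.uniform_freq {v : ℕ → Bool} (h : LinearlyRecurrent v) :
    ∃ θ : ℝ, ∀ ε : ℝ, 0 < ε → ∃ C : ℝ, ∀ i n : ℕ, |(cnt v i n : ℝ) - θ * n| ≤ ε * n + C := by
  obtain ⟨K, hK⟩ := h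
  have hbdd : BddBelow (Set.range (fun n : ℕ => (mx v (n + 1) : ℝ) / (n + 1))) :=
    ⟨0, by rintro _ ⟨n, rfl⟩; positivity⟩
  obtain ⟨θ, hθ⟩ : ∃ θ : ℝ, θ = ⨅ n : ℕ, (mx v (n + 1) : ℝ) / (n + 1) := ⟨_, rfl⟩
  have hθ0 : 0 ≤ θ := by
    rw [hθ]
    exact le_ciInf (fun n => by positivity)
  have hlow : ∀ n : ℕ, θ * n ≤ mx v n := by
    intro n
    cases n with
    | zero => simp
    | succ n =>
      have h1 : θ ≤ (mx v (n + 1) : ℝ) / (n + 1) := by
        rw [hθ]; exact ciInf_le hbdd n
      rw [le_div_iff₀ (by positivity)] at h1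
      push_cast
      exact h1
  have hup : ∀ ε : ℝ, 0 < ε → ∃ C : ℝ, 0 ≤ C ∧ ∀ n : ℕ, (mx v n : ℝ) ≤ (θ + ε) * n + C := by
    intro ε hε
    have h1 : (⨅ n : ℕ, (mx v (n + 1) : ℝ) / (n + 1)) < θ + ε := by
      rw [← hθ]; linarith
    obtain ⟨a, ha⟩ := exists_lt_of_ciInf_lt h1
    rw [div_lt_iff₀ (by positivity)] at ha
    refine ⟨(a + 1 : ℕ), by positivity, fun n => ?_⟩
    have h2 : mx v n ≤ (n / (a + 1)) * mx v (a + 1) + (a + 1) := by
      have h3 : n = (n / (a + 1)) * (a + 1) + n % (a + 1) := by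
        have := Nat.div_add_mod n (a + 1)
        nlinarith [this]
      have h4 : mx v n ≤ mx v ((n / (a + 1)) * (a + 1)) + mx v (n % (a + 1)) := by
        conv_lhs => rw [h3]
        exact mx_add v _ _
      have h5 := mx_mul v (a + 1) (n / (a + 1))
      have h6 := mx_le v (n % (a + 1))
      have h7 : n % (a + 1) < a + 1 := Nat.mod_lt _ (Nat.succ_pos a)
      omega
    have h8 : (mx v n : ℝ) ≤ ((n / (a + 1) : ℕ) : ℝ) * mx v (a + 1) + ((a + 1 : ℕ) : ℝ) := by
      exact_mod_cast h2
    have h9 : ((n / (a + 1) : ℕ) : ℝ) * (a + 1) ≤ n := by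
      have := Nat.div_mul_le_self n (a + 1)
      exact_mod_cast this
    have h10 : ((n / (a + 1) : ℕ) : ℝ) * mx v (a + 1) ≤
        ((n / (a + 1) : ℕ) : ℝ) * ((θ + ε) * (a + 1)) :=
      mul_le_mul_of_nonneg_left ha.le (by positivity)
    have h11 : (θ + ε) * (((n / (a + 1) : ℕ) : ℝ) * (a + 1)) ≤ (θ + ε) * n :=
      mul_le_mul_of_nonneg_left h9 (by linarith)
    nlinarith
  refine ⟨θ, fun ε hε => ?_⟩
  have hδ : 0 < ε / (K + 1) := by positivity
  obtain ⟨C, hC0, hC⟩ := hup (ε / (K + 1)) hδ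
  refine ⟨2 * C, fun i n => ?_⟩
  have hδε : ε / (K + 1) ≤ ε := by
    apply div_le_self hε.le
    have : (0 : ℝ) ≤ K := by positivity
    linarith
  rw [abs_le]
  constructor
  · -- lower bound
    obtain ⟨j, hj⟩ := exists_mx v ((K + 1) * n)
    obtain ⟨m, hm1, hm2, hm3⟩ := hK i j n
    obtain ⟨s, rfl⟩ := Nat.exists_eq_add_of_le hm1
    have hs : s ≤ K * n := by omega
    obtain ⟨t, ht⟩ := Nat.exists_eq_add_of_le hs
    have e1 : (K + 1) * n = s + n + t := by
      have : (K + 1) * n = K * n + n := by ring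
      omega
    have e2 : cnt v j ((K + 1) * n) = cnt v j s + cnt v (j + s) n + cnt v (j + s + n) t := by
      rw [e1, cnt_add, cnt_add, ← Nat.add_assoc]
    have e3 : cnt v (j + s) n = cnt v i n := cnt_congr hm3
    have e4 : mx v ((K + 1) * n) ≤ mx v s + cnt v i n + mx v t := by
      rw [← hj, e2, e3]
      have := cnt_le_mx v j s
      have := cnt_le_mx v (j + s + n) t
      omega
    have e5 : (mx v ((K + 1) * n) : ℝ) ≤ mx v s + cnt v i n + mx v t := by exact_mod_cast e4
    have e6 := hC s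
    have e7 := hC t
    have e8 := hlow ((K + 1) * n)
    push_cast at e8
    have e9 : (s : ℝ) + t = K * n := by
      have : s + t = K * n := ht.symm
      exact_mod_cast this
    have e10 : ε / (K + 1) * (s + t) ≤ ε * n := by
      rw [e9]
      have : ε / (K + 1) * (K * n) = (ε * n) * (K / (K + 1)) := by
        field_simp
      rw [this]
      have hK1 : (K : ℝ) / (K + 1) ≤ 1 := by
        rw [div_le_one (by positivity)]; linarith
      have hεn : 0 ≤ ε * n := by positivity
      nlinarith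
    have e11 : θ * (s + t) = θ * (K * n) := by rw [e9]
    nlinarith
  · have h1 : (cnt v i n : ℝ) ≤ mx v n := by exact_mod_cast cnt_le_mx v i n
    have h2 := hC n
    have h3 : ε / (K + 1) * n ≤ ε * n := mul_le_mul_of_nonneg_right hδε (by positivity)
    nlinarith

/-- A linearly recurrent word that repeats a long factor at a small distance is periodic. -/
theorem period_of_repeat {v : ℕ → Bool} {K : ℕ}
    (hK : ∀ i j n : ℕ, ∃ m : ℕ, j ≤ m ∧ m ≤ j + K * n ∧ ∀ l < n, v (m + l) = v (i + l))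
    {i d n : ℕ} (hn : K * (d + 1) < n) (h : ∀ l < n, v (i + d + l) = v (i + l)) (k : ℕ) :
    v (k + d) = v k := by
  obtain ⟨m, hm1, hm2, hm3⟩ := hK k i (d + 1)
  obtain ⟨l, rfl⟩ := Nat.exists_eq_add_of_le hm1
  have h0 := hm3 0 (by omega)
  have hd := hm3 d (by omega)
  have hl := h l (by omega)
  simp only [Nat.add_zero] at h0
  rw [← h0, ← hd, ← hl]
  congr 1
  omega

/-- A non-periodic linearly recurrent word is, at every scale `n ≥ 1`, a concatenation of blocks
with at most `r` different contents, of lengths between `n / C` and `C n`. -/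
theorem LinearlyRecurrent.blocks {v : ℕ → Bool} (h : LinearlyRecurrent v)
    (hper : ∀ p : ℕ, 1 ≤ p → ∃ k, v (k + p) ≠ v k) :
    ∃ r C : ℕ, 1 ≤ C ∧ ∀ n : ℕ, 1 ≤ n → ∃ (kk : ℕ → ℕ) (lab : ℕ → Fin (r + 1)), kk 0 = 0 ∧
      (∀ i, kk i < kk (i + 1) ∧ n ≤ C * (kk (i + 1) - kk i) ∧ kk (i + 1) - kk i ≤ C * n) ∧
      ∀ i j, lab i = lab j → kk (i + 1) - kk i = kk (j + 1) - kk j ∧
        ∀ l < kk (i + 1) - kk i, v (kk i + l) = v (kk j + l) := by
  obtain ⟨K, hK⟩ := h
  refine ⟨2 * K * K * (K + 2), 2 * K + 1, by omega, fun n hn => ?_⟩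
  -- separation of occurrences
  have hsep : ∀ p d : ℕ, 1 ≤ d → (∀ l < n, v (p + d + l) = v (p + l)) → n ≤ 2 * K * d := by
    intro p d hd hp
    by_contra hcon
    obtain ⟨k, hk⟩ := hper d hd
    apply hk
    refine period_of_repeat hK (i := p) (n := n) ?_ hp k
    have : K * (d + 1) ≤ 2 * K * d := by nlinarith
    omega
  -- next occurrence
  have hex : ∀ p : ℕ, ∃ m : ℕ, p < m ∧ ∀ l < n, v (m + l) = v (0 + l) := by
    intro p
    obtain ⟨m, hm1, hm2, hm3⟩ := hK 0 (p + 1) n
    exact ⟨m, by omega, hm3⟩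
  classical
  let nxt : ℕ → ℕ := fun p => Nat.find (hex p)
  have nxt_lt : ∀ p, p < nxt p := fun p => (Nat.find_spec (hex p)).1
  have nxt_occ : ∀ p, ∀ l < n, v (nxt p + l) = v (0 + l) := fun p => (Nat.find_spec (hex p)).2
  have nxt_min : ∀ p m, p < m → (∀ l < n, v (m + l) = v (0 + l)) → nxt p ≤ m :=
    fun p m h1 h2 => Nat.find_min' (hex p) ⟨h1, h2⟩
  have nxt_le : ∀ p, nxt p ≤ p + 1 + K * n := by
    intro p
    obtain ⟨m, hm1, hm2, hm3⟩ := hK 0 (p + 1) n
    exact (nxt_min p m (by omega) hm3).trans hm2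
  let kk : ℕ → ℕ := fun i => nxt^[i] 0
  have kk_succ : ∀ i, kk (i + 1) = nxt (kk i) := fun i => Function.iterate_succ_apply' nxt i 0
  have kk_occ : ∀ i, ∀ l < n, v (kk i + l) = v (0 + l) := by
    intro i
    cases i with
    | zero => intro l _; rfl
    | succ i => rw [kk_succ]; exact nxt_occ _
  obtain ⟨N, hN⟩ : ∃ N, N = K * n + 1 + n := ⟨_, rfl⟩
  have hrep : ∀ i, ∃ m : ℕ, m ≤ K * N ∧ ∀ l < N, v (m + l) = v (kk i + l) := by
    intro i
    obtain ⟨m, hm1, hm2, hm3⟩ := hK (kk i) 0 N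
    exact ⟨m, by omega, hm3⟩
  choose rep rep_le rep_eq using hrep
  have rep_occ : ∀ i, ∀ l < n, v (rep i + l) = v (0 + l) := by
    intro i l hl
    rw [rep_eq i l (by omega), kk_occ i l hl]
  have hlab : ∀ i, 2 * K * rep i / n < 2 * K * K * (K + 2) + 1 := by
    intro i
    rw [Nat.div_lt_iff_lt_mul (by omega)]
    have h1 := rep_le i
    have h2 : N ≤ (K + 2) * n := by rw [hN]; nlinarith
    calc 2 * K * rep i ≤ 2 * K * (K * ((K + 2) * n)) := by
          apply Nat.mul_le_mul_left
          exact h1.trans (Nat.mul_le_mul_left K h2)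
      _ = 2 * K * K * (K + 2) * n := by ring
      _ < (2 * K * K * (K + 2) + 1) * n := by nlinarith
  refine ⟨kk, fun i => ⟨2 * K * rep i / n, hlab i⟩, rfl, fun i => ⟨?_, ?_, ?_⟩, ?_⟩
  · rw [kk_succ]; exact nxt_lt _
  · have h1 : kk i < kk (i + 1) := by rw [kk_succ]; exact nxt_lt _
    have h2 := hsep (kk i) (kk (i + 1) - kk i) (by omega) (by
      intro l hl
      have e : kk i + (kk (i + 1) - kk i) + l = kk (i + 1) + l := by omega
      rw [e, kk_occ (i + 1) l hl, kk_occ i l hl])
    nlinarith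
  · have h1 := nxt_le (kk i)
    rw [← kk_succ] at h1
    have : K * n + 1 ≤ (2 * K + 1) * n := by nlinarith
    omega
  · intro i j hij
    have hij' : 2 * K * rep i / n = 2 * K * rep j / n := by
      have := congrArg Fin.val hij
      exact this
    -- equal representatives
    have key : ∀ i j, 2 * K * rep i / n = 2 * K * rep j / n → ¬ rep i < rep j := by
      intro i j hij hlt
      have h2 := hsep (rep i) (rep j - rep i) (by omega) (by
        intro l hl
        have e : rep i + (rep j - rep i) + l = rep j + l := by omega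
        rw [e, rep_occ j l hl, rep_occ i l hl])
      have h3 : 2 * K * rep i + n ≤ 2 * K * rep j := by
        obtain ⟨t, ht⟩ := Nat.exists_eq_add_of_lt hlt
        have : rep j - rep i = t + 1 := by omega
        rw [this] at h2
        rw [ht]
        have : 2 * K * (rep i + t + 1) = 2 * K * rep i + 2 * K * (t + 1) := by ring
        omega
      have h4 : 2 * K * rep i / n + 1 ≤ 2 * K * rep j / n := by
        rw [← Nat.add_div_right _ (by omega : 0 < n)]
        exact Nat.div_le_div_right h3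
      omega
    have hrr : rep i = rep j := by
      have h1 := key i j hij'
      have h2 := key j i hij'.symm
      omega
    have hcont : ∀ l < N, v (kk i + l) = v (kk j + l) := by
      intro l hl
      rw [← rep_eq i l hl, ← rep_eq j l hl, hrr]
    -- the next occurrence is determined
    have hgap : ∀ i j, (∀ l < N, v (kk i + l) = v (kk j + l)) →
        kk (j + 1) - kk j ≤ kk (i + 1) - kk i := by
      intro i j hc
      have h1 : kk i < kk (i + 1) := by rw [kk_succ]; exact nxt_lt _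
      have h2 := nxt_le (kk i)
      rw [← kk_succ] at h2
      have h3 : kk (j + 1) ≤ kk j + (kk (i + 1) - kk i) := by
        rw [kk_succ j]
        apply nxt_min
        · omega
        · intro l hl
          have e1 : kk j + (kk (i + 1) - kk i) + l = kk j + (kk (i + 1) - kk i + l) := by omega
          rw [e1, ← hc (kk (i + 1) - kk i + l) (by omega)]
          have e2 : kk i + (kk (i + 1) - kk i + l) = kk (i + 1) + l := by omega
          rw [e2]
          exact kk_occ (i + 1) l hl
      omega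
    refine ⟨le_antisymm (hgap j i (fun l hl => (hcont l hl).symm)) (hgap i j hcont), ?_⟩
    intro l hl
    apply hcont
    have h2 := nxt_le (kk i)
    rw [← kk_succ] at h2
    omega

end Pool.Agent.H51.Coll
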