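import Pool.Agent.H51.Coll.Traj
import Pool.Agent.H51.Coll.Comb1
import Pool.Agent.H51.Coll.Comb2
import Pool.Agent.H51.Coll.Auto
import Pool.Agent.H51.Coll.Words
import Pool.Agent.H51.Coll.Subst

/-!
Parity words of divergent `3x+1` trajectories: the final statements.
-/

set_option autoImplicit false

namespace Pool.Agent.H51.Coll

open Filter Topology Pool.Agent.H30

lemma freq_of_tendsto (v : ℕ → Bool) (θ : ℝ)
    (h : Tendsto (fun k : ℕ => (cnt v 0 k : ℝ) / k) atTop (𝓝 θ)) : Freq v θ := by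
  intro ε hε
  obtain ⟨N, hN⟩ := (Metric.tendsto_atTop.mp h) ε hε
  refine ⟨(1 + |θ|) * N, fun n => ?_⟩
  have hn0 : (0:ℝ) ≤ n := Nat.cast_nonneg n
  have hN0 : (0:ℝ) ≤ N := Nat.cast_nonneg N
  by_cases hn : N ≤ n ∧ 0 < n
  · have h1 := hN n hn.1
    rw [Real.dist_eq] at h1
    have hn' : (0:ℝ) < n := by exact_mod_cast hn.2
    have h2 : (cnt v 0 n : ℝ) - θ * n = ((cnt v 0 n : ℝ) / n - θ) * n := by
      field_simp
    rw [h2, abs_mul, abs_of_pos hn']
    have h3 : |(cnt v 0 n : ℝ) / n - θ| * n ≤ ε * n := mul_le_mul_of_nonneg_right h1.le hn0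
    have h4 : 0 ≤ (1 + |θ|) * N := by positivity
    linarith
  · have h1 : n ≤ N := by omega
    have h1' : (n:ℝ) ≤ N := by exact_mod_cast h1
    have h2 : (cnt v 0 n : ℝ) ≤ n := by exact_mod_cast cnt_le_len v 0 n
    have h3 : |(cnt v 0 n : ℝ) - θ * n| ≤ (1 + |θ|) * n := by
      calc |(cnt v 0 n : ℝ) - θ * n| ≤ |(cnt v 0 n : ℝ)| + |θ * n| := abs_sub _ _
        _ ≤ n + |θ| * n := by
            rw [abs_mul, abs_of_nonneg hn0, abs_of_nonneg (Nat.cast_nonneg (cnt v 0 n))]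
            linarith
        _ = (1 + |θ|) * n := by ring
    have h4 : (1 + |θ|) * n ≤ (1 + |θ|) * N := mul_le_mul_of_nonneg_left h1' (by positivity)
    have h5 : 0 ≤ ε * n := by positivity
    linarith

lemma tendsto_of_freq (v : ℕ → Bool) (θ : ℝ) (h : Freq v θ) :
    Tendsto (fun k : ℕ => (cnt v 0 k : ℝ) / k) atTop (𝓝 θ) := by
  rw [Metric.tendsto_atTop]
  intro ε hε
  obtain ⟨C, hC⟩ := h (ε / 2) (by positivity)
  obtain ⟨N, hN⟩ := exists_nat_gt (2 * |C| / ε)
  refine ⟨N + 1, fun n hn => ?_⟩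
  have hn' : (0:ℝ) < n := by
    have : 0 < n := by omega
    exact_mod_cast this
  have hNn : (N:ℝ) ≤ n := by
    have : N ≤ n := by omega
    exact_mod_cast this
  rw [Real.dist_eq]
  have h2 : (cnt v 0 n : ℝ) / n - θ = ((cnt v 0 n : ℝ) - θ * n) / n := by
    field_simp
  rw [h2, abs_div, abs_of_pos hn', div_lt_iff₀ hn']
  have h3 := hC n
  have h4 : |C| < ε / 2 * n := by
    have : 2 * |C| / ε < n := hN.trans_le hNn
    rw [div_lt_iff₀ hε] at this
    linarith
  have h5 := le_abs_self C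
  linarith

/-- `log 2 / log 3` is irrational. -/
lemma log_ratio_ne (q : ℚ) : (q : ℝ) ≠ Real.log 2 / Real.log 3 := by
  intro h
  have h2 : 0 < Real.log 2 := Real.log_pos (by norm_num)
  have h3 : 0 < Real.log 3 := Real.log_pos (by norm_num)
  have hq : 0 < (q : ℝ) := by rw [h]; positivity
  have hq' : 0 < q := by exact_mod_cast hq
  have hnum : 0 < q.num := Rat.num_pos.mpr hq'
  have hden : 0 < q.den := q.den_pos
  have h4 : (q.num : ℝ) * Real.log 3 = q.den * Real.log 2 := by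
    have h5 : (q : ℝ) = q.num / q.den := by exact_mod_cast (Rat.num_div_den q).symm
    rw [h5, div_eq_div_iff (by positivity) h3.ne'] at h
    linarith
  obtain ⟨a, ha⟩ : ∃ a : ℕ, (a : ℤ) = q.num := ⟨q.num.toNat, Int.toNat_of_nonneg hnum.le⟩
  have ha' : (q.num : ℝ) = a := by rw [← ha]; simp
  rw [ha', ← Real.log_pow, ← Real.log_pow] at h4
  have h5 := Real.log_injOn_pos (Set.mem_Ioi.mpr (by positivity)) (Set.mem_Ioi.mpr (by positivity)) h4
  have h6 : (3:ℕ) ^ a = 2 ^ q.den := by exact_mod_cast h5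
  have h7 : 2 ∣ 3 ^ a := by
    rw [h6]
    exact dvd_pow_self 2 (by omega)
  have h8 := Nat.Prime.dvd_of_dvd_pow Nat.prime_two h7
  omega

/-- **Main theorem**: complexity and frequency of the parity word of a divergent trajectory. -/
theorem complexity_freq (n₀ : ℤ) (hdiv : Div n₀) (θ : ℝ)
    (hθ : Tendsto (fun k : ℕ => (cnt (parity n₀) 0 k : ℝ) / k) atTop (𝓝 θ)) (K : ℕ)
    (hK : ∃ᶠ n in atTop, complexity (parity n₀) n ≤ K * n) :
    ∃ ρ : ℚ, 1 < ρ ∧ θ = ρ * Real.log 2 / Real.log 3 := by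
  have hf := freq_of_tendsto _ _ hθ
  have h2 : 0 < Real.log 2 := Real.log_pos (by norm_num)
  have h3 : 0 < Real.log 3 := Real.log_pos (by norm_num)
  have hgt := freq_gt n₀ hdiv θ hf K hK
  set κ := θ * Real.log 3 / Real.log 2 with hκ
  have hκ1 : 1 < κ := by
    rw [div_lt_iff₀ h3] at hgt
    rw [hκ, lt_div_iff₀ h2]
    linarith
  obtain ⟨K', hK'⟩ := exists_scale K hK
  obtain ⟨r, C, hrC⟩ := pieces_of_scale K'
  have hP : ∃ᶠ n in atTop, Pieces (parity n₀) r C n := by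
    refine (Nat.tendsto_div_const_atTop (n := 4) (by norm_num)).frequently ?_
    refine (hK'.and_eventually (eventually_ge_atTop 4)).mono (fun m hm => ?_)
    exact hrC _ (aperiodic_of_div n₀ hdiv) m hm.2 hm.1.1 hm.1.2
  obtain ⟨ρ, hρ⟩ := traj_rational n₀ hdiv θ hf κ hκ1 (by rw [hκ]; field_simp) r C hP
  have hρ0 : (0:ℝ) < ρ := by rw [hρ]; positivity
  have hκρ : κ = ((ρ⁻¹ : ℚ) : ℝ) := by
    push_cast
    rw [hρ, inv_inv]
  refine ⟨ρ⁻¹, ?_, ?_⟩
  · have : (1:ℝ) < ((ρ⁻¹ : ℚ) : ℝ) := by rw [← hκρ]; exact hκ1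
    exact_mod_cast this
  · rw [← hκρ, hκ]
    field_simp

/-- No automatic parity word with a frequency. -/
theorem not_automatic (n₀ : ℤ) (hdiv : Div n₀) (θ : ℝ)
    (hθ : Tendsto (fun k : ℕ => (cnt (parity n₀) 0 k : ℝ) / k) atTop (𝓝 θ)) (b : ℕ) (hb : 2 ≤ b) :
    ¬ Automatic b (parity n₀) := by
  intro h
  obtain ⟨K, hK⟩ := automatic_complexity hb h
  have hK' : ∃ᶠ n in atTop, complexity (parity n₀) n ≤ K * n :=
    ((eventually_ge_atTop 1).mono (fun n hn => hK n hn)).frequently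
  obtain ⟨ρ, hρ1, hρ⟩ := complexity_freq n₀ hdiv θ hθ K hK'
  obtain ⟨q, hq⟩ := automatic_rational hb h θ hθ
  have h3 : 0 < Real.log 3 := Real.log_pos (by norm_num)
  have hρ0 : (0:ℝ) < ρ := by
    have : (0:ℚ) < ρ := by linarith
    exact_mod_cast this
  apply log_ratio_ne (q / ρ)
  push_cast
  rw [hq, hρ]
  field_simp

/-- Linearly recurrent parity words. -/
theorem linearlyRecurrent_freq (n₀ : ℤ) (hdiv : Div n₀) (h : LinearlyRecurrent (parity n₀)) :
    ∃ ρ : ℚ, 1 < ρ ∧ Tendsto (fun k : ℕ => (cnt (parity n₀) 0 k : ℝ) / k) atTop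
      (𝓝 (ρ * Real.log 2 / Real.log 3)) := by
  obtain ⟨θ, hθ⟩ := h.uniform_freq
  have hf : Freq (parity n₀) θ := fun ε hε => by
    obtain ⟨C, hC⟩ := hθ ε hε
    exact ⟨C, fun n => hC 0 n⟩
  have ht := tendsto_of_freq _ _ hf
  obtain ⟨K, hK⟩ := h
  have hK' : ∃ᶠ n in atTop, complexity (parity n₀) n ≤ (K + 1) * n := by
    refine ((eventually_ge_atTop 1).mono (fun n hn => ?_)).frequently
    have hsub : Set.range (fac (parity n₀) n) ⊆
        ((Finset.range (K * n + 1)).image (fac (parity n₀) n) : Finset (Fin n → Bool)) := by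
      rintro _ ⟨i, rfl⟩
      obtain ⟨m, _, hm2, hm3⟩ := hK i 0 n
      rw [Finset.coe_image]
      refine ⟨m, ?_, ?_⟩
      · rw [Finset.mem_coe, Finset.mem_range]; omega
      · funext l
        exact hm3 l l.2
    unfold complexity
    calc _ ≤ _ := Set.ncard_le_ncard hsub (Finset.finite_toSet _)
      _ = ((Finset.range (K * n + 1)).image (fac (parity n₀) n)).card := Set.ncard_coe_finset _
      _ ≤ (Finset.range (K * n + 1)).card := Finset.card_image_le
      _ = K * n + 1 := Finset.card_range _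
      _ ≤ (K + 1) * n := by
        rw [add_mul, one_mul]; omega
  obtain ⟨ρ, hρ1, hρ⟩ := complexity_freq n₀ hdiv θ ht (K + 1) hK'
  exact ⟨ρ, hρ1, by rw [← hρ]; exact ht⟩

/-- No uniformly recurrent automatic parity word. -/
theorem not_primitive_subst (n₀ : ℤ) (hdiv : Div n₀) {A : Type} [Finite A] {b : ℕ} [NeZero b]
    (hb : 2 ≤ b) (σ : A → Fin b → A) (hσ : Primitive σ) (u : ℕ → A) (hu : FixedPt σ u)
    (φ : A → Bool) : parity n₀ ≠ fun k => φ (u k) := by
  intro h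
  have hlr : LinearlyRecurrent (parity n₀) := by
    rw [h]
    exact subst_linearlyRecurrent hb σ hσ u hu φ
  obtain ⟨ρ, hρ1, hρ⟩ := linearlyRecurrent_freq n₀ hdiv hlr
  have hρ' := hρ
  rw [h] at hρ'
  obtain ⟨q, hq⟩ := subst_rational_freq hb σ hσ u hu φ _ hρ'
  have h3 : 0 < Real.log 3 := Real.log_pos (by norm_num)
  have hρ0 : (0:ℝ) < ρ := by
    have : (0:ℚ) < ρ := by linarith
    exact_mod_cast this
  apply log_ratio_ne (q / ρ)
  push_cast
  rw [hq]
  field_simp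

end Pool.Agent.H51.Coll
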