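import Pool.Agent.H51.Coll.Ultra2
import Pool.Agent.H51.Coll.Growth

/-!
Monomials attached to windows of the parity word.
-/

set_option autoImplicit false

namespace Pool.Agent.H51.Coll

open Filter Topology Pool.Agent.H30

lemma pl0_two : pl 0 (2:ℚ) = 1 / 2 := by
  have e0 : pl 0 (2:ℚ) = ((padicNorm 2 (2:ℚ) : ℚ) : ℝ) := rfl
  have : (2:ℚ) = (2:ℕ) := by norm_num
  rw [e0, this, padicNorm.padicNorm_p_of_prime]
  norm_num

lemma pl0_three : pl 0 (3:ℚ) = 1 := by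
  have e0 : pl 0 (3:ℚ) = ((padicNorm 2 (3:ℚ) : ℚ) : ℝ) := rfl
  have : (3:ℚ) = (3:ℕ) := by norm_num
  rw [e0, this, (padicNorm.nat_eq_one_iff (p := 2) 3).mpr (by norm_num)]
  norm_num

lemma pl1_two : pl 1 (2:ℚ) = 1 := by
  have e0 : pl 1 (2:ℚ) = ((padicNorm 3 (2:ℚ) : ℚ) : ℝ) := rfl
  have : (2:ℚ) = (2:ℕ) := by norm_num
  rw [e0, this, (padicNorm.nat_eq_one_iff (p := 3) 2).mpr (by norm_num)]
  norm_num

lemma pl1_three : pl 1 (3:ℚ) = 1 / 3 := by
  have e0 : pl 1 (3:ℚ) = ((padicNorm 3 (3:ℚ) : ℚ) : ℝ) := rfl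
  have : (3:ℚ) = (3:ℕ) := by norm_num
  rw [e0, this, padicNorm.padicNorm_p_of_prime]
  norm_num

lemma pl2_apply (x : ℚ) : pl 2 x = |(x : ℝ)| := rfl

lemma pl0_int (m : ℤ) : pl 0 (m : ℚ) ≤ 1 := by
  have e0 : pl 0 (m:ℚ) = ((padicNorm 2 (m:ℚ) : ℚ) : ℝ) := rfl
  rw [e0]
  exact_mod_cast padicNorm.of_int (p := 2) m

lemma pl1_int (m : ℤ) : pl 1 (m : ℚ) ≤ 1 := by
  have e0 : pl 1 (m:ℚ) = ((padicNorm 3 (m:ℚ) : ℚ) : ℝ) := rfl
  rw [e0]
  exact_mod_cast padicNorm.of_int (p := 3) m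

/-- The monomial of a window. -/
def zz (v : ℕ → Bool) (q len : ℕ → ℕ) (j : ℕ) : ℚ := 2 ^ (len j) / 3 ^ (cnt v (q j) (len j))

lemma cnt_le_len (v : ℕ → Bool) (i n : ℕ) : cnt v i n ≤ n := by
  unfold cnt
  calc _ ≤ (Finset.range n).card := Finset.card_filter_le _ _
    _ = n := Finset.card_range n

variable (v : ℕ → Bool) (q len : ℕ → ℕ)

lemma pl0_zz (j : ℕ) : pl 0 (zz v q len j) = (1 / 2) ^ (len j) := by
  rw [zz, map_div₀, map_pow, map_pow, pl0_two, pl0_three, one_pow, div_one]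

lemma pl1_zz (j : ℕ) : pl 1 (zz v q len j) = 3 ^ (cnt v (q j) (len j)) := by
  rw [zz, map_div₀, map_pow, map_pow, pl1_two, pl1_three, one_pow, one_div, ← inv_pow, one_div, inv_inv]

lemma pl2_zz (j : ℕ) : pl 2 (zz v q len j) = 2 ^ (len j) / 3 ^ (cnt v (q j) (len j)) := by
  rw [pl2_apply, zz]
  push_cast
  rw [abs_of_pos (by positivity)]

lemma zz_ne_zero (j : ℕ) : zz v q len j ≠ 0 := by
  unfold zz
  positivity

variable (σ : Scale) (C' : ℕ) (hlen : ∀ j, len j ≤ C' * σ.ℓ j)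

include hlen in
lemma zz_mem : gm (zz v q len) ∈ σ.O₁ := by
  refine ⟨_, rfl, fun j => ⟨2 ^ (len j + cnt v (q j) (len j)), cnt v (q j) (len j), ?_⟩, 3 ^ C',
    one_le_pow₀ (by norm_num), fun s j => ?_⟩
  · unfold zz
    push_cast
    have : (6:ℚ) = 2 * 3 := by norm_num
    rw [this, mul_pow, pow_add, mul_comm ((2:ℚ) ^ (cnt v (q j) (len j))), mul_div_mul_right _ _ (by positivity)]
  · have hc := cnt_le_len v (q j) (len j)
    have hl := hlen j
    rw [← pow_mul]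
    fin_cases s
    · show pl 0 _ ≤ _
      rw [pl0_zz]
      calc ((1:ℝ) / 2) ^ (len j) ≤ 1 := pow_le_one₀ (by norm_num) (by norm_num)
        _ ≤ 3 ^ (C' * σ.ℓ j) := one_le_pow₀ (by norm_num)
    · show pl 1 _ ≤ _
      rw [pl1_zz]
      exact pow_le_pow_right₀ (by norm_num) (hc.trans hl)
    · show pl 2 _ ≤ _
      rw [pl2_zz]
      calc (2:ℝ) ^ (len j) / 3 ^ (cnt v (q j) (len j)) ≤ 2 ^ (len j) :=
            div_le_self (by positivity) (one_le_pow₀ (by norm_num))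
        _ ≤ 3 ^ (len j) := pow_le_pow_left₀ (by norm_num) (by norm_num) _
        _ ≤ 3 ^ (C' * σ.ℓ j) := pow_le_pow_right₀ (by norm_num) hl

include hlen in
lemma zz_inv_mem : (gm (zz v q len))⁻¹ ∈ σ.O₁ := by
  refine ⟨_, gm_inv _, fun j => ⟨3 ^ (len j + cnt v (q j) (len j)), len j, ?_⟩, 3 ^ C',
    one_le_pow₀ (by norm_num), fun s j => ?_⟩
  · unfold zz
    push_cast
    have : (6:ℚ) = 2 * 3 := by norm_num
    rw [this, mul_pow, pow_add, inv_div, mul_comm ((2:ℚ) ^ (len j)), mul_comm ((3:ℚ) ^ (len j)),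
      mul_comm ((3:ℚ) ^ (len j)) ((2:ℚ) ^ (len j)), mul_div_mul_right _ _ (by positivity)]
  · have hc := cnt_le_len v (q j) (len j)
    have hl := hlen j
    rw [← pow_mul]
    beta_reduce
    rw [map_inv₀]
    fin_cases s
    · show (pl 0 _)⁻¹ ≤ _
      rw [pl0_zz, one_div, inv_pow, inv_inv]
      calc (2:ℝ) ^ (len j) ≤ 3 ^ (len j) := pow_le_pow_left₀ (by norm_num) (by norm_num) _
        _ ≤ 3 ^ (C' * σ.ℓ j) := pow_le_pow_right₀ (by norm_num) hl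
    · show (pl 1 _)⁻¹ ≤ _
      rw [pl1_zz]
      calc ((3:ℝ) ^ (cnt v (q j) (len j)))⁻¹ ≤ 1 := inv_le_one_of_one_le₀ (one_le_pow₀ (by norm_num))
        _ ≤ 3 ^ (C' * σ.ℓ j) := one_le_pow₀ (by norm_num)
    · show (pl 2 _)⁻¹ ≤ _
      rw [pl2_zz, inv_div]
      calc (3:ℝ) ^ (cnt v (q j) (len j)) / 2 ^ (len j) ≤ 3 ^ (cnt v (q j) (len j)) :=
            div_le_self (by positivity) (one_le_pow₀ (by norm_num))
        _ ≤ 3 ^ (C' * σ.ℓ j) := pow_le_pow_right₀ (by norm_num) (hc.trans hl)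

lemma pow_rpow_inv_eq {b : ℝ} (hb : 0 < b) (l n : ℕ) :
    (b ^ l) ^ ((n : ℝ)⁻¹) = Real.exp ((l : ℝ) / n * Real.log b) := by
  rw [← Real.rpow_natCast, ← Real.rpow_mul hb.le, Real.rpow_def_of_pos hb]
  congr 1
  ring

include hlen in
/-- The normalised absolute values of a monomial. -/
lemma zz_hasN (θ : ℝ) (hθ : Tendsto (fun j => ((cnt v (q j) (len j) : ℝ) - θ * len j) / σ.ℓ j)
      (hyperfilter ℕ : Filter ℕ) (𝓝 0)) : ∃ τ : ℝ,
    Tendsto (fun j => (len j : ℝ) / σ.ℓ j) (hyperfilter ℕ : Filter ℕ) (𝓝 τ) ∧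
    HasN σ.ℓ (pl 0) (gm (zz v q len)) (Real.exp (-τ * Real.log 2)) ∧
    HasN σ.ℓ (pl 1) (gm (zz v q len)) (Real.exp (θ * τ * Real.log 3)) ∧
    HasN σ.ℓ (pl 2) (gm (zz v q len)) (Real.exp (τ * Real.log 2 - θ * τ * Real.log 3)) := by
  have hℓ0 : ∀ j, (0:ℝ) < σ.ℓ j := by
    intro j
    have := σ.one_le j
    exact_mod_cast this
  -- the limit of the lengths
  obtain ⟨τ, hτ⟩ : ∃ τ : ℝ, Tendsto (fun j => (len j : ℝ) / σ.ℓ j) (hyperfilter ℕ : Filter ℕ) (𝓝 τ) := by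
    set f : ℕ → ℝ := fun j => (len j : ℝ) / σ.ℓ j with hf
    have h1 : ((hyperfilter ℕ).map f : Filter ℝ) ≤ 𝓟 (Set.Icc 0 (C':ℝ)) := by
      rw [Ultrafilter.coe_map, le_principal_iff, mem_map]
      refine Eventually.of_forall fun j => ⟨by positivity, ?_⟩
      rw [hf]
      beta_reduce
      rw [div_le_iff₀ (hℓ0 j)]
      exact_mod_cast hlen j
    obtain ⟨L, _, hL⟩ := isCompact_Icc.ultrafilter_le_nhds ((hyperfilter ℕ).map f) h1
    exact ⟨L, hL⟩
  -- the limit of the numbers of ones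
  have hcnt : Tendsto (fun j => (cnt v (q j) (len j) : ℝ) / σ.ℓ j) (hyperfilter ℕ : Filter ℕ)
      (𝓝 (θ * τ)) := by
    have h2 := hθ.add (hτ.const_mul θ)
    rw [zero_add] at h2
    refine h2.congr (fun j => ?_)
    have := (hℓ0 j).ne'
    field_simp
    ring
  refine ⟨τ, hτ, ⟨_, rfl, ?_⟩, ⟨_, rfl, ?_⟩, ⟨_, rfl, ?_⟩⟩
  · have h1 : Tendsto (fun j => Real.exp (-((len j : ℝ) / σ.ℓ j) * Real.log 2))
        (hyperfilter ℕ : Filter ℕ) (𝓝 (Real.exp (-τ * Real.log 2))) :=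
      (Real.continuous_exp.tendsto _).comp ((hτ.neg).mul_const _)
    refine h1.congr (fun j => ?_)
    rw [pl0_zz, pow_rpow_inv_eq (by norm_num), one_div, Real.log_inv]
    congr 1
    ring
  · have h1 : Tendsto (fun j => Real.exp (((cnt v (q j) (len j) : ℝ) / σ.ℓ j) * Real.log 3))
        (hyperfilter ℕ : Filter ℕ) (𝓝 (Real.exp (θ * τ * Real.log 3))) :=
      (Real.continuous_exp.tendsto _).comp (hcnt.mul_const _)
    refine h1.congr (fun j => ?_)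
    rw [pl1_zz, pow_rpow_inv_eq (by norm_num)]
  · have h1 : Tendsto (fun j => Real.exp (((len j : ℝ) / σ.ℓ j) * Real.log 2 -
          ((cnt v (q j) (len j) : ℝ) / σ.ℓ j) * Real.log 3))
        (hyperfilter ℕ : Filter ℕ) (𝓝 (Real.exp (τ * Real.log 2 - θ * τ * Real.log 3))) :=
      (Real.continuous_exp.tendsto _).comp ((hτ.mul_const _).sub (hcnt.mul_const _))
    refine h1.congr (fun j => ?_)
    rw [pl2_zz, Real.div_rpow (by positivity) (by positivity), pow_rpow_inv_eq (by norm_num),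
      pow_rpow_inv_eq (by norm_num), Real.exp_sub]

/-- Deviations of the counting function at positions of the order of the scale. -/
lemma freq_dev (θ : ℝ) (hθ : Freq v θ) (R : ℕ) (k : ℕ → ℕ) (hk : ∀ j, k j ≤ R * σ.ℓ j) :
    Tendsto (fun j => ((cnt v 0 (k j) : ℝ) - θ * k j) / σ.ℓ j) (hyperfilter ℕ : Filter ℕ) (𝓝 0) := by
  have hℓ0 : ∀ j, (0:ℝ) < σ.ℓ j := by
    intro j
    have := σ.one_le j
    exact_mod_cast this
  rw [Metric.tendsto_nhds]
  intro ε hε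
  obtain ⟨Cε, hCε⟩ := hθ (ε / (2 * (R + 1))) (by positivity)
  have h2 : Tendsto (fun j => |Cε| / (σ.ℓ j : ℝ)) atTop (𝓝 0) :=
    Tendsto.const_div_atTop (tendsto_natCast_atTop_atTop.comp σ.tendsto) _
  have h3 := (h2.eventually (gt_mem_nhds (show (0:ℝ) < ε / 2 by positivity)))
  filter_upwards [hyper_le_atTop h3] with j hj
  rw [Real.dist_eq, sub_zero]
  have h4 := hCε (k j)
  rw [abs_div, abs_of_pos (hℓ0 j)]
  have h6 : (k j : ℝ) ≤ R * σ.ℓ j := by exact_mod_cast hk j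
  have h7 : ε / (2 * (R + 1)) * k j ≤ ε / 2 * σ.ℓ j := by
    calc ε / (2 * (R + 1)) * k j ≤ ε / (2 * (R + 1)) * (R * σ.ℓ j) :=
          mul_le_mul_of_nonneg_left h6 (by positivity)
      _ = ε / 2 * σ.ℓ j * (R / (R + 1)) := by
          field_simp
      _ ≤ ε / 2 * σ.ℓ j * 1 := by
          refine mul_le_mul_of_nonneg_left ?_ (by positivity)
          rw [div_le_one (by positivity)]
          linarith
      _ = ε / 2 * σ.ℓ j := mul_one _
  calc |(cnt v 0 (k j) : ℝ) - θ * k j| / σ.ℓ j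
      ≤ (ε / (2 * (R + 1)) * k j + Cε) / σ.ℓ j := by
        exact div_le_div_of_nonneg_right h4 (hℓ0 j).le
    _ ≤ (ε / 2 * σ.ℓ j + |Cε|) / σ.ℓ j := by
        refine div_le_div_of_nonneg_right ?_ (hℓ0 j).le
        have := le_abs_self Cε
        linarith
    _ = ε / 2 + |Cε| / σ.ℓ j := by
        have := (hℓ0 j).ne'
        field_simp
    _ < ε / 2 + ε / 2 := by linarith
    _ = ε := by ring

/-- The monomial of a window as an element of the field of moderate germs. -/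
noncomputable def zM : σ.M := ⟨gm (zz v q len), σ.O₁_le_M (zz_mem v q len σ C' hlen)⟩

/-- Window monomials belong to the group of monomials. -/
lemma zM_mem (θ : ℝ) (hθ : Tendsto (fun j => ((cnt v (q j) (len j) : ℝ) - θ * len j) / σ.ℓ j)
      (hyperfilter ℕ : Filter ℕ) (𝓝 0)) (κ : ℝ) (hκ : 1 < κ)
    (hκθ : κ * Real.log 2 = θ * Real.log 3) :
    zM v q len σ C' hlen ∈ (σ.data κ hκ).Γ := by
  obtain ⟨τ, _, h0, h1, h2⟩ := zz_hasN v q len σ C' hlen θ hθ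
  have e0 : σ.Nv 0 (zM v q len σ C' hlen) = Real.exp (-τ * Real.log 2) := nrm_eq h0
  have e1 : σ.Nv 1 (zM v q len σ C' hlen) = Real.exp (θ * τ * Real.log 3) := nrm_eq h1
  have e2 : σ.Nv 2 (zM v q len σ C' hlen) = Real.exp (τ * Real.log 2 - θ * τ * Real.log 3) :=
    nrm_eq h2
  refine ⟨?_, ?_, ?_, ?_, ?_⟩
  · intro h
    rw [h, map_zero] at e0
    exact (Real.exp_pos _).ne e0
  · exact ⟨1, σ.O₀.one_mem, one_ne_zero, by rw [one_mul]; exact zz_mem v q len σ C' hlen⟩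
  · refine ⟨1, σ.O₀.one_mem, one_ne_zero, ?_⟩
    rw [one_mul]
    exact zz_inv_mem v q len σ C' hlen
  · rw [e2, e0, ← Real.exp_mul]
    congr 1
    have : θ * τ * Real.log 3 = τ * (κ * Real.log 2) := by rw [hκθ]; ring
    rw [this]
    ring
  · rw [e1, e0, ← Real.exp_mul]
    congr 1
    have : θ * τ * Real.log 3 = τ * (κ * Real.log 2) := by rw [hκθ]; ring
    rw [this]
    ring

end Pool.Agent.H51.Coll
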