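import Pool.Agent.H51.Coll.Main

/-!
The factor complexity of the parity word of a divergent `3x+1` trajectory.
-/

set_option autoImplicit false

namespace Pool.Agent.H51.Coll.ParityComplexityRes

open Filter Topology Pool.Agent.H30 Pool.Agent.H51.Coll

/-- Let `n₀` be an integer whose trajectory under the 3x+1 map `T` is divergent, and suppose that the
odd terms of the trajectory have a frequency `θ`. Then either the factor complexity `p` of the parity
word of the trajectory is superlinear, `p(n) / n → ∞`, or `θ = ρ log 2 / log 3` for a rational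
number `ρ > 1`. -/
theorem result (n₀ : ℤ) (θ : ℝ) (hdiv : Tendsto (fun k : ℕ => |T^[k] n₀|) atTop atTop)
    (hθ : Tendsto (fun k : ℕ =>
      (((Finset.range k).filter (fun j => T^[j] n₀ % 2 ≠ 0)).card : ℝ) / k) atTop (𝓝 θ)) :
    Tendsto (fun n : ℕ => (complexity (parity n₀) n : ℝ) / n) atTop atTop ∨
      ∃ ρ : ℚ, 1 < ρ ∧ θ = ρ * Real.log 2 / Real.log 3 := by
  classical
  by_cases h : Tendsto (fun n : ℕ => (complexity (parity n₀) n : ℝ) / n) atTop atTop
  · exact Or.inl h
  right
  have hcnt : ∀ k : ℕ, cnt (parity n₀) 0 k =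
      ((Finset.range k).filter (fun j => T^[j] n₀ % 2 ≠ 0)).card := by
    intro k
    unfold cnt
    congr 1
    refine Finset.filter_congr (fun j _ => ?_)
    rw [zero_add, parity, decide_eq_true_iff]
  have hθ' : Tendsto (fun k : ℕ => (cnt (parity n₀) 0 k : ℝ) / k) atTop (𝓝 θ) := by
    simpa only [hcnt] using hθ
  -- failure of superlinearity
  rw [tendsto_atTop] at h
  push Not at h
  obtain ⟨K, hK⟩ := h
  refine complexity_freq n₀ hdiv θ hθ' ⌈|K|⌉₊ ?_
  refine (hK.and_eventually (eventually_gt_atTop 0)).mono (fun n hn => ?_)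
  have hn0 : (0:ℝ) < n := by exact_mod_cast hn.2
  have h1 := hn.1
  rw [div_lt_iff₀ hn0] at h1
  have h2 : K ≤ (⌈|K|⌉₊ : ℝ) := (le_abs_self K).trans (Nat.le_ceil _)
  have h3 : (complexity (parity n₀) n : ℝ) ≤ ((⌈|K|⌉₊ * n : ℕ) : ℝ) := by
    push_cast
    exact h1.le.trans (mul_le_mul_of_nonneg_right h2 hn0.le)
  exact_mod_cast h3

end Pool.Agent.H51.Coll.ParityComplexityRes
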