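import Pool.Agent.H51.Coll.Mono

/-!
Assembly: the trajectory relation in the ultraproduct.
-/

set_option autoImplicit false

namespace Pool.Agent.H51.Coll

open Filter Topology Pool.Agent.H30

lemma gm_sum {ι : Type} (s : Finset ι) (f : ι → ℕ → ℚ) :
    gm (fun j => ∑ i ∈ s, f i j) = ∑ i ∈ s, gm (f i) := by
  classical
  induction s using Finset.induction_on with
  | empty => simp [gm_zero]
  | insert a s ha ih =>
    rw [Finset.sum_insert ha, ← ih, gm_add]
    congr 1
    funext j
    rw [Finset.sum_insert ha]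

lemma gm_ne_zero {a : ℕ → ℚ} (h : ∀ j, a j ≠ 0) : gm a ≠ 0 := by
  intro h0
  rw [gm_zero, gm_eq_iff] at h0
  obtain ⟨j, hj⟩ := h0.exists
  exact h j hj

lemma gm_intCast (m : ℤ) : ((m : ℤ) : Kst) = gm (fun _ => (m : ℚ)) := rfl

lemma cnt_add_win (v : ℕ → Bool) (i m n : ℕ) : cnt v i (m + n) = cnt v i m + cnt v (i + m) n := by
  induction n with
  | zero => simp [cnt]
  | succ n ih =>
    have h1 : ∀ (i n : ℕ), cnt v i (n + 1) = cnt v i n + (if v (i + n) = true then 1 else 0) := by
      intro i n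
      unfold cnt
      rw [Finset.range_add_one, Finset.filter_insert]
      split_ifs with h
      · rw [Finset.card_insert_of_notMem]
        simp
      · simp
    rw [← add_assoc, h1, h1, ih, add_assoc i m n]
    ring

lemma cnt_congr_win (v : ℕ → Bool) (i i' n : ℕ) (h : ∀ l < n, v (i + l) = v (i' + l)) :
    cnt v i n = cnt v i' n := by
  unfold cnt
  congr 1
  refine Finset.filter_congr (fun l hl => ?_)
  rw [h l (Finset.mem_range.mp hl)]

/-- The constant of a window. -/
def cw (n₀ : ℤ) (q len : ℕ) : ℤ := C len (T^[q] n₀)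

/-- One block. -/
lemma block_step (n₀ : ℤ) (p q len : ℕ)
    (h : ∀ l < len, parity n₀ (p + l) = parity n₀ (q + l)) :
    (2:ℚ) ^ len * (T^[p + len] n₀ : ℤ) =
      3 ^ (cnt (parity n₀) q len) * (T^[p] n₀ : ℤ) + cw n₀ q len := by
  have h1 : fac (parity n₀) len p = fac (parity n₀) len q := by
    funext l
    exact h l l.2
  have h2 := modEq_of_fac_eq n₀ len p q h1
  have h3 := C_spec len (T^[p] n₀)
  rw [← Function.iterate_add_apply, add_comm len p, S_congr h2, C_congr h2, ← cnt_parity] at h3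
  have h4 := congrArg (fun z : ℤ => (z : ℚ)) h3
  push_cast at h4
  rw [cw]
  exact h4

/-- Powers of a block. -/
lemma block_pow (n₀ : ℤ) (p q len e : ℕ) (hlen : 1 ≤ len)
    (h : ∀ l < e * len, parity n₀ (p + l) = parity n₀ (q + l % len)) (y c : ℚ)
    (hy : y = 2 ^ len / 3 ^ (cnt (parity n₀) q len)) (hc : c = cw n₀ q len / 3 ^ (cnt (parity n₀) q len))
    (hy1 : 1 - y ≠ 0) :
    cnt (parity n₀) p (e * len) = e * cnt (parity n₀) q len ∧
    ((T^[p] n₀ : ℤ) : ℚ) = y ^ e * (T^[p + e * len] n₀ : ℤ) - c * (1 - y ^ e) / (1 - y) := by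
  induction e with
  | zero => simp [cnt]
  | succ e ih =>
    have h1 : ∀ l < e * len, parity n₀ (p + l) = parity n₀ (q + l % len) := fun l hl =>
      h l (hl.trans_le (Nat.mul_le_mul_right _ (Nat.le_succ e)))
    obtain ⟨ih1, ih2⟩ := ih h1
    have h2 : ∀ l < len, parity n₀ (p + e * len + l) = parity n₀ (q + l) := by
      intro l hl
      have h3 := h (e * len + l) (by rw [Nat.succ_mul]; omega)
      rw [← add_assoc] at h3
      rw [h3]
      congr 2
      rw [add_comm, Nat.add_mul_mod_self_right, Nat.mod_eq_of_lt hl]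
    refine ⟨?_, ?_⟩
    · rw [Nat.succ_mul, cnt_add_win, ih1, cnt_congr_win _ _ _ _ h2, Nat.succ_mul]
    · have h3 := block_step n₀ (p + e * len) q len h2
      have h4 : p + (e + 1) * len = p + e * len + len := by ring
      rw [ih2, h4]
      have h5 : ((T^[p + e * len] n₀ : ℤ) : ℚ) = y * (T^[p + e * len + len] n₀ : ℤ) - c := by
        rw [hy, hc]
        field_simp
        linarith
      rw [h5, pow_succ]
      field_simp
      ring

/-- Telescoping along the pieces. -/
lemma telescope (n₀ : ℤ) {r : ℕ} (pos ex : ℕ → ℕ) (lab : ℕ → Fin r) (len q : Fin r → ℕ) (hpos0 : pos 0 = 0)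
    (hposS : ∀ i, pos (i + 1) = pos i + ex i * len (lab i)) (hlen : ∀ a, 1 ≤ len a)
    (hcont : ∀ i, ∀ l < ex i * len (lab i),
      parity n₀ (pos i + l) = parity n₀ (q (lab i) + l % len (lab i)))
    (Y : ℕ → ℚ) (hY : ∀ i, Y i = 2 ^ (pos i) / 3 ^ (cnt (parity n₀) 0 (pos i)))
    (y c : Fin r → ℚ) (hy : ∀ a, y a = 2 ^ (len a) / 3 ^ (cnt (parity n₀) (q a) (len a)))
    (hc : ∀ a, c a = cw n₀ (q a) (len a) / 3 ^ (cnt (parity n₀) (q a) (len a)))
    (hy1 : ∀ a, 1 - y a ≠ 0) (m : ℕ) :
    (n₀ : ℚ) + ∑ a, (∑ i ∈ Finset.range m, if lab i = a then Y i - Y (i + 1) else 0) / (1 - y a) * c a =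
      Y m * (T^[pos m] n₀ : ℤ) := by
  classical
  induction m with
  | zero => simp [hY, hpos0, cnt]
  | succ m ih =>
    have h1 : ∑ a, (∑ i ∈ Finset.range (m + 1), if lab i = a then Y i - Y (i + 1) else 0) / (1 - y a) * c a =
        ∑ a, (∑ i ∈ Finset.range m, if lab i = a then Y i - Y (i + 1) else 0) / (1 - y a) * c a +
        (Y m - Y (m + 1)) / (1 - y (lab m)) * c (lab m) := by
      simp only [Finset.sum_range_succ, add_div, add_mul, Finset.sum_add_distrib]
      congr 1
      rw [Finset.sum_eq_single (lab m)]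
      · simp
      · intro a _ ha
        rw [if_neg (Ne.symm ha)]
        simp
      · intro h
        exact absurd (Finset.mem_univ _) h
    rw [h1, ← add_assoc, ih]
    obtain ⟨h2, h3⟩ := block_pow n₀ (pos m) (q (lab m)) (len (lab m)) (ex m) (hlen _) (hcont m)
      (y (lab m)) (c (lab m)) (hy _) (hc _) (hy1 _)
    have h4 : Y (m + 1) = Y m * y (lab m) ^ ex m := by
      rw [hY, hY, hposS, cnt_add_win, zero_add, h2, hy]
      rw [pow_add, pow_add, div_pow, ← pow_mul, ← pow_mul, mul_comm (len (lab m)),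
        mul_comm (cnt (parity n₀) (q (lab m)) (len (lab m))), mul_div_mul_comm]
    rw [h3, ← hposS, h4]
    have := hy1 (lab m)
    field_simp
    ring

lemma cw_mem (n₀ : ℤ) (σ : Scale) (C' : ℕ) (q len : ℕ → ℕ) (hlen : ∀ j, len j ≤ C' * σ.ℓ j) :
    gm (fun j => (cw n₀ (q j) (len j) : ℚ) / 3 ^ (cnt (parity n₀) (q j) (len j))) ∈ σ.O₁ := by
  refine ⟨_, rfl, fun j => ⟨cw n₀ (q j) (len j) * 2 ^ (cnt (parity n₀) (q j) (len j)),
    cnt (parity n₀) (q j) (len j), ?_⟩, 3 ^ C', one_le_pow₀ (by norm_num), fun s j => ?_⟩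
  · push_cast
    have : (6:ℚ) = 3 * 2 := by norm_num
    rw [this, mul_pow, mul_div_mul_right _ _ (by positivity)]
  · have hc := cnt_le_len (parity n₀) (q j) (len j)
    have hl := hlen j
    rw [← pow_mul]
    beta_reduce
    rw [map_div₀, map_pow]
    fin_cases s
    · show pl 0 _ / (pl 0 3) ^ _ ≤ _
      rw [pl0_three, one_pow, div_one]
      exact (pl0_int _).trans (one_le_pow₀ (by norm_num))
    · show pl 1 _ / (pl 1 3) ^ _ ≤ _
      rw [pl1_three, div_pow, one_pow, one_div, div_inv_eq_mul]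
      calc pl 1 (cw n₀ (q j) (len j) : ℚ) * 3 ^ (cnt (parity n₀) (q j) (len j))
          ≤ 1 * 3 ^ (C' * σ.ℓ j) := by
            refine mul_le_mul (pl1_int _) (pow_le_pow_right₀ (by norm_num) (hc.trans hl))
              (by positivity) (by norm_num)
        _ = 3 ^ (C' * σ.ℓ j) := one_mul _
    · show pl 2 _ / (pl 2 3) ^ _ ≤ _
      rw [pl2_apply, pl2_apply]
      have h1 : (0:ℤ) ≤ cw n₀ (q j) (len j) := C_nonneg _ _
      have h2 : cw n₀ (q j) (len j) ≤ 2 ^ (len j) * 3 ^ (cnt (parity n₀) (q j) (len j)) := by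
        rw [cnt_parity]
        exact C_le _ _
      have h1' : (0:ℝ) ≤ (cw n₀ (q j) (len j) : ℝ) := by exact_mod_cast h1
      have h2' : (cw n₀ (q j) (len j) : ℝ) ≤ 2 ^ (len j) * 3 ^ (cnt (parity n₀) (q j) (len j)) := by
        exact_mod_cast h2
      push_cast
      rw [abs_of_nonneg h1', abs_of_pos (by norm_num : (0:ℝ) < 3), div_le_iff₀ (by positivity)]
      refine h2'.trans (mul_le_mul_of_nonneg_right ?_ (by positivity))
      calc (2:ℝ) ^ (len j) ≤ 3 ^ (len j) := pow_le_pow_left₀ (by norm_num) (by norm_num) _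
        _ ≤ 3 ^ (C' * σ.ℓ j) := pow_le_pow_right₀ (by norm_num) hl

/-- A bound for the first absolute value. -/
lemma Nv0_le (σ : Scale) (z : σ.M) (F : ℕ → ℚ) (hz : (z : Kst) = gm F) (p : ℕ → ℕ) (N : ℕ)
    (h1 : ∀ j, pl 0 (F j) ≤ (1 / 2) ^ (p j)) (h2 : ∀ j, N * σ.ℓ j ≤ p j) :
    σ.Nv 0 z ≤ (1 / 2) ^ N := by
  have h3 := (σ.good_of_mem_M z.2).hasN 0
  rw [hz] at h3
  have h4 : σ.Nv 0 z = σ.nr 0 (gm F) := by rw [Scale.Nv_apply, hz]
  rw [h4]
  refine le_of_tendsto' h3.tendsto (fun j => ?_)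
  have hj := σ.one_le j
  calc (pl 0 (F j)) ^ ((σ.ℓ j : ℝ)⁻¹) ≤ ((1 / 2) ^ (N * σ.ℓ j)) ^ ((σ.ℓ j : ℝ)⁻¹) := by
        refine Real.rpow_le_rpow ((pl 0).nonneg _) ((h1 j).trans ?_) (by positivity)
        exact pow_le_pow_of_le_one (by norm_num) (by norm_num) (h2 j)
    _ = (1 / 2) ^ N := by
        rw [pow_mul, Real.pow_rpow_inv_natCast (by positivity) (by omega)]

/-- The main statement for a word with decompositions into pieces at infinitely many scales. -/
theorem traj_rational (n₀ : ℤ) (hdiv : Div n₀) (θ : ℝ) (hθ : Freq (parity n₀) θ) (κ : ℝ)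
    (hκ : 1 < κ) (hκθ : κ * Real.log 2 = θ * Real.log 3) (r C₀ : ℕ)
    (hP : ∃ᶠ n in atTop, Pieces (parity n₀) r C₀ n) : ∃ ρ : ℚ, (ρ : ℝ) = κ⁻¹ := by
  classical
  obtain ⟨φ, hφ, hφP⟩ := extraction_of_frequently_atTop (hP.and_eventually (eventually_ge_atTop 1))
  set v := parity n₀ with hv
  let σ : Scale := ⟨φ, fun j => (hφP j).2, hφ.tendsto_atTop⟩
  have hσ : ∀ j, σ.ℓ j = φ j := fun _ => rfl
  choose pos ex lab len q hpos0 hposS hlen hexlen hsp hcont using fun j => (hφP j).1
  -- lower bound for positions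
  have hC₀ : 1 ≤ C₀ := by
    by_contra h
    have h0 : C₀ = 0 := by omega
    have h1 := hsp 0 0
    have h2 := (hφP 0).2
    rw [h0] at h1
    simp only [add_zero] at h1
    omega
  have hposU : ∀ i j, pos j i ≤ (i * C₀) * σ.ℓ j := by
    intro i j
    induction i with
    | zero => simp [hpos0]
    | succ i ih =>
      rw [hposS]
      have := hexlen j i
      rw [hσ] at ih ⊢
      calc pos j i + ex j i * len j (lab j i) ≤ i * C₀ * φ j + C₀ * φ j := add_le_add ih this
        _ = (i + 1) * C₀ * φ j := by ring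
  have hposmono : ∀ j, Monotone (pos j) := by
    intro j
    refine monotone_nat_of_le_succ (fun i => ?_)
    rw [hposS]
    exact Nat.le_add_right _ _
  have hposL' : ∀ j N, N * φ j ≤ pos j (N * C₀) := by
    intro j N
    induction N with
    | zero => simp
    | succ N ih =>
      have h1 := hsp j (N * C₀)
      have h2 : (N + 1) * C₀ = N * C₀ + C₀ := by ring
      rw [h2, Nat.succ_mul]
      omega
  have hposL : ∀ i j, (i / C₀) * σ.ℓ j ≤ pos j i := by
    intro i j
    exact (hposL' j (i / C₀)).trans (hposmono j (Nat.div_mul_le_self i C₀))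
  -- the elements
  set D := σ.data κ hκ with hD
  set Yq : ℕ → ℕ → ℚ := fun i => zz v (fun _ => 0) (fun j => pos j i) with hYq
  set yq : Fin r → ℕ → ℚ := fun a => zz v (fun j => q j a) (fun j => len j a) with hyq
  set cq : Fin r → ℕ → ℚ := fun a j => (cw n₀ (q j a) (len j a) : ℚ) / 3 ^ (cnt v (q j a) (len j a)) with hcq
  set tq : ℕ → Fin r → ℕ → ℚ := fun i a j => if lab j i = a then Yq i j - Yq (i + 1) j else 0 with htq
  set YM : ℕ → σ.M := fun i => zM v (fun _ => 0) (fun j => pos j i) σ (i * C₀) (hposU i) with hYM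
  set yM0 : Fin r → σ.M := fun a => zM v (fun j => q j a) (fun j => len j a) σ C₀
    (fun j => (hlen j a).2) with hyM0
  set used : Fin r → Prop := fun a =>
    ∃ i, ∀ᶠ j in (hyperfilter ℕ : Filter ℕ), lab j i = a ∧ 1 ≤ ex j i with hused
  set yM : Fin r → σ.M := fun a => if used a then yM0 a else 0 with hyM
  set cM : Fin r → σ.M := fun a => ⟨gm (cq a), σ.O₁_le_M (cw_mem n₀ σ C₀ (fun j => q j a)
    (fun j => len j a) (fun j => (hlen j a).2))⟩ with hcM
  set tM : ℕ → Fin r → σ.M := fun i a =>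
    if ∀ᶠ j in (hyperfilter ℕ : Filter ℕ), lab j i = a ∧ 1 ≤ ex j i then YM i - YM (i + 1) else 0 with htM
  have htMq : ∀ i a, (tM i a : Kst) = gm (tq i a) := by
    intro i a
    simp only [htM]
    split_ifs with h
    · have e1 : ((YM i - YM (i + 1) : σ.M) : Kst) = gm (Yq i) - gm (Yq (i + 1)) := rfl
      rw [e1, gm_sub, gm_eq_iff]
      filter_upwards [h] with j hj
      simp only [htq]
      rw [if_pos hj.1]
    · have h' : ∀ᶠ j in (hyperfilter ℕ : Filter ℕ), ¬ (lab j i = a ∧ 1 ≤ ex j i) :=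
        Ultrafilter.eventually_not.mpr h
      have e1 : ((0 : σ.M) : Kst) = gm (fun _ => 0) := rfl
      rw [e1, gm_eq_iff]
      filter_upwards [h'] with j hj
      simp only [htq]
      by_cases hl : lab j i = a
      · have hex : ex j i = 0 := by
          by_contra h0
          exact hj ⟨hl, by omega⟩
        have hp : pos j (i + 1) = pos j i := by rw [hposS, hex, zero_mul, add_zero]
        have hY : Yq (i + 1) j = Yq i j := by
          simp only [hYq, zz, hp]
        rw [if_pos hl, hY, sub_self]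
      · rw [if_neg hl]
  have htM0 : ∀ i a, ¬ used a → tM i a = 0 := by
    intro i a ha
    simp only [htM]
    rw [if_neg]
    intro h
    exact ha ⟨i, h⟩
  have hyne : ∀ a j, 1 - yq a j ≠ 0 := by
    intro a j h0
    have h1 : yq a j = 1 := by linarith
    simp only [hyq, zz] at h1
    rw [div_eq_one_iff_eq (by positivity)] at h1
    have h2 : (2:ℕ) ^ (len j a) = 3 ^ (cnt v (q j a) (len j a)) := by exact_mod_cast h1
    have h3 : 2 ∣ 3 ^ (cnt v (q j a) (len j a)) := by
      rw [← h2]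
      exact dvd_pow_self 2 (by have := (hlen j a).1; omega)
    have h4 := Nat.Prime.dvd_of_dvd_pow Nat.prime_two h3
    omega
  have hyMne : ∀ a, (1 - yM a : σ.M) ≠ 0 := by
    intro a h0
    by_cases ha : used a
    · have e0 : yM a = yM0 a := if_pos ha
      rw [e0] at h0
      have h1 : ((1 - yM0 a : σ.M) : Kst) = gm (fun j => 1 - yq a j) := rfl
      have h2 : gm (fun j => 1 - yq a j) = 0 := by rw [← h1, h0]; rfl
      exact gm_ne_zero (hyne a) h2
    · have e0 : yM a = 0 := if_neg ha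
      rw [e0, sub_zero] at h0
      exact one_ne_zero h0
  -- the coefficients
  set g : ℕ → Fin (r + 1) → σ.M := fun m => Fin.cons 1 (fun a => (∑ i ∈ Finset.range m, tM i a) / (1 - yM a))
    with hg
  set c : Fin (r + 1) → σ.M := Fin.cons ((n₀ : ℤ) : σ.M) cM with hc
  have hYK : ∀ i, YM i ∈ D.K₀ := fun i =>
    Subfield.subset_closure (Or.inr (zM_mem v _ _ σ _ (hposU i) θ
      (freq_dev v σ θ hθ (i * C₀) (fun j => pos j i) (hposU i)) κ hκ hκθ))
  have hyK : ∀ a, yM a ∈ D.K₀ := by
    intro a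
    by_cases ha : used a
    · have e0 : yM a = yM0 a := if_pos ha
      rw [e0]
      refine Subfield.subset_closure (Or.inr (zM_mem v _ _ σ _ (fun j => (hlen j a).2) θ ?_ κ hκ hκθ))
      obtain ⟨i, hi⟩ := ha
      have h1 := freq_dev v σ θ hθ (i * C₀) (fun j => pos j i) (hposU i)
      have h2 := freq_dev v σ θ hθ (i * C₀ + C₀) (fun j => pos j i + len j a) (fun j => by
        have h3 := hposU i j
        have h4 := (hlen j a).2
        rw [add_mul]
        exact add_le_add h3 h4)
      have h3 := h2.sub h1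
      rw [sub_zero] at h3
      refine h3.congr' ?_
      filter_upwards [hi] with j hj
      have h4 : cnt v (pos j i) (len j a) = cnt v (q j a) (len j a) := by
        refine cnt_congr_win v _ _ _ (fun l hl => ?_)
        have h5 := hcont j i l (by
          rw [hj.1]
          exact hl.trans_le (Nat.le_mul_of_pos_left _ (by omega)))
        rw [h5, hj.1, Nat.mod_eq_of_lt hl]
      have h5 : cnt v 0 (pos j i + len j a) = cnt v 0 (pos j i) + cnt v (q j a) (len j a) := by
        rw [cnt_add_win, zero_add, h4]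
      rw [h5]
      push_cast
      ring
    · have e0 : yM a = 0 := if_neg ha
      rw [e0]
      exact D.K₀.zero_mem
  have htK : ∀ i a, tM i a ∈ D.K₀ := by
    intro i a
    simp only [htM]
    split_ifs
    · exact D.K₀.sub_mem (hYK i) (hYK (i + 1))
    · exact D.K₀.zero_mem
  have hgK : ∀ m a, g m a ∈ D.K₀ := by
    intro m a
    refine Fin.cases ?_ (fun a => ?_) a
    · simp only [hg, Fin.cons_zero]
      exact D.K₀.one_mem
    · simp only [hg, Fin.cons_succ]
      exact D.K₀.div_mem (D.K₀.sum_mem (fun i _ => htK i a)) (D.K₀.sub_mem D.K₀.one_mem (hyK a))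
  -- the relation
  have hF : ∀ m, ((∑ a, g m a * c a : σ.M) : Kst) =
      gm (fun j => Yq m j * ((T^[pos j m] n₀ : ℤ) : ℚ)) := by
    intro m
    have h1 : (∑ a, g m a * c a : σ.M) =
        ((n₀ : ℤ) : σ.M) + ∑ a, (∑ i ∈ Finset.range m, tM i a) / (1 - yM a) * cM a := by
      rw [Fin.sum_univ_succ]
      simp only [hg, hc, Fin.cons_zero, Fin.cons_succ, one_mul]
    have h2 : (fun j => Yq m j * ((T^[pos j m] n₀ : ℤ) : ℚ)) = fun j => (n₀ : ℚ) +
        ∑ a, (∑ i ∈ Finset.range m, tq i a j) / (1 - yq a j) * cq a j := by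
      funext j
      exact (telescope n₀ (pos j) (ex j) (lab j) (len j) (q j) (hpos0 j) (hposS j)
        (fun a => (hlen j a).1) (hcont j) (fun i => Yq i j) (fun i => rfl) (fun a => yq a j)
        (fun a => cq a j) (fun a => rfl) (fun a => rfl) (fun a => hyne a j) m).symm
    rw [h1, h2, ← gm_add, gm_sum, ← gm_intCast]
    push_cast
    congr 1
    refine Finset.sum_congr rfl (fun a _ => ?_)
    rw [← gm_mul, ← gm_div, gm_sum]
    have e1 : (cM a : Kst) = gm (cq a) := rfl
    have e3 : gm (fun j => 1 - yq a j) = 1 - gm (yq a) := rfl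
    by_cases ha : used a
    · have e2 : (yM a : Kst) = gm (yq a) := by
        have e0 : yM a = yM0 a := if_pos ha
        rw [e0]
        rfl
      rw [e1, e2, e3]
      simp only [htMq]
    · have e4 : ∑ i ∈ Finset.range m, gm (tq i a) = 0 := by
        refine Finset.sum_eq_zero (fun i _ => ?_)
        rw [← htMq, htM0 i a ha]
        rfl
      have e5 : ∑ i ∈ Finset.range m, (tM i a : Kst) = 0 := by
        refine Finset.sum_eq_zero (fun i _ => ?_)
        rw [htM0 i a ha]
        rfl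
      have e6 : ∑ i ∈ Finset.range m, gm (fun j => tq i a j) = 0 := e4
      rw [e5, e6]
      simp
  -- first absolute value of the monomials
  have hYA : ∀ i, D.A (YM i) ≤ (1 / 2) ^ (i / C₀) := by
    intro i
    refine Nv0_le σ (YM i) (Yq i) rfl (fun j => pos j i) (i / C₀) (fun j => ?_) (hposL i)
    rw [hYq]
    exact (pl0_zz v _ _ j).le
  have htA : ∀ i a, D.A (tM i a) ≤ (1 / 2) ^ (i / C₀) := by
    intro i a
    simp only [htM]
    split_ifs
    · rw [sub_eq_add_neg]
      refine (D.naA _ _).trans (max_le (hYA i) ?_)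
      rw [map_neg_eq_map]
      refine (hYA (i + 1)).trans (pow_le_pow_of_le_one (by norm_num) (by norm_num) ?_)
      exact Nat.div_le_div_right (Nat.le_succ i)
    · rw [map_zero]; positivity
  have hlimdiv : Tendsto (fun m : ℕ => ((1:ℝ) / 2) ^ (m / C₀)) atTop (𝓝 0) := by
    have h1 := tendsto_pow_atTop_nhds_zero_of_lt_one (show (0:ℝ) ≤ 1 / 2 by norm_num)
      (by norm_num)
    exact h1.comp (Nat.tendsto_div_const_atTop (by omega))
  have hmain := D.main (r + 1) c g hgK ?_ ?_ ?_
  · obtain ⟨ρ, hρ⟩ := hmain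
    refine ⟨ρ, ?_⟩
    rw [hρ]
    have e1 : D.α = 1 := rfl
    have e2 : D.β = κ - 1 := rfl
    rw [e1, e2]
    rw [one_div]
    congr 1
    ring
  · -- Cauchy property
    intro a ε hε
    refine Fin.cases ?_ (fun a => ?_) a
    · refine ⟨0, fun R _ R' _ => ?_⟩
      simp only [hg, Fin.cons_zero, sub_self, map_zero]
      exact hε
    · have hA1 : 0 < D.A (1 - yM a) := D.A.pos (hyMne a)
      have h1 : ∀ᶠ m in atTop, ((1:ℝ) / 2) ^ (m / C₀) < ε * D.A (1 - yM a) :=
        hlimdiv.eventually (gt_mem_nhds (by positivity))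
      obtain ⟨R₀, hR₀⟩ := h1.exists
      have h2 : ∀ R ≥ R₀, D.A (g R (Fin.succ a) - g R₀ (Fin.succ a)) < ε := by
        intro R hR
        simp only [hg, Fin.cons_succ]
        rw [← sub_div, map_div₀, div_lt_iff₀ hA1, ← Finset.sum_range_add_sum_Ico _ hR, add_sub_cancel_left]
        refine (sum_le_of_na D.naA _ _ (((1:ℝ) / 2) ^ (R₀ / C₀)) (by positivity) (fun i hi => ?_)).trans_lt hR₀
        refine (htA i a).trans (pow_le_pow_of_le_one (by norm_num) (by norm_num) ?_)
        exact Nat.div_le_div_right (Finset.mem_Ico.mp hi).1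
      refine ⟨R₀, fun R hR R' hR' => ?_⟩
      have h3 : g R (Fin.succ a) - g R' (Fin.succ a) =
          (g R (Fin.succ a) - g R₀ (Fin.succ a)) + -(g R' (Fin.succ a) - g R₀ (Fin.succ a)) := by ring
      rw [h3]
      refine (D.naA _ _).trans_lt (max_lt (h2 R hR) ?_)
      rw [map_neg_eq_map]
      exact h2 R' hR'
  · -- the first limit
    refine squeeze_zero (fun m => D.A.nonneg _) (fun m => ?_) hlimdiv
    refine Nv0_le σ _ _ (hF m) (fun j => pos j m) (m / C₀) (fun j => ?_) (hposL m)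
    rw [map_mul]
    have h1 : pl 0 (Yq m j) = (1 / 2) ^ (pos j m) := pl0_zz v _ _ j
    rw [h1]
    exact mul_le_of_le_one_right (by positivity) (pl0_int _)
  · -- the second limit
    intro hlim
    obtain ⟨_, _, hasym⟩ := asym
    obtain ⟨Lim, hLim0, hLim, _⟩ := hasym n₀ hdiv
    have h1 : ∀ m ≥ C₀, σ.Nv 2 (∑ a, g m a * c a) = 1 := by
      intro m hm
      have h2 : HasN σ.ℓ (pl 2) (gm (fun j => Yq m j * ((T^[pos j m] n₀ : ℤ) : ℚ))) 1 := by
        refine ⟨_, rfl, ?_⟩
        have hposinf : Tendsto (fun j => pos j m) (hyperfilter ℕ : Filter ℕ) atTop := by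
          refine tendsto_atTop_mono (fun j => ?_) (σ.tendsto.mono_left hyper_le_atTop)
          have h3 := hposL m j
          have h4 : 1 ≤ m / C₀ := (Nat.one_le_div_iff (by omega)).mpr hm
          calc σ.ℓ j = 1 * σ.ℓ j := (one_mul _).symm
            _ ≤ m / C₀ * σ.ℓ j := Nat.mul_le_mul_right _ h4
            _ ≤ pos j m := h3
        have h3 : Tendsto (fun j => |u n₀ (pos j m)|) (hyperfilter ℕ : Filter ℕ) (𝓝 |Lim|) :=
          (hLim.comp hposinf).abs
        have h4 : Tendsto (fun j => ((σ.ℓ j : ℝ)⁻¹)) (hyperfilter ℕ : Filter ℕ) (𝓝 0) := by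
          have h5 : Tendsto (fun j => (σ.ℓ j : ℝ)) atTop atTop :=
            tendsto_natCast_atTop_atTop.comp σ.tendsto
          exact h5.inv_tendsto_atTop.mono_left hyper_le_atTop
        have h5 := h3.rpow h4 (Or.inl (abs_pos.mpr hLim0).ne')
        rw [Real.rpow_zero] at h5
        refine h5.congr (fun j => ?_)
        congr 1
        rw [pl2_apply]
        congr 1
        rw [u, hYq]
        simp only [zz]
        push_cast
        rw [hv, cnt_parity]
        simp only [Function.iterate_zero, id_eq]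
        ring
      have h3 : σ.Nv 2 (∑ a, g m a * c a) = σ.nr 2 ((∑ a, g m a * c a : σ.M) : Kst) := rfl
      rw [h3, hF m]
      exact nrm_eq h2
    have h2 : Tendsto (fun m => D.B (∑ a, g m a * c a)) atTop (𝓝 1) := by
      refine (tendsto_const_nhds (x := (1:ℝ))).congr' ?_
      filter_upwards [eventually_ge_atTop C₀] with m hm
      have h3 : D.B (∑ a, g m a * c a) = (σ.Nv 2 (∑ a, g m a * c a)) ^ (κ - 1)⁻¹ := rfl
      rw [h3, h1 m hm, Real.one_rpow]
    exact zero_ne_one (tendsto_nhds_unique hlim h2)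

end Pool.Agent.H51.Coll
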