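import Pool.Agent.H51.Coll.Abs

/-!
The ultraproduct: germs of sequences of rational numbers, their normalised absolute values, and the
instance of the abstract setting given by `{2,3}`-integral germs.
-/

set_option autoImplicit false

namespace Pool.Agent.H51.Coll

open Filter Topology

/-- The ultrapower of `ℚ`. -/
abbrev Kst : Type := (Filter.hyperfilter ℕ : Filter ℕ).Germ ℚ

/-- The germ of a sequence. -/
noncomputable abbrev gm (a : ℕ → ℚ) : Kst := (a : (Filter.hyperfilter ℕ : Filter ℕ).Germ ℚ)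

lemma gm_eq_iff {a b : ℕ → ℚ} : gm a = gm b ↔ ∀ᶠ j in (hyperfilter ℕ : Filter ℕ), a j = b j :=
  Germ.coe_eq

lemma gm_mul (a b : ℕ → ℚ) : gm a * gm b = gm (fun j => a j * b j) := rfl
lemma gm_add (a b : ℕ → ℚ) : gm a + gm b = gm (fun j => a j + b j) := rfl
lemma gm_sub (a b : ℕ → ℚ) : gm a - gm b = gm (fun j => a j - b j) := rfl
lemma gm_neg (a : ℕ → ℚ) : -gm a = gm (fun j => -a j) := rfl
lemma gm_inv (a : ℕ → ℚ) : (gm a)⁻¹ = gm (fun j => (a j)⁻¹) := rfl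
lemma gm_div (a b : ℕ → ℚ) : gm a / gm b = gm (fun j => a j / b j) := rfl
lemma gm_zero : (0 : Kst) = gm (fun _ => 0) := rfl
lemma gm_one : (1 : Kst) = gm (fun _ => 1) := rfl

/-- The hyperfilter is finer than `atTop`. -/
lemma hyper_le_atTop : (hyperfilter ℕ : Filter ℕ) ≤ atTop := by
  rw [← Nat.cofinite_eq_atTop]
  exact hyperfilter_le_cofinite

lemma rpow_inv_tendsto_one {ℓ : ℕ → ℕ} (hℓ : Tendsto ℓ atTop atTop) {c : ℝ} (hc : 0 < c) :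
    Tendsto (fun j => c ^ ((ℓ j : ℝ)⁻¹)) (hyperfilter ℕ : Filter ℕ) (𝓝 1) := by
  have h1 : Tendsto (fun j => ((ℓ j : ℝ)⁻¹)) (hyperfilter ℕ : Filter ℕ) (𝓝 0) := by
    have h2 : Tendsto (fun j => (ℓ j : ℝ)) atTop atTop := tendsto_natCast_atTop_atTop.comp hℓ
    exact h2.inv_tendsto_atTop.mono_left hyper_le_atTop
  have h3 : Tendsto (fun j => c ^ ((ℓ j : ℝ)⁻¹)) (hyperfilter ℕ : Filter ℕ) (𝓝 (c ^ (0:ℝ))) :=
    (continuous_const.rpow continuous_id (fun x => Or.inl hc.ne')).continuousAt.tendsto.comp h1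
  rwa [Real.rpow_zero] at h3

section Norms

variable (ℓ : ℕ → ℕ) (ν : AbsoluteValue ℚ ℝ)

/-- `z` has normalised `ν`-absolute value `L`. -/
def HasN (z : Kst) (L : ℝ) : Prop :=
  ∃ a : ℕ → ℚ, z = gm a ∧
    Tendsto (fun j => (ν (a j)) ^ ((ℓ j : ℝ)⁻¹)) (hyperfilter ℕ : Filter ℕ) (𝓝 L)

variable {ℓ ν}

lemma HasN.tendsto {a : ℕ → ℚ} {L : ℝ} (h : HasN ℓ ν (gm a) L) :
    Tendsto (fun j => (ν (a j)) ^ ((ℓ j : ℝ)⁻¹)) (hyperfilter ℕ : Filter ℕ) (𝓝 L) := by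
  obtain ⟨b, hab, hb⟩ := h
  refine hb.congr' ?_
  filter_upwards [gm_eq_iff.mp hab] with j hj
  rw [hj]

lemma HasN.unique {z : Kst} {L L' : ℝ} (h : HasN ℓ ν z L) (h' : HasN ℓ ν z L') : L = L' := by
  obtain ⟨a, rfl, ha⟩ := h
  exact tendsto_nhds_unique ha h'.tendsto

lemma HasN.nonneg {z : Kst} {L : ℝ} (h : HasN ℓ ν z L) : 0 ≤ L := by
  obtain ⟨a, rfl, ha⟩ := h
  exact ge_of_tendsto' ha (fun j => Real.rpow_nonneg (ν.nonneg _) _)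

lemma HasN.mul {z w : Kst} {L L' : ℝ} (h : HasN ℓ ν z L) (h' : HasN ℓ ν w L') :
    HasN ℓ ν (z * w) (L * L') := by
  obtain ⟨a, rfl, ha⟩ := h
  obtain ⟨b, rfl, hb⟩ := h'
  refine ⟨_, gm_mul a b, ?_⟩
  refine (ha.mul hb).congr (fun j => ?_)
  rw [map_mul, Real.mul_rpow (ν.nonneg _) (ν.nonneg _)]

lemma HasN.inv {z : Kst} {L : ℝ} (h : HasN ℓ ν z L) (hL : 0 < L) : HasN ℓ ν z⁻¹ L⁻¹ := by
  obtain ⟨a, rfl, ha⟩ := h
  refine ⟨_, gm_inv a, ?_⟩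
  refine (ha.inv₀ hL.ne').congr (fun j => ?_)
  rw [map_inv₀, Real.inv_rpow (ν.nonneg _)]

lemma HasN.neg {z : Kst} {L : ℝ} (h : HasN ℓ ν z L) : HasN ℓ ν (-z) L := by
  obtain ⟨a, rfl, ha⟩ := h
  refine ⟨_, gm_neg a, ?_⟩
  refine ha.congr (fun j => ?_)
  rw [ν.map_neg]

lemma HasN.one : HasN ℓ ν 1 1 := by
  refine ⟨_, gm_one, ?_⟩
  simp

lemma HasN.zero (hℓ : Tendsto ℓ atTop atTop) : HasN ℓ ν 0 0 := by
  refine ⟨_, gm_zero, ?_⟩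
  have h1 : ∀ᶠ j in (hyperfilter ℕ : Filter ℕ), 1 ≤ ℓ j :=
    (hℓ.mono_left hyper_le_atTop).eventually (eventually_ge_atTop 1)
  refine (tendsto_const_nhds (x := (0:ℝ))).congr' ?_
  filter_upwards [h1] with j hj
  rw [map_zero, Real.zero_rpow]
  have : (0:ℝ) < ℓ j := by exact_mod_cast hj
  positivity

lemma HasN.add_le (hℓ : Tendsto ℓ atTop atTop) {z w : Kst} {L L' L'' : ℝ} (h : HasN ℓ ν z L)
    (h' : HasN ℓ ν w L') (h'' : HasN ℓ ν (z + w) L'') : L'' ≤ max L L' := by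
  obtain ⟨a, rfl, ha⟩ := h
  obtain ⟨b, rfl, hb⟩ := h'
  rw [gm_add] at h''
  have h3 := h''.tendsto
  have h4 : Tendsto (fun j => (2:ℝ) ^ ((ℓ j : ℝ)⁻¹) *
      max ((ν (a j)) ^ ((ℓ j : ℝ)⁻¹)) ((ν (b j)) ^ ((ℓ j : ℝ)⁻¹))) (hyperfilter ℕ : Filter ℕ)
      (𝓝 (1 * max L L')) := (rpow_inv_tendsto_one hℓ two_pos).mul (ha.max hb)
  rw [one_mul] at h4
  refine le_of_tendsto_of_tendsto' h3 h4 (fun j => ?_)
  have hexp : (0:ℝ) ≤ (ℓ j : ℝ)⁻¹ := by positivity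
  have hmax : ν (a j + b j) ≤ 2 * max (ν (a j)) (ν (b j)) := by
    have := ν.add_le (a j) (b j)
    have h5 := le_max_left (ν (a j)) (ν (b j))
    have h6 := le_max_right (ν (a j)) (ν (b j))
    linarith
  calc (ν (a j + b j)) ^ ((ℓ j : ℝ)⁻¹) ≤ (2 * max (ν (a j)) (ν (b j))) ^ ((ℓ j : ℝ)⁻¹) :=
        Real.rpow_le_rpow (ν.nonneg _) hmax hexp
    _ = (2:ℝ) ^ ((ℓ j : ℝ)⁻¹) * (max (ν (a j)) (ν (b j))) ^ ((ℓ j : ℝ)⁻¹) :=
        Real.mul_rpow two_pos.le (le_max_of_le_left (ν.nonneg _))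
    _ ≤ (2:ℝ) ^ ((ℓ j : ℝ)⁻¹) * max ((ν (a j)) ^ ((ℓ j : ℝ)⁻¹)) ((ν (b j)) ^ ((ℓ j : ℝ)⁻¹)) := by
        refine mul_le_mul_of_nonneg_left ?_ (by positivity)
        rcases le_total (ν (a j)) (ν (b j)) with hab | hab
        · rw [max_eq_right hab]; exact le_max_right _ _
        · rw [max_eq_left hab]; exact le_max_left _ _

/-- Bounded sequences have a normalised absolute value. -/
lemma HasN.exists_of_bdd {a : ℕ → ℚ} {c : ℝ}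
    (h : ∀ᶠ j in (hyperfilter ℕ : Filter ℕ), (ν (a j)) ^ ((ℓ j : ℝ)⁻¹) ≤ c) :
    ∃ L, HasN ℓ ν (gm a) L := by
  set f : ℕ → ℝ := fun j => (ν (a j)) ^ ((ℓ j : ℝ)⁻¹) with hf
  have h1 : ((hyperfilter ℕ).map f : Filter ℝ) ≤ 𝓟 (Set.Icc 0 c) := by
    rw [Ultrafilter.coe_map, le_principal_iff, mem_map]
    filter_upwards [h] with j hj
    exact ⟨Real.rpow_nonneg (ν.nonneg _) _, hj⟩
  obtain ⟨L, _, hL⟩ := isCompact_Icc.ultrafilter_le_nhds ((hyperfilter ℕ).map f) h1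
  exact ⟨L, a, rfl, hL⟩

end Norms

open Classical in
/-- The normalised absolute value, as a function. -/
noncomputable def nrm (ℓ : ℕ → ℕ) (ν : AbsoluteValue ℚ ℝ) (z : Kst) : ℝ :=
  if h : ∃ L, HasN ℓ ν z L then h.choose else 0

lemma nrm_eq {ℓ : ℕ → ℕ} {ν : AbsoluteValue ℚ ℝ} {z : Kst} {L : ℝ} (h : HasN ℓ ν z L) :
    nrm ℓ ν z = L := by
  have h1 : ∃ L, HasN ℓ ν z L := ⟨L, h⟩
  rw [nrm, dif_pos h1]
  exact h1.choose_spec.unique h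

lemma hasN_nrm {ℓ : ℕ → ℕ} {ν : AbsoluteValue ℚ ℝ} {z : Kst} (h : ∃ L, HasN ℓ ν z L) :
    HasN ℓ ν z (nrm ℓ ν z) := by
  obtain ⟨L, hL⟩ := h
  rwa [nrm_eq hL]

instance fact3 : Fact (Nat.Prime 3) := ⟨Nat.prime_three⟩

/-- The three places. -/
noncomputable def pl : Fin 3 → AbsoluteValue ℚ ℝ
  | 0 => Rat.AbsoluteValue.padic 2
  | 1 => Rat.AbsoluteValue.padic 3
  | 2 => Rat.AbsoluteValue.real

/-- `{2,3}`-integral sequences. -/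
def SInt (a : ℕ → ℚ) : Prop := ∀ j, ∃ (m : ℤ) (e : ℕ), a j = m / 6 ^ e

/-- The product formula for `{2,3}`-integers. -/
lemma one_le_prod_pl {x : ℚ} (hx : x ≠ 0) (h : ∃ (m : ℤ) (e : ℕ), x = m / 6 ^ e) :
    1 ≤ pl 0 x * pl 1 x * pl 2 x := by
  obtain ⟨m, e, rfl⟩ := h
  have hm : m ≠ 0 := by
    rintro rfl
    simp at hx
  have hmq : (m : ℚ) ≠ 0 := by exact_mod_cast hm
  have h6 : pl 0 (6 : ℚ) * pl 1 (6 : ℚ) * pl 2 (6 : ℚ) = 1 := by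
    have h2 : padicNorm 2 (6:ℚ) = 1 / 2 := by
      have : (6:ℚ) = (2:ℕ) * (3:ℕ) := by norm_num
      rw [this, padicNorm.mul, padicNorm.padicNorm_p_of_prime]
      rw [(padicNorm.nat_eq_one_iff (p := 2) 3).mpr (by norm_num)]
      norm_num
    have h3 : padicNorm 3 (6:ℚ) = 1 / 3 := by
      have : (6:ℚ) = (3:ℕ) * (2:ℕ) := by norm_num
      rw [this, padicNorm.mul, padicNorm.padicNorm_p_of_prime]
      rw [(padicNorm.nat_eq_one_iff (p := 3) 2).mpr (by norm_num)]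
      norm_num
    have e0 : pl 0 (6:ℚ) = ((padicNorm 2 (6:ℚ) : ℚ) : ℝ) := rfl
    have e1 : pl 1 (6:ℚ) = ((padicNorm 3 (6:ℚ) : ℚ) : ℝ) := rfl
    have e2 : pl 2 (6:ℚ) = |((6:ℚ) : ℝ)| := rfl
    rw [e0, e1, e2, h2, h3]
    norm_num
  have hmain : 1 ≤ pl 0 (m : ℚ) * pl 1 (m : ℚ) * pl 2 (m : ℚ) := by
    have e0 : pl 0 (m:ℚ) = ((padicNorm 2 (m:ℚ) : ℚ) : ℝ) := rfl
    have e1 : pl 1 (m:ℚ) = ((padicNorm 3 (m:ℚ) : ℚ) : ℝ) := rfl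
    have e2 : pl 2 (m:ℚ) = |((m:ℚ) : ℝ)| := rfl
    rw [e0, e1, e2, padicNorm.eq_zpow_of_nonzero hmq, padicNorm.eq_zpow_of_nonzero hmq,
      padicValRat.of_int, padicValRat.of_int]
    have hd2 : ((2:ℤ) ^ padicValInt 2 m) ∣ m := by
      simpa using padicValInt_dvd (p := 2) m
    have hd3 : ((3:ℤ) ^ padicValInt 3 m) ∣ m := by
      simpa using padicValInt_dvd (p := 3) m
    have hcop : IsCoprime ((2:ℤ) ^ padicValInt 2 m) ((3:ℤ) ^ padicValInt 3 m) :=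
      IsCoprime.pow (by norm_num)
    have hd := hcop.mul_dvd hd2 hd3
    have hle : ((2:ℤ) ^ padicValInt 2 m) * ((3:ℤ) ^ padicValInt 3 m) ≤ |m| := by
      have := Int.le_of_dvd (abs_pos.mpr hm) ((dvd_abs _ _).mpr hd)
      exact this
    have hleR : ((2:ℝ) ^ padicValInt 2 m) * ((3:ℝ) ^ padicValInt 3 m) ≤ |(m:ℝ)| := by
      exact_mod_cast hle
    push_cast
    rw [zpow_neg, zpow_neg, zpow_natCast, zpow_natCast, ← mul_inv, inv_mul_eq_div, one_le_div (by positivity)]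
    exact hleR
  have hcalc : pl 0 ((m : ℚ) / 6 ^ e) * pl 1 ((m : ℚ) / 6 ^ e) * pl 2 ((m : ℚ) / 6 ^ e) =
      (pl 0 (m : ℚ) * pl 1 (m : ℚ) * pl 2 (m : ℚ)) /
        (pl 0 (6 : ℚ) * pl 1 (6 : ℚ) * pl 2 (6 : ℚ)) ^ e := by
    simp only [map_div₀, map_pow, mul_pow]
    field_simp
  rw [hcalc, h6, one_pow, div_one]
  exact hmain

end Pool.Agent.H51.Coll
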