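import Pool.Agent.H51.Coll.Ultra

/-!
The instance of the abstract setting given by moderate `{2,3}`-integral germs.
-/

set_option autoImplicit false

namespace Pool.Agent.H51.Coll

open Filter Topology

/-- A sequence of scales. -/
structure Scale where
  ℓ : ℕ → ℕ
  one_le : ∀ j, 1 ≤ ℓ j
  tendsto : Tendsto ℓ atTop atTop

namespace Scale

variable (σ : Scale)

/-- Moderate `{2,3}`-integral germs. -/
def IsO₁ (z : Kst) : Prop :=
  ∃ a : ℕ → ℚ, z = gm a ∧ SInt a ∧ ∃ c : ℝ, 1 ≤ c ∧ ∀ s : Fin 3, ∀ j, pl s (a j) ≤ c ^ (σ.ℓ j)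

/-- The ring of moderate `{2,3}`-integral germs. -/
def O₁ : Subring Kst where
  carrier := {z | σ.IsO₁ z}
  mul_mem' := by
    rintro _ _ ⟨a, rfl, ha, c, hc, hac⟩ ⟨b, rfl, hb, d, hd, hbd⟩
    refine ⟨_, gm_mul a b, fun j => ?_, c * d, one_le_mul_of_one_le_of_one_le hc hd, fun s j => ?_⟩
    · obtain ⟨m, e, hm⟩ := ha j
      obtain ⟨m', e', hm'⟩ := hb j
      refine ⟨m * m', e + e', ?_⟩
      beta_reduce
      rw [hm, hm', pow_add]
      push_cast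
      rw [div_mul_div_comm]
    · rw [map_mul, mul_pow]
      exact mul_le_mul (hac s j) (hbd s j) ((pl s).nonneg _) (by positivity)
  one_mem' := by
    refine ⟨_, gm_one, fun j => ⟨1, 0, by simp⟩, 1, le_refl _, fun s j => ?_⟩
    simp
  add_mem' := by
    rintro _ _ ⟨a, rfl, ha, c, hc, hac⟩ ⟨b, rfl, hb, d, hd, hbd⟩
    refine ⟨_, gm_add a b, fun j => ?_, c + d, by linarith, fun s j => ?_⟩
    · obtain ⟨m, e, hm⟩ := ha j
      obtain ⟨m', e', hm'⟩ := hb j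
      refine ⟨m * 6 ^ e' + m' * 6 ^ e, e + e', ?_⟩
      beta_reduce
      rw [hm, hm', pow_add]
      push_cast
      rw [div_add_div _ _ (by positivity) (by positivity)]
      ring
    · calc pl s (a j + b j) ≤ pl s (a j) + pl s (b j) := (pl s).add_le _ _
        _ ≤ c ^ (σ.ℓ j) + d ^ (σ.ℓ j) := add_le_add (hac s j) (hbd s j)
        _ ≤ (c + d) ^ (σ.ℓ j) := by
            refine pow_add_pow_le (by linarith) (by linarith) ?_
            have := σ.one_le j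
            omega
  zero_mem' := by
    refine ⟨_, gm_zero, fun j => ⟨0, 0, by simp⟩, 1, le_refl _, fun s j => ?_⟩
    simp
  neg_mem' := by
    rintro _ ⟨a, rfl, ha, c, hc, hac⟩
    refine ⟨_, gm_neg a, fun j => ?_, c, hc, fun s j => ?_⟩
    · obtain ⟨m, e, hm⟩ := ha j
      refine ⟨-m, e, ?_⟩
      beta_reduce
      rw [hm]
      push_cast
      ring
    · rw [(pl s).map_neg]
      exact hac s j

/-- The normalised absolute values. -/
noncomputable def nr (s : Fin 3) (z : Kst) : ℝ := nrm σ.ℓ (pl s) z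

/-- Every norm of `z` exists. -/
def Good (z : Kst) : Prop := ∀ s : Fin 3, ∃ L, HasN σ.ℓ (pl s) z L

lemma Good.hasN {σ : Scale} {z : Kst} (h : σ.Good z) (s : Fin 3) : HasN σ.ℓ (pl s) z (σ.nr s z) :=
  hasN_nrm (h s)

lemma good_of_mem_O₁ {z : Kst} (h : z ∈ σ.O₁) : σ.Good z := by
  intro s
  obtain ⟨a, rfl, ha, c, hc, hac⟩ := h
  refine HasN.exists_of_bdd (c := c) (Eventually.of_forall fun j => ?_)
  have h1 : (pl s (a j)) ^ ((σ.ℓ j : ℝ)⁻¹) ≤ (c ^ (σ.ℓ j)) ^ ((σ.ℓ j : ℝ)⁻¹) :=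
    Real.rpow_le_rpow ((pl s).nonneg _) (hac s j) (by positivity)
  have h2 : (c ^ (σ.ℓ j)) ^ ((σ.ℓ j : ℝ)⁻¹) = c := by
    refine Real.pow_rpow_inv_natCast (by linarith) ?_
    have := σ.one_le j
    omega
  rwa [h2] at h1

lemma one_le_prod_of_mem_O₁ {z : Kst} (h : z ∈ σ.O₁) (hz : z ≠ 0) :
    1 ≤ σ.nr 0 z * σ.nr 1 z * σ.nr 2 z := by
  have hg := σ.good_of_mem_O₁ h
  obtain ⟨a, rfl, ha, c, hc, hac⟩ := h
  have hne : ∀ᶠ j in (hyperfilter ℕ : Filter ℕ), a j ≠ 0 := by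
    rw [Ultrafilter.eventually_not]
    intro h0
    apply hz
    rw [gm_zero]
    exact gm_eq_iff.mpr h0
  have h0 := (hg.hasN 0).tendsto
  have h1 := (hg.hasN 1).tendsto
  have h2 := (hg.hasN 2).tendsto
  refine ge_of_tendsto ((h0.mul h1).mul h2) ?_
  filter_upwards [hne] with j hj
  rw [← Real.mul_rpow ((pl 0).nonneg _) ((pl 1).nonneg _),
    ← Real.mul_rpow (mul_nonneg ((pl 0).nonneg _) ((pl 1).nonneg _)) ((pl 2).nonneg _)]
  exact Real.one_le_rpow (one_le_prod_pl hj (ha j)) (by positivity)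

lemma nr_nonneg {z : Kst} (s : Fin 3) : 0 ≤ σ.nr s z := by
  unfold nr nrm
  split_ifs with h
  · exact h.choose_spec.nonneg
  · exact le_refl _

lemma nr_pos_of_mem_O₁ {z : Kst} (h : z ∈ σ.O₁) (hz : z ≠ 0) (s : Fin 3) : 0 < σ.nr s z := by
  have h1 := σ.one_le_prod_of_mem_O₁ h hz
  rcases (σ.nr_nonneg (z := z) s).eq_or_lt with h0 | h0
  · exfalso
    fin_cases s <;> simp at h0 <;> rw [← h0] at h1 <;> simp at h1 <;> linarith
  · exact h0

/-- The field of moderate germs. -/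
noncomputable def M : Subfield Kst := Subfield.closure (σ.O₁ : Set Kst)

lemma mem_M_iff {z : Kst} : z ∈ σ.M ↔ ∃ p ∈ σ.O₁, ∃ q ∈ σ.O₁, p / q = z := by
  rw [M, Subfield.mem_closure_iff, Subring.closure_eq]

lemma O₁_le_M {z : Kst} (h : z ∈ σ.O₁) : z ∈ σ.M := Subfield.subset_closure h

lemma hasN_of_mem_M {z : Kst} (h : z ∈ σ.M) (s : Fin 3) :
    ∃ L, HasN σ.ℓ (pl s) z L ∧ (z ≠ 0 → 0 < L) := by
  obtain ⟨p, hp, q, hq, rfl⟩ := σ.mem_M_iff.mp h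
  by_cases hq0 : q = 0
  · refine ⟨0, ?_, fun h1 => ?_⟩
    · rw [hq0, div_zero]
      exact HasN.zero σ.tendsto
    · rw [hq0, div_zero] at h1
      exact absurd rfl h1
  · have h1 := (σ.good_of_mem_O₁ hp).hasN s
    have h2 := (σ.good_of_mem_O₁ hq).hasN s
    have h3 := σ.nr_pos_of_mem_O₁ hq hq0 s
    refine ⟨σ.nr s p * (σ.nr s q)⁻¹, ?_, fun h4 => ?_⟩
    · rw [div_eq_mul_inv]
      exact h1.mul (h2.inv h3)
    · have hp0 : p ≠ 0 := by
        rintro rfl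
        simp at h4
      exact mul_pos (σ.nr_pos_of_mem_O₁ hp hp0 s) (inv_pos.mpr h3)

lemma good_of_mem_M {z : Kst} (h : z ∈ σ.M) : σ.Good z := fun s => by
  obtain ⟨L, hL, _⟩ := σ.hasN_of_mem_M h s
  exact ⟨L, hL⟩

lemma nr_pos_of_mem_M {z : Kst} (h : z ∈ σ.M) (hz : z ≠ 0) (s : Fin 3) : 0 < σ.nr s z := by
  obtain ⟨L, hL, hL'⟩ := σ.hasN_of_mem_M h s
  unfold nr
  rw [nrm_eq hL]
  exact hL' hz

lemma nr_mul {z w : Kst} (hz : σ.Good z) (hw : σ.Good w) (s : Fin 3) :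
    σ.nr s (z * w) = σ.nr s z * σ.nr s w := nrm_eq ((hz.hasN s).mul (hw.hasN s))

lemma nr_zero (s : Fin 3) : σ.nr s 0 = 0 := nrm_eq (HasN.zero σ.tendsto)

lemma nr_one (s : Fin 3) : σ.nr s 1 = 1 := nrm_eq HasN.one

lemma nr_add_le {z w : Kst} (hz : σ.Good z) (hw : σ.Good w) (hzw : σ.Good (z + w)) (s : Fin 3) :
    σ.nr s (z + w) ≤ max (σ.nr s z) (σ.nr s w) :=
  HasN.add_le σ.tendsto (hz.hasN s) (hw.hasN s) (hzw.hasN s)

/-- The absolute values on the field of moderate germs. -/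
noncomputable def Nv (s : Fin 3) : AbsoluteValue σ.M ℝ where
  toFun z := σ.nr s z
  map_mul' z w := by
    push_cast
    exact σ.nr_mul (σ.good_of_mem_M z.2) (σ.good_of_mem_M w.2) s
  nonneg' z := σ.nr_nonneg s
  eq_zero' z := by
    constructor
    · intro h
      by_contra hz
      have : (z : Kst) ≠ 0 := by
        intro h0
        exact hz (Subtype.ext h0)
      exact (σ.nr_pos_of_mem_M z.2 this s).ne' h
    · rintro rfl
      exact σ.nr_zero s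
  add_le' z w := by
    push_cast
    have h1 := σ.nr_add_le (σ.good_of_mem_M z.2) (σ.good_of_mem_M w.2)
      (σ.good_of_mem_M (z + w).2) s
    have h2 := σ.nr_nonneg (z := (z : Kst)) s
    have h3 := σ.nr_nonneg (z := (w : Kst)) s
    refine h1.trans (max_le ?_ ?_) <;> linarith

lemma Nv_apply (s : Fin 3) (z : σ.M) : σ.Nv s z = σ.nr s (z : Kst) := rfl

lemma Nv_na (s : Fin 3) : IsNonarchimedean (σ.Nv s) := by
  intro z w
  rw [Nv_apply, Nv_apply, Nv_apply]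
  exact σ.nr_add_le (σ.good_of_mem_M z.2) (σ.good_of_mem_M w.2) (σ.good_of_mem_M (z + w).2) s

end Scale

/-- A power of a nonarchimedean absolute value. -/
noncomputable def powAbs {M : Type} [Field M] (f : AbsoluteValue M ℝ) (hf : IsNonarchimedean f) (c : ℝ)
    (hc : 0 < c) : AbsoluteValue M ℝ where
  toFun z := f z ^ c
  map_mul' z w := by rw [map_mul, Real.mul_rpow (f.nonneg _) (f.nonneg _)]
  nonneg' z := Real.rpow_nonneg (f.nonneg _) _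
  eq_zero' z := by
    rw [Real.rpow_eq_zero (f.nonneg _) hc.ne']
    exact f.eq_zero
  add_le' z w := by
    have h1 : f (z + w) ^ c ≤ (max (f z) (f w)) ^ c :=
      Real.rpow_le_rpow (f.nonneg _) (hf z w) hc.le
    have h2 := Real.rpow_nonneg (f.nonneg z) c
    have h3 := Real.rpow_nonneg (f.nonneg w) c
    rcases le_total (f z) (f w) with h | h
    · rw [max_eq_right h] at h1; linarith
    · rw [max_eq_left h] at h1; linarith

lemma powAbs_apply {M : Type} [Field M] (f : AbsoluteValue M ℝ) (hf : IsNonarchimedean f) (c : ℝ)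
    (hc : 0 < c) (z : M) : powAbs f hf c hc z = f z ^ c := rfl

lemma powAbs_na {M : Type} [Field M] (f : AbsoluteValue M ℝ) (hf : IsNonarchimedean f) (c : ℝ)
    (hc : 0 < c) : IsNonarchimedean (powAbs f hf c hc) := by
  intro z w
  rw [powAbs_apply, powAbs_apply, powAbs_apply]
  have h1 : f (z + w) ^ c ≤ (max (f z) (f w)) ^ c :=
    Real.rpow_le_rpow (f.nonneg _) (hf z w) hc.le
  rcases le_total (f z) (f w) with h | h
  · rw [max_eq_right h] at h1; exact h1.trans (le_max_right _ _)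
  · rw [max_eq_left h] at h1; exact h1.trans (le_max_left _ _)

namespace Scale

variable (σ : Scale)

/-- Integral germs all of whose norms are at most one. -/
def O₀ : Subring Kst where
  carrier := {z | z ∈ σ.O₁ ∧ ∀ s, σ.nr s z ≤ 1}
  mul_mem' := by
    rintro z w ⟨hz, hz'⟩ ⟨hw, hw'⟩
    refine ⟨σ.O₁.mul_mem hz hw, fun s => ?_⟩
    rw [σ.nr_mul (σ.good_of_mem_O₁ hz) (σ.good_of_mem_O₁ hw)]
    exact mul_le_one₀ (hz' s) (σ.nr_nonneg s) (hw' s)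
  one_mem' := ⟨σ.O₁.one_mem, fun s => by rw [σ.nr_one]⟩
  add_mem' := by
    rintro z w ⟨hz, hz'⟩ ⟨hw, hw'⟩
    refine ⟨σ.O₁.add_mem hz hw, fun s => ?_⟩
    exact (σ.nr_add_le (σ.good_of_mem_O₁ hz) (σ.good_of_mem_O₁ hw)
      (σ.good_of_mem_O₁ (σ.O₁.add_mem hz hw)) s).trans (max_le (hz' s) (hw' s))
  zero_mem' := ⟨σ.O₁.zero_mem, fun s => by rw [σ.nr_zero]; exact zero_le_one⟩
  neg_mem' := by
    rintro z ⟨hz, hz'⟩
    refine ⟨σ.O₁.neg_mem hz, fun s => ?_⟩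
    have : σ.nr s (-z) = σ.nr s z := nrm_eq ((σ.good_of_mem_O₁ hz).hasN s).neg
    rw [this]
    exact hz' s

lemma nr_eq_one_of_mem_O₀ {z : Kst} (h : z ∈ σ.O₀) (hz : z ≠ 0) (s : Fin 3) : σ.nr s z = 1 := by
  have h1 := σ.one_le_prod_of_mem_O₁ h.1 hz
  have p0 := σ.nr_pos_of_mem_O₁ h.1 hz 0
  have p1 := σ.nr_pos_of_mem_O₁ h.1 hz 1
  have p2 := σ.nr_pos_of_mem_O₁ h.1 hz 2
  have l0 := h.2 0
  have l1 := h.2 1
  have l2 := h.2 2
  have e0 : σ.nr 0 z = 1 := by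
    refine le_antisymm l0 ?_
    have : σ.nr 1 z * σ.nr 2 z ≤ 1 := mul_le_one₀ l1 p2.le l2
    nlinarith
  have e1 : σ.nr 1 z = 1 := by
    refine le_antisymm l1 ?_
    have : σ.nr 0 z * σ.nr 2 z ≤ 1 := mul_le_one₀ l0 p2.le l2
    nlinarith
  have e2 : σ.nr 2 z = 1 := by
    refine le_antisymm l2 ?_
    have : σ.nr 0 z * σ.nr 1 z ≤ 1 := mul_le_one₀ l0 p1.le l1
    nlinarith
  fin_cases s
  · exact e0
  · exact e1
  · exact e2

/-- The constants: fractions of elements of `O₀`. -/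
noncomputable def kk : Subfield Kst := Subfield.closure (σ.O₀ : Set Kst)

lemma mem_kk_iff {z : Kst} : z ∈ σ.kk ↔ ∃ p ∈ σ.O₀, ∃ q ∈ σ.O₀, p / q = z := by
  rw [kk, Subfield.mem_closure_iff, Subring.closure_eq]

lemma O₀_le_O₁ {z : Kst} (h : z ∈ σ.O₀) : z ∈ σ.O₁ := h.1

lemma nr_eq_one_of_mem_kk {z : Kst} (h : z ∈ σ.kk) (hz : z ≠ 0) (s : Fin 3) : σ.nr s z = 1 := by
  obtain ⟨p, hp, q, hq, rfl⟩ := σ.mem_kk_iff.mp h
  have hq0 : q ≠ 0 := by
    rintro rfl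
    simp at hz
  have hp0 : p ≠ 0 := by
    rintro rfl
    simp at hz
  have h1 := (σ.good_of_mem_O₁ hp.1).hasN s
  have h2 := (σ.good_of_mem_O₁ hq.1).hasN s
  rw [σ.nr_eq_one_of_mem_O₀ hp hp0] at h1
  rw [σ.nr_eq_one_of_mem_O₀ hq hq0] at h2
  have h3 := h1.mul (h2.inv one_pos)
  rw [← div_eq_mul_inv] at h3
  unfold nr
  rw [nrm_eq h3]
  norm_num

/-- The integral elements of the abstract setting. -/
def OO : Subring σ.M where
  carrier := {z | ∃ q ∈ σ.O₀, q ≠ 0 ∧ q * (z : Kst) ∈ σ.O₁}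
  mul_mem' := by
    rintro z w ⟨q, hq, hq0, hqz⟩ ⟨q', hq', hq'0, hqz'⟩
    refine ⟨q * q', σ.O₀.mul_mem hq hq', mul_ne_zero hq0 hq'0, ?_⟩
    have : q * q' * ((z * w : σ.M) : Kst) = (q * z) * (q' * w) := by push_cast; ring
    rw [this]
    exact σ.O₁.mul_mem hqz hqz'
  one_mem' := ⟨1, σ.O₀.one_mem, one_ne_zero, by simpa using σ.O₁.one_mem⟩
  add_mem' := by
    rintro z w ⟨q, hq, hq0, hqz⟩ ⟨q', hq', hq'0, hqz'⟩
    refine ⟨q * q', σ.O₀.mul_mem hq hq', mul_ne_zero hq0 hq'0, ?_⟩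
    have : q * q' * ((z + w : σ.M) : Kst) = q' * (q * z) + q * (q' * w) := by push_cast; ring
    rw [this]
    exact σ.O₁.add_mem (σ.O₁.mul_mem hq'.1 hqz) (σ.O₁.mul_mem hq.1 hqz')
  zero_mem' := ⟨1, σ.O₀.one_mem, one_ne_zero, by simpa using σ.O₁.zero_mem⟩
  neg_mem' := by
    rintro z ⟨q, hq, hq0, hqz⟩
    refine ⟨q, hq, hq0, ?_⟩
    have : q * ((-z : σ.M) : Kst) = -(q * z) := by push_cast; ring
    rw [this]
    exact σ.O₁.neg_mem hqz

lemma prod_of_mem_OO {z : σ.M} (h : z ∈ σ.OO) (hz : z ≠ 0) :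
    1 ≤ σ.Nv 0 z * σ.Nv 1 z * σ.Nv 2 z := by
  obtain ⟨q, hq, hq0, hqz⟩ := h
  have hz' : (z : Kst) ≠ 0 := fun h0 => hz (Subtype.ext h0)
  have h1 := σ.one_le_prod_of_mem_O₁ hqz (mul_ne_zero hq0 hz')
  have h2 : ∀ s, σ.nr s (q * z) = σ.nr s (z : Kst) := by
    intro s
    rw [σ.nr_mul (σ.good_of_mem_O₁ hq.1) (σ.good_of_mem_M z.2), σ.nr_eq_one_of_mem_O₀ hq hq0, one_mul]
  rw [h2, h2, h2] at h1
  exact h1

lemma mem_kk_of_mem_OO {z : σ.M} (h : z ∈ σ.OO) (h1 : ∀ s, σ.Nv s z ≤ 1) : (z : Kst) ∈ σ.kk := by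
  obtain ⟨q, hq, hq0, hqz⟩ := h
  rw [σ.mem_kk_iff]
  refine ⟨q * z, ⟨hqz, fun s => ?_⟩, q, hq, ?_⟩
  · rw [σ.nr_mul (σ.good_of_mem_O₁ hq.1) (σ.good_of_mem_M z.2), σ.nr_eq_one_of_mem_O₀ hq hq0, one_mul]
    exact h1 s
  · rw [mul_comm, mul_div_assoc, div_self hq0, mul_one]

/-- Monomials: integral units with the norm relations. -/
noncomputable def GG (κ : ℝ) (hκ : 1 < κ) : Submonoid σ.M where
  carrier := {γ | γ ≠ 0 ∧ γ ∈ σ.OO ∧ γ⁻¹ ∈ σ.OO ∧ σ.Nv 2 γ = σ.Nv 0 γ ^ (κ - 1) ∧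
    σ.Nv 1 γ = σ.Nv 0 γ ^ (-κ)}
  mul_mem' := by
    rintro z w ⟨h1, h2, h3, h4, h5⟩ ⟨k1, k2, k3, k4, k5⟩
    refine ⟨mul_ne_zero h1 k1, σ.OO.mul_mem h2 k2, ?_, ?_, ?_⟩
    · rw [mul_inv]; exact σ.OO.mul_mem h3 k3
    · rw [map_mul, map_mul, h4, k4, Real.mul_rpow ((σ.Nv 0).nonneg _) ((σ.Nv 0).nonneg _)]
    · rw [map_mul, map_mul, h5, k5, Real.mul_rpow ((σ.Nv 0).nonneg _) ((σ.Nv 0).nonneg _)]
  one_mem' := by
    refine ⟨one_ne_zero, σ.OO.one_mem, ?_, ?_, ?_⟩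
    · rw [inv_one]; exact σ.OO.one_mem
    · rw [map_one, map_one, Real.one_rpow]
    · rw [map_one, map_one, Real.one_rpow]

/-- The instance of the abstract setting. -/
noncomputable def data (κ : ℝ) (hκ : 1 < κ) : Data σ.M where
  A := σ.Nv 0
  B := powAbs (σ.Nv 2) (σ.Nv_na 2) (κ - 1)⁻¹ (inv_pos.mpr (by linarith))
  N := σ.Nv 1
  naA := σ.Nv_na 0
  naB := powAbs_na _ _ _ _
  naN := σ.Nv_na 1
  k := σ.kk.comap σ.M.subtype
  O := σ.OO
  Γ := σ.GG κ hκ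
  α := 1
  β := κ - 1
  α_pos := one_pos
  β_pos := by linarith
  k_le := by
    intro z hz
    obtain ⟨p, hp, q, hq, hpq⟩ := σ.mem_kk_iff.mp hz
    have hpq' : p / q = (z : Kst) := hpq
    by_cases hq0 : q = 0
    · refine ⟨1, σ.O₀.one_mem, one_ne_zero, ?_⟩
      rw [← hpq', hq0, div_zero, mul_zero]
      exact σ.O₁.zero_mem
    · refine ⟨q, hq, hq0, ?_⟩
      rw [← hpq', mul_div_cancel₀ _ hq0]
      exact hp.1
  frac := by
    intro z
    obtain ⟨p, hp, q, hq, hpq⟩ := σ.mem_M_iff.mp z.2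
    by_cases hq0 : q = 0
    · refine ⟨1, σ.OO.one_mem, one_ne_zero, ?_⟩
      have : z = 0 := by
        apply Subtype.ext
        rw [← hpq, hq0, div_zero]
        rfl
      rw [this, mul_zero]
      exact σ.OO.zero_mem
    · refine ⟨⟨q, σ.O₁_le_M hq⟩, ⟨1, σ.O₀.one_mem, one_ne_zero, by simpa using hq⟩, ?_, ?_⟩
      · intro h0
        exact hq0 (congrArg Subtype.val h0)
      · refine ⟨1, σ.O₀.one_mem, one_ne_zero, ?_⟩
        push_cast
        rw [one_mul, ← hpq, mul_div_cancel₀ _ hq0]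
        exact hp
  A_k := fun z hz hz0 => σ.nr_eq_one_of_mem_kk hz (fun h0 => hz0 (Subtype.ext h0)) 0
  B_k := fun z hz hz0 => by
    rw [powAbs_apply]
    have : σ.Nv 2 z = 1 := σ.nr_eq_one_of_mem_kk hz (fun h0 => hz0 (Subtype.ext h0)) 2
    rw [this, Real.one_rpow]
  N_k := fun z hz hz0 => σ.nr_eq_one_of_mem_kk hz (fun h0 => hz0 (Subtype.ext h0)) 1
  prod := fun z hz hz0 => by
    have h1 := σ.prod_of_mem_OO hz hz0
    rw [powAbs_apply, Real.rpow_one, ← Real.rpow_mul ((σ.Nv 2).nonneg _),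
      inv_mul_cancel₀ (by linarith), Real.rpow_one]
    calc (1:ℝ) ≤ σ.Nv 0 z * σ.Nv 1 z * σ.Nv 2 z := h1
      _ = σ.Nv 0 z * σ.Nv 2 z * σ.Nv 1 z := by ring
  Γ_O := fun γ h => h.2.1
  Γ_inv := by
    rintro γ ⟨h1, h2, h3, h4, h5⟩
    refine ⟨inv_ne_zero h1, h3, by rwa [inv_inv], ?_, ?_⟩
    · rw [map_inv₀, map_inv₀, h4, Real.inv_rpow ((σ.Nv 0).nonneg _)]
    · rw [map_inv₀, map_inv₀, h5, Real.inv_rpow ((σ.Nv 0).nonneg _)]
  Γ_ne := fun γ h => h.1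
  Γ_B := fun γ h => by
    rw [powAbs_apply, h.2.2.2.1, ← Real.rpow_mul ((σ.Nv 0).nonneg _),
      mul_inv_cancel₀ (by linarith), Real.rpow_one]
  Γ_N := fun γ h => by
    rw [h.2.2.2.2]
    congr 1
    ring
  Γ_triv := fun γ h h1 => by
    refine σ.mem_kk_of_mem_OO h.2.1 (fun s => ?_)
    have h2 : σ.Nv 2 γ = 1 := by rw [h.2.2.2.1, h1, Real.one_rpow]
    have h3 : σ.Nv 1 γ = 1 := by rw [h.2.2.2.2, h1, Real.one_rpow]
    fin_cases s
    · exact h1.le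
    · exact h3.le
    · exact h2.le

end Scale

end Pool.Agent.H51.Coll
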