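import Mathlib

/-!
Infinite words over `Bool`: linear recurrence, counting functions, block decompositions.
-/

set_option autoImplicit false

namespace Pool.Agent.H51.Coll

/-- `v` is linearly recurrent: for some `K`, every factor of `v` of length `n` occurs in `v` at some
position in every interval `[j, j + K n]`. -/
def LinearlyRecurrent (v : ℕ → Bool) : Prop :=
  ∃ K : ℕ, ∀ i j n : ℕ, ∃ m : ℕ, j ≤ m ∧ m ≤ j + K * n ∧ ∀ l < n, v (m + l) = v (i + l)

/-- The number of `true`s of `v` in the window `[i, i + n)`. -/
def cnt (v : ℕ → Bool) (i n : ℕ) : ℕ := ((Finset.range n).filter (fun l => v (i + l) = true)).card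

end Pool.Agent.H51.Coll
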